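import Pool.Agent.Y995.FS.LimS

/-!
Passage to the limit: the lower bound for the maximal occupation time of a disc.
-/

set_option autoImplicit false
set_option linter.unusedVariables false

namespace Pool.Agent.Y995.FS

open H974 Finset H342P H984P H984N MeasureTheory Filter Topology

theorem trQ_mono {S : Finset Edg} {A y0 : ℤ} {m : ℕ} {Q : TEv} {δ δ' : ℝ} (h : δ' ≤ δ)
    (hQ : TrQ S A y0 m Q δ) : TrQ S A y0 m Q δ' := by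
  intro k F0 X Y T h1 h2 h3 h4 h5 h6 h7 h8
  exact h.trans (hQ k F0 X Y T h1 h2 h3 h4 h5 h6 h7 h8)

/-- The slow pieces exist at mesh `δ`. -/
theorem slow_lat {c C : ℝ} (hc : 0 < c) (hC : 0 < C) (hL : LowA c (1/4)) (hU : TwoUp C (1/4))
    (R : Rect) : ∃ κ K3 : ℝ, 0 < κ ∧ 1 ≤ K3 ∧ ∀ ρ : ℝ, 0 < ρ → ∃ C1 : ℝ, 0 < C1 ∧
      ∀ j : ℕ, 400 ≤ j → 1000 * Real.exp (-2 * (K3 * j)) ≤ ρ → ∃ δ1 : ℝ, 0 < δ1 ∧
        ∀ δ : ℝ, 0 < δ → δ ≤ δ1 →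
          R.prob δ (fun F => (R.curve δ F, R.time δ F) ∈ BadO R ρ (Real.exp (-2 * (K3 * j)))
            (κ * (((Nat.sqrt j : ℕ) : ℝ) ^ (1/4 : ℝ) *
              (Real.exp (-2 * (K3 * j))) ^ (7/4 : ℝ)))) ≤
            C1 * Real.exp (-2 * (K3 * j)) := by
  obtain ⟨K3, hK3, htr⟩ := slow_tr hc hC hL hU
  obtain ⟨δ0', hδ0', hlat⟩ := lat_bound R
  obtain ⟨κs, Ss, δs, -, -, hδs, -, hsh⟩ := R.shape
  obtain ⟨δ0, hδ0e⟩ : ∃ δ0 : ℝ, δ0 = min δ0' δs := ⟨_, rfl⟩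
  have hδ0 : 0 < δ0 := by rw [hδ0e]; exact lt_min hδ0' hδs
  have hδ0a : δ0 ≤ δ0' := by rw [hδ0e]; exact min_le_left _ _
  have hδ0b : δ0 ≤ δs := by rw [hδ0e]; exact min_le_right _ _
  obtain ⟨κ, hκ⟩ : ∃ κ : ℝ, κ = c / 5 * (1 / 24) ^ (7/4 : ℝ) := ⟨_, rfl⟩
  have hκ0 : 0 < κ := by rw [hκ]; positivity
  refine ⟨κ, K3, hκ0, hK3, fun ρ hρ => ?_⟩
  obtain ⟨C1, hC1, h1⟩ := hlat ρ hρ
  refine ⟨C1, hC1, fun j hj hjρ => ?_⟩
  obtain ⟨w, hw⟩ : ∃ w : ℝ, w = Real.exp (-2 * (K3 * j)) := ⟨_, rfl⟩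
  have hw0 : 0 < w := by rw [hw]; exact Real.exp_pos _
  have hjR : (400 : ℝ) ≤ j := by exact_mod_cast hj
  have hw1 : w ≤ 1/2 := by
    rw [hw]
    have h2 : Real.exp (-2 * (K3 * j)) ≤ Real.exp (-1) := Real.exp_le_exp.mpr (by nlinarith)
    have h3 := Real.exp_neg_one_lt_d9
    linarith
  obtain ⟨kk, hkk⟩ : ∃ kk, kk = Nat.sqrt j := ⟨_, rfl⟩
  have hkk20 : 20 ≤ kk := by
    rw [hkk, Nat.le_sqrt]; omega
  have hkkj : kk * kk ≤ j := by rw [hkk]; exact Nat.sqrt_le j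
  have hkR : (20 : ℝ) ≤ kk := by exact_mod_cast hkk20
  have hk0 : (0 : ℝ) < kk := by linarith
  have hkkjR : (kk : ℝ) ^ 2 ≤ j := by rw [sq]; exact_mod_cast hkkj
  rw [← hkk]
  obtain ⟨η, hη⟩ : ∃ η : ℝ, η = c / 5 * (w / 24) ^ (7/4 : ℝ) := ⟨_, rfl⟩
  have hη0 : 0 < η := by rw [hη]; positivity
  obtain ⟨δ2, hδ2, hδ2'⟩ : ∃ δ2 : ℝ, 0 < δ2 ∧ ∀ δ : ℝ, 0 < δ → δ ≤ δ2 → δ ^ (7/4 : ℝ) ≤ η := by
    refine ⟨η ^ (4/7 : ℝ), by positivity, fun δ hδ hle => ?_⟩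
    have h2 := Real.rpow_le_rpow hδ.le hle (show (0 : ℝ) ≤ 7/4 by norm_num)
    rw [← Real.rpow_mul hη0.le] at h2
    norm_num at h2
    exact h2
  refine ⟨min (min δ0 δ2) (w / (240 * kk)), lt_min (lt_min hδ0 hδ2) (by positivity),
    fun δ hδ hδ' => ?_⟩
  have hδa : δ ≤ δ0 := hδ'.trans ((min_le_left _ _).trans (min_le_left _ _))
  have hδb : δ ≤ δ2 := hδ'.trans ((min_le_left _ _).trans (min_le_right _ _))
  have hδc : δ ≤ w / (240 * kk) := hδ'.trans (min_le_right _ _)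
  have hδ3 : 240 * kk * δ ≤ w := by
    rw [le_div_iff₀ (by positivity)] at hδc
    linarith
  have hδ4 : 4800 * δ ≤ w := by nlinarith
  have hη2 := hδ2' δ hδ hδb
  obtain ⟨b, hb⟩ : ∃ b : ℕ, b = ⌊w / (12 * δ * kk)⌋₊ := ⟨_, rfl⟩
  have hb1 : (b : ℝ) ≤ w / (12 * δ * kk) := by rw [hb]; exact Nat.floor_le (by positivity)
  have hb2 : w / (12 * δ * kk) < b + 1 := by rw [hb]; exact Nat.lt_floor_add_one _
  have hb3 : 20 ≤ w / (12 * δ * kk) := by rw [le_div_iff₀ (by positivity)]; linarith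
  have hb4 : (19 : ℝ) < b := by linarith
  have hb5 : 1 ≤ b := by
    have : (1 : ℝ) ≤ b := by linarith
    exact_mod_cast this
  rw [le_div_iff₀ (by positivity)] at hb1
  rw [div_lt_iff₀ (by positivity)] at hb2
  obtain ⟨m, hm⟩ : ∃ m : ℕ, m = b * kk := ⟨_, rfl⟩
  have hmR : (m : ℝ) = b * kk := by rw [hm]; push_cast; ring
  have hm1 : 12 * (m * δ) ≤ w := by rw [hmR]; linarith
  have hm2 : w ≤ 24 * (m * δ) := by
    rw [hmR]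
    have : (b : ℝ) + 1 ≤ 2 * b := by linarith
    have h2 : ((b : ℝ) + 1) * (12 * δ * kk) ≤ (2 * b) * (12 * δ * kk) :=
      mul_le_mul_of_nonneg_right this (by positivity)
    linarith
  have hm5 : 5 ≤ m := by
    rw [hm]
    calc 5 ≤ 1 * 20 := by norm_num
      _ ≤ b * kk := Nat.mul_le_mul hb5 hkk20
  have hm0 : (0 : ℝ) < m := by
    have : 0 < m := by omega
    exact_mod_cast this
  have hmb1 : b * kk ≤ m := by rw [hm]
  have hmb2 : m ≤ 2 * b * kk := by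
    rw [hm, mul_assoc]
    omega
  obtain ⟨M, hM⟩ : ∃ M : ℝ, M = 2 * c / 5 * (kk : ℝ) ^ (1/4 : ℝ) * (m : ℝ) ^ (7/4 : ℝ) := ⟨_, rfl⟩
  have hkk4 : 1 ≤ (kk : ℝ) ^ (1/4 : ℝ) := Real.one_le_rpow (by linarith) (by norm_num)
  have hδ7 : 0 < δ ^ (7/4 : ℝ) := Real.rpow_pos_of_pos hδ _
  have hMδ : 2 * ((kk : ℝ) ^ (1/4 : ℝ) * η) ≤ M * δ ^ (7/4 : ℝ) := by
    have h2 : (w / 24) ^ (7/4 : ℝ) ≤ (m : ℝ) ^ (7/4 : ℝ) * δ ^ (7/4 : ℝ) := by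
      rw [← Real.mul_rpow hm0.le hδ.le]
      exact Real.rpow_le_rpow (by positivity) (by linarith) (by norm_num)
    rw [hM, hη]
    have h3 : 0 ≤ 2 * c / 5 * (kk : ℝ) ^ (1/4 : ℝ) := by positivity
    calc 2 * ((kk : ℝ) ^ (1/4 : ℝ) * (c / 5 * (w / 24) ^ (7/4 : ℝ)))
        = (2 * c / 5 * (kk : ℝ) ^ (1/4 : ℝ)) * (w / 24) ^ (7/4 : ℝ) := by ring
      _ ≤ (2 * c / 5 * (kk : ℝ) ^ (1/4 : ℝ)) * ((m : ℝ) ^ (7/4 : ℝ) * δ ^ (7/4 : ℝ)) :=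
          mul_le_mul_of_nonneg_left h2 h3
      _ = _ := by ring
  have hkη : η ≤ (kk : ℝ) ^ (1/4 : ℝ) * η := by nlinarith
  have hM1 : 1 < M := by
    have h2 : 1 * δ ^ (7/4 : ℝ) < M * δ ^ (7/4 : ℝ) := by linarith
    exact lt_of_mul_lt_mul_right h2 hδ7.le
  have hτ : κ * ((kk : ℝ) ^ (1/4 : ℝ) * w ^ (7/4 : ℝ)) ≤ (M - 1) * δ ^ (7/4 : ℝ) := by
    have e : κ * ((kk : ℝ) ^ (1/4 : ℝ) * w ^ (7/4 : ℝ)) = (kk : ℝ) ^ (1/4 : ℝ) * η := by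
      rw [hκ, hη, show w / 24 = 1 / 24 * w by ring, Real.mul_rpow (by norm_num) hw0.le]
      ring
    rw [e]
    linarith
  have hbd := h1 (K3 * j) (by positivity) hjρ δ hδ (hδa.trans hδ0a) (by rw [← hw]; linarith) m hm5
    (by rw [← hw]; exact hm2) (by rw [← hw]; nlinarith) (Qs m M) (gS (5 * m) M)
    (gS_good _ _) Qs_loc (fun K => Qs_det (by omega))
    (fun n x y A y0 => by
      rw [hM]
      refine trQ_mono (Real.exp_le_exp.mpr ?_) (htr m b kk hb5 hmb1 hmb2 hkk20 _ A y0)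
      have : K3 * (kk : ℝ) ^ 2 ≤ K3 * j := mul_le_mul_of_nonneg_left hkkjR (by linarith)
      linarith)
  rw [← hw] at hbd ⊢
  refine le_trans (Pr_mono (okq (by norm_num) (by norm_num)) (fun F hFs hF => ?_)) hbd
  have hmδ : 0 < m * δ := by positivity
  exact badO_mesh hδ (by linarith) (by linarith) hw1 (by omega) (by linarith) hM1 hτ
    (hsh δ hδ (hδa.trans hδ0b)).ok hFs hF

/-- the scales -/
theorem scale_slow {κ K : ℝ} (hκ : 0 < κ) (hK : 1 ≤ K) : ∃ c : ℝ, 0 < c ∧ ∀ j0 : ℕ,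
    ∃ h0 : ℝ, 0 < h0 ∧ ∀ h : ℝ, 0 < h → h < h0 → ∃ j : ℕ, j0 ≤ j ∧
      2 * Real.exp (-2 * (K * j)) ≤ h ∧
      c * (h ^ (7/4 : ℝ) * Real.log (1 / h) ^ (1/8 : ℝ)) ≤
        κ * (((Nat.sqrt j : ℕ) : ℝ) ^ (1/4 : ℝ) * (Real.exp (-2 * (K * j))) ^ (7/4 : ℝ)) := by
  obtain ⟨τ, hτ⟩ : ∃ τ : ℕ → ℝ, τ = fun j : ℕ => 2 * Real.exp (-2 * (K * j)) := ⟨_, rfl⟩
  have hτ0 : ∀ j : ℕ, 0 < τ j := by
    intro j
    rw [hτ]
    simp only
    positivity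
  have hτlim : Tendsto τ atTop (𝓝 0) := by
    have h2 : Tendsto (fun j : ℕ => (Real.exp (-2 * K)) ^ j) atTop (𝓝 0) :=
      tendsto_pow_atTop_nhds_zero_of_lt_one (Real.exp_pos _).le (by
        rw [Real.exp_lt_one_iff]; linarith)
    have h3 := h2.const_mul 2
    rw [mul_zero] at h3
    refine h3.congr fun j => ?_
    rw [hτ, ← Real.exp_nat_mul]
    congr 2
    ring
  obtain ⟨c, hc⟩ : ∃ c : ℝ, c = κ * ((2 * Real.exp (2 * K)) ^ (7/4 : ℝ) *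
    (2 * K * 4) ^ (1/8 : ℝ))⁻¹ := ⟨_, rfl⟩
  have hc0 : 0 < c := by rw [hc]; positivity
  refine ⟨c, hc0, fun j0 => ?_⟩
  refine ⟨min (τ (j0 + 1)) 1, lt_min (hτ0 _) one_pos, fun h hh hh0 => ?_⟩
  have hh1 : h < τ (j0 + 1) := lt_of_lt_of_le hh0 (min_le_left _ _)
  have hh2 : h < 1 := lt_of_lt_of_le hh0 (min_le_right _ _)
  have hex : ∃ j : ℕ, j0 + 1 < j ∧ τ j ≤ h := by
    have h1 := hτlim.eventually (gt_mem_nhds hh)
    obtain ⟨j, hj⟩ := (h1.and (eventually_gt_atTop (j0 + 1))).exists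
    exact ⟨j, hj.2, hj.1.le⟩
  classical
  obtain ⟨j, hj⟩ : ∃ j, j = Nat.find hex := ⟨_, rfl⟩
  have hj1 := Nat.find_spec hex
  rw [← hj] at hj1
  have hj2 : h < τ (j - 1) := by
    by_cases hcase : j - 1 = j0 + 1
    · rw [hcase]; exact hh1
    · have hmin := Nat.find_min hex (m := j - 1) (by omega)
      push Not at hmin
      exact hmin (by omega)
  refine ⟨j, by omega, ?_, ?_⟩
  · have := hj1.2; rw [hτ] at this; exact this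
  have hjge : 1 ≤ j := by omega
  have hj0' : (0 : ℝ) < j := by exact_mod_cast hjge
  obtain ⟨q, hq⟩ : ∃ q, q = Nat.sqrt j := ⟨_, rfl⟩
  rw [← hq]
  have hq1 : 1 ≤ q := by rw [hq, Nat.le_sqrt]; omega
  have hq0 : (0 : ℝ) < q := by exact_mod_cast hq1
  have hqj : j ≤ 4 * (q * q) := by
    have h1 : j < (q + 1) * (q + 1) := by rw [hq]; exact Nat.lt_succ_sqrt j
    nlinarith
  have hqjR : (j : ℝ) ≤ 4 * (q : ℝ) ^ 2 := by
    rw [sq]; exact_mod_cast hqj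
  have hlog : Real.log (1 / h) ≤ 2 * K * 4 * (q : ℝ) ^ 2 := by
    have h1 : 1 / h ≤ 1 / τ j := one_div_le_one_div_of_le (hτ0 j) hj1.2
    have h2 := Real.log_le_log (by positivity) h1
    refine h2.trans ?_
    rw [one_div, Real.log_inv, hτ]
    simp only
    rw [Real.log_mul (by norm_num) (by positivity), Real.log_exp]
    have h3 : 0 ≤ Real.log 2 := Real.log_nonneg (by norm_num)
    nlinarith
  have hlog0 : 0 ≤ Real.log (1 / h) := by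
    refine Real.log_nonneg ?_
    rw [le_div_iff₀ hh]; linarith
  have h1 : h ^ (7/4 : ℝ) ≤ (2 * Real.exp (2 * K)) ^ (7/4 : ℝ) *
      (Real.exp (-2 * (K * j))) ^ (7/4 : ℝ) := by
    rw [← Real.mul_rpow (by positivity) (by positivity)]
    refine Real.rpow_le_rpow hh.le (hj2.le.trans (le_of_eq ?_)) (by norm_num)
    rw [hτ]
    simp only
    rw [mul_assoc, ← Real.exp_add, Nat.cast_sub hjge]
    congr 2
    push_cast
    ring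
  have h2 : Real.log (1 / h) ^ (1/8 : ℝ) ≤ (2 * K * 4) ^ (1/8 : ℝ) * (q : ℝ) ^ (1/4 : ℝ) := by
    have e : (q : ℝ) ^ (1/4 : ℝ) = ((q : ℝ) ^ 2) ^ (1/8 : ℝ) := by
      rw [← Real.rpow_natCast, ← Real.rpow_mul hq0.le]; norm_num
    rw [e, ← Real.mul_rpow (by positivity) (by positivity)]
    exact Real.rpow_le_rpow hlog0 hlog (by norm_num)
  have h4 : h ^ (7/4 : ℝ) * Real.log (1 / h) ^ (1/8 : ℝ) ≤
      ((2 * Real.exp (2 * K)) ^ (7/4 : ℝ) * (2 * K * 4) ^ (1/8 : ℝ)) *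
        ((q : ℝ) ^ (1/4 : ℝ) * (Real.exp (-2 * (K * j))) ^ (7/4 : ℝ)) := by
    calc h ^ (7/4 : ℝ) * Real.log (1 / h) ^ (1/8 : ℝ)
        ≤ ((2 * Real.exp (2 * K)) ^ (7/4 : ℝ) * (Real.exp (-2 * (K * j))) ^ (7/4 : ℝ)) *
          ((2 * K * 4) ^ (1/8 : ℝ) * (q : ℝ) ^ (1/4 : ℝ)) :=
          mul_le_mul h1 h2 (Real.rpow_nonneg hlog0 _) (by positivity)
      _ = _ := by ring
  rw [hc, mul_assoc]
  refine mul_le_mul_of_nonneg_left ?_ hκ.le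
  rw [inv_mul_le_iff₀ (by positivity)]
  exact h4

/-- The lower bound for the maximal occupation time of a disc, on every subarc. -/
theorem occ_low {c C C2 : ℝ} (hc : 0 < c) (hC : 0 < C) (hL : LowA c (1/4))
    (hU : TwoUp C (1/4)) (hC2 : 0 < C2) (hA : AnnUp C2) (R : Rect) :
    ∃ c1 : ℝ, 0 < c1 ∧ ∀ δ : ℕ → ℝ, (∀ i, 0 < δ i) → Tendsto δ atTop (𝓝 0) →
      ∀ μ : ProbabilityMeasure X, Tendsto (fun i => R.law (δ i)) atTop (𝓝 μ) →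
      ∀ᵐ p ∂(μ : Measure X), ∀ s t : unitInterval, s < t → ∃ r0 : ℝ, 0 < r0 ∧
        ∀ r : ℝ, 0 < r → r < r0 → ∃ z : ℂ,
          c1 * (r ^ (7/4 : ℝ) * Real.log (1 / r) ^ (1/8 : ℝ)) ≤
            p.2 * (volume {u : unitInterval | (s ≤ u ∧ u ≤ t) ∧ dist (p.1 u) z ≤ r}).toReal := by
  obtain ⟨κ, K3, hκ, hK3, hlat⟩ := slow_lat hc hC hL hU R
  obtain ⟨c1, hc1, hsc⟩ := scale_slow hκ hK3
  obtain ⟨-, -, h3⟩ := final_of hc hC hL hU hC2 hA R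
  refine ⟨c1, hc1, fun δ hδ hlim μ hμ => ?_⟩
  have hbc := bc R hK3 (B := fun ρ j => BadO R ρ (Real.exp (-2 * (K3 * j)))
    (κ * (((Nat.sqrt j : ℕ) : ℝ) ^ (1/4 : ℝ) * (Real.exp (-2 * (K3 * j))) ^ (7/4 : ℝ))))
    (fun ρ j => badO_open _ _ _ _) (fun ρ hρ => by
      obtain ⟨C1, hC1, h1⟩ := hlat ρ hρ
      obtain ⟨j1, hj1⟩ : ∃ j1 : ℕ, ∀ j : ℕ, j1 ≤ j → 1000 * Real.exp (-2 * (K3 * j)) ≤ ρ := by
        have h2 : Tendsto (fun j : ℕ => 1000 * (Real.exp (-2 * K3)) ^ j) atTop (𝓝 0) := by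
          have h2 : Tendsto (fun j : ℕ => (Real.exp (-2 * K3)) ^ j) atTop (𝓝 0) :=
            tendsto_pow_atTop_nhds_zero_of_lt_one (Real.exp_pos _).le (by
              rw [Real.exp_lt_one_iff]; linarith)
          have h3 := h2.const_mul 1000
          rwa [mul_zero] at h3
        obtain ⟨j1, hj1⟩ := eventually_atTop.1 (h2.eventually (ge_mem_nhds hρ))
        refine ⟨j1, fun j hj => ?_⟩
        have h4 := hj1 j hj
        rw [← Real.exp_nat_mul] at h4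
        have e : (j : ℝ) * (-2 * K3) = -2 * (K3 * j) := by ring
        rwa [e] at h4
      exact ⟨C1, max j1 400, hC1, fun j hj => h1 j (le_trans (le_max_right _ _) hj)
        (hj1 j (le_trans (le_max_left _ _) hj))⟩) hδ hlim hμ
  filter_upwards [h3 δ hδ hlim μ hμ, hbc] with p hp hb
  obtain ⟨hp0, -, -, hcl, -, hdim⟩ := hp
  intro s t hst
  obtain ⟨s', t', i, g1, g2, g3, g4, g5⟩ := sub_arc hcl hdim hst
  obtain ⟨j0, hj0⟩ := eventually_atTop.1 (hb i)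
  obtain ⟨h0, hh0, hh⟩ := hsc j0
  refine ⟨h0, hh0, fun h hpos hlt => ?_⟩
  obtain ⟨j, hj, e1, e2⟩ := hh h hpos hlt
  have hnb := hj0 j hj
  by_contra hcon
  push Not at hcon
  apply hnb
  refine ⟨s', t', g2, g4, g5, fun z hz => ?_⟩
  refine lt_of_le_of_lt ?_ (lt_of_lt_of_le (hcon z) e2)
  refine mul_le_mul_of_nonneg_left ((Jo_le (Real.exp_pos _) s' t' p.1 z).trans ?_) hp0.le
  refine ENNReal.toReal_mono (measure_ne_top _ _) (measure_mono ?_)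
  rintro u ⟨⟨a1, a2⟩, a3⟩
  exact ⟨⟨g1.trans a1, a2.trans g3⟩, a3.trans e1⟩

end Pool.Agent.Y995.FS
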