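import Pool.Agent.Y995.FS.SlowPr

/-!
The probability of the slow trial.
-/

set_option autoImplicit false
set_option linter.unusedVariables false

namespace Pool.Agent.Y995.FS

open H974 Finset H342P H984P H984N TH992.T

/-- the event of the comb -/
def NC (X Y : ℤ) (m b I : ℕ) (w : ℝ) (F : Finset Edg) : Prop :=
  (CA X Y m b I F ∧ CB X Y m b I F) ∧ w ≤ Zc X Y m b I F

theorem slow_R {c C : ℝ} (hc : 0 < c) (hC : 0 < C) (hL : LowA c (1/4)) (hU : TwoUp C (1/4)) :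
    ∃ K : ℝ, 0 < K ∧ ∀ m b kk : ℕ, 1 ≤ b → b * kk ≤ m → m ≤ 2 * b * kk → 20 ≤ kk →
      ∀ X Y : ℤ, Real.exp (-(K * (kk:ℝ) ^ 2)) ≤ Pr (fun _ => (1/2:ℝ)) (RB X Y m)
        (NC X Y m b (kk / 10) (2 * c / 5 * (kk:ℝ) ^ (1/4 : ℝ) * (m:ℝ) ^ (7/4 : ℝ))) := by
  classical
  obtain ⟨M, hM1, hM⟩ := mom_xw hC hU
  have hM0 : 0 < M := by linarith
  have hlq : Real.log q0 ≤ 0 := Real.log_nonpos q0_pos.le q0_le
  obtain ⟨κ, hκ⟩ : ∃ κ : ℝ, κ = 16/25 * c ^ 2 / (324 ^ 2 * (8 * M)) := ⟨_, rfl⟩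
  have hκ0 : 0 < κ := by rw [hκ]; positivity
  refine ⟨|Real.log κ| + (1 - 4 * Real.log q0), by
    have := abs_nonneg (Real.log κ)
    linarith, ?_⟩
  intro m b kk hb hbm hm hkk X Y
  have hb0 : (0 : ℝ) < b := by exact_mod_cast hb
  have hkR : (20 : ℝ) ≤ kk := by exact_mod_cast hkk
  have hk0 : (0 : ℝ) < kk := by linarith
  have hm0 : 1 ≤ m := by
    have : 1 ≤ b * kk := Nat.mul_pos (by omega) (by omega)
    omega
  have hmR : (0 : ℝ) < m := by exact_mod_cast hm0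
  have hbmR : (b : ℝ) * kk ≤ m := by exact_mod_cast hbm
  have hmR2 : (m : ℝ) ≤ 2 * b * kk := by exact_mod_cast hm
  have hbm12 : 12 * b ≤ m := by
    have : 20 * b ≤ b * kk := by rw [Nat.mul_comm 20 b]; exact Nat.mul_le_mul_left _ hkk
    omega
  obtain ⟨I, hI⟩ : ∃ I, I = kk / 10 := ⟨_, rfl⟩
  rw [← hI]
  have hI1 : 10 * I ≤ kk := by omega
  have hI2 : kk ≤ 20 * I := by omega
  have hI1R : 10 * (I : ℝ) ≤ kk := by exact_mod_cast hI1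
  have hI2R : (kk : ℝ) ≤ 20 * I := by exact_mod_cast hI2
  have hH : HgtC m b I := by
    unfold HgtC
    calc 40 * b * I = 4 * (b * (10 * I)) := by ring
      _ ≤ 4 * (b * kk) := Nat.mul_le_mul_left _ (Nat.mul_le_mul_left _ hI1)
      _ ≤ 4 * m := Nat.mul_le_mul_left _ hbm
  have hn : 18 * m ≤ 32 * b * (2 * kk + 1) := by
    calc 18 * m ≤ 18 * (2 * b * kk) := Nat.mul_le_mul_left _ hm
      _ = 36 * (b * kk) := by ring
      _ ≤ 64 * (b * kk) + 32 * b := by omega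
      _ = 32 * b * (2 * kk + 1) := by ring
  have p1 := pr_CA (X := X) (Y := Y) (n := 2 * kk) hb hbm12 hH hn (EC1_sub (X := X) (Y := Y) hb hbm12 hH)
  have p2 := pr_CB (X := X) (Y := Y) (n := 2 * kk) hb hbm12 hH hn
  have hex : (2 * (2 * kk) + 1) * I + 1 ≤ kk ^ 2 := by
    have h1 : 10 * ((2 * (2 * kk) + 1) * I + 1) ≤ 10 * kk ^ 2 := by
      calc 10 * ((2 * (2 * kk) + 1) * I + 1) = (4 * kk + 1) * (10 * I) + 10 := by ring
        _ ≤ (4 * kk + 1) * kk + 10 := Nat.add_le_add_right (Nat.mul_le_mul_left _ hI1) _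
        _ ≤ 10 * kk ^ 2 := by nlinarith
    omega
  have hq : q0 ^ (kk ^ 2) ≤ q0 ^ ((2 * (2 * kk) + 1) * I + 1) :=
    pow_le_pow_of_le_one q0_pos.le q0_le hex
  obtain ⟨Q, hQ⟩ : ∃ Q, Q = Pr (fun _ => (1/2:ℝ)) (RB X Y m) (CA X Y m b I) *
        Pr (fun _ => (1/2:ℝ)) (RB X Y m) (CB X Y m b I) := ⟨_, rfl⟩
  have hQq : q0 ^ (2 * kk ^ 2) ≤ Q := by
    rw [hQ, two_mul, pow_add]
    exact mul_le_mul (hq.trans p1) (hq.trans p2) (pow_nonneg q0_pos.le _)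
      (Pr_nonneg two_ok _ _)
  have hQ0 : 0 < Q := lt_of_lt_of_le (pow_pos q0_pos _) hQq
  -- the mean
  obtain ⟨μ, hμ⟩ : ∃ μ : ℝ, μ = 8/5 * m * kk * b * (c * (b:ℝ) ^ (-(1/4) : ℝ)) := ⟨_, rfl⟩
  have hb4 : 0 < (b:ℝ) ^ (-(1/4) : ℝ) := Real.rpow_pos_of_pos hb0 _
  have hμ0 : 0 < μ := by rw [hμ]; positivity
  have hcard : 8/5 * (m:ℝ) * kk * b ≤ ((Wc X Y m b I).card : ℝ) := by
    have h1 := card_Wc (X := X) (Y := Y) hb hH
    have h2 : (((8 * m) * (I * (4 * b)) : ℕ) : ℝ) ≤ ((Wc X Y m b I).card : ℝ) := by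
      exact_mod_cast h1
    refine le_trans ?_ h2
    push_cast
    have h3 : 8/5 * (m:ℝ) * kk * b ≤ 8/5 * (m:ℝ) * (20 * I) * b := by
      have : 0 ≤ 8/5 * (m:ℝ) := by positivity
      exact mul_le_mul_of_nonneg_right (mul_le_mul_of_nonneg_left hI2R this) hb0.le
    linarith
  have h1 : μ * Q ≤ Ex (fun _ => (1/2:ℝ)) (RB X Y m) (fun F => Zc X Y m b I F *
        ind (CA X Y m b I F ∧ CB X Y m b I F)) := by
    refine le_trans ?_ (Zc_ex hc hL hb hbm12 hH)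
    rw [← hQ, hμ]
    refine mul_le_mul_of_nonneg_right ?_ hQ0.le
    exact mul_le_mul_of_nonneg_right hcard (by positivity)
  have key := pz_comb hμ0.le hQ0.le (by rw [comb_indep hb hbm12 hH, ← hQ]) h1
    (Zc_sq hM1 hC hU hM hb hbm12 hm hH)
  obtain ⟨PP, hPP⟩ : ∃ PP, PP = Pr (fun _ => (1/2:ℝ)) (RB X Y m) (fun F =>
      (CA X Y m b I F ∧ CB X Y m b I F) ∧ μ / 2 ≤ Zc X Y m b I F) := ⟨_, rfl⟩
  rw [← hPP] at key
  have hb34 : 0 < (b:ℝ) ^ (3/4 : ℝ) := Real.rpow_pos_of_pos hb0 _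
  have hμ2 : μ = 8/5 * c * (m * kk * (b:ℝ) ^ (3/4 : ℝ)) := by
    have e : (b:ℝ) ^ (3/4 : ℝ) = b * (b:ℝ) ^ (-(1/4) : ℝ) := by
      rw [show (3/4 : ℝ) = 1 + -(1/4) by norm_num, Real.rpow_add hb0, Real.rpow_one]
    rw [hμ, e]; ring
  -- the level
  have hlev : 2 * c / 5 * (kk:ℝ) ^ (1/4 : ℝ) * (m:ℝ) ^ (7/4 : ℝ) ≤ μ / 2 := by
    have h2 : (m : ℝ) / (2 * kk) ≤ b := by
      rw [div_le_iff₀ (by positivity)]; linarith
    have h3 : ((m : ℝ) / (2 * kk)) ^ (3/4 : ℝ) ≤ (b:ℝ) ^ (3/4 : ℝ) :=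
      Real.rpow_le_rpow (by positivity) h2 (by norm_num)
    have h4 : (m : ℝ) ^ (3/4 : ℝ) ≤ 2 * (kk : ℝ) ^ (3/4 : ℝ) * (b:ℝ) ^ (3/4 : ℝ) := by
      rw [Real.div_rpow hmR.le (by positivity), div_le_iff₀ (by positivity),
        Real.mul_rpow (by norm_num) hk0.le] at h3
      have h5 : (2:ℝ) ^ (3/4 : ℝ) ≤ 2 := by
        calc (2:ℝ) ^ (3/4 : ℝ) ≤ (2:ℝ) ^ (1 : ℝ) :=
              Real.rpow_le_rpow_of_exponent_le (by norm_num) (by norm_num)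
          _ = 2 := Real.rpow_one 2
      have h6 : 0 < (kk : ℝ) ^ (3/4 : ℝ) := Real.rpow_pos_of_pos hk0 _
      calc (m : ℝ) ^ (3/4 : ℝ) ≤ (b:ℝ) ^ (3/4 : ℝ) * ((2:ℝ) ^ (3/4 : ℝ) * (kk : ℝ) ^ (3/4 : ℝ)) :=
            h3
        _ ≤ (b:ℝ) ^ (3/4 : ℝ) * (2 * (kk : ℝ) ^ (3/4 : ℝ)) :=
            mul_le_mul_of_nonneg_left (mul_le_mul_of_nonneg_right h5 h6.le) hb34.le
        _ = _ := by ring
    have e1 : (m:ℝ) ^ (7/4 : ℝ) = m * (m:ℝ) ^ (3/4 : ℝ) := by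
      rw [show (7/4 : ℝ) = 1 + 3/4 by norm_num, Real.rpow_add hmR, Real.rpow_one]
    have e2 : (kk:ℝ) ^ (1/4 : ℝ) * (kk:ℝ) ^ (3/4 : ℝ) = kk := by
      rw [← Real.rpow_add hk0]; norm_num
    rw [hμ2, e1]
    have h7 : 0 ≤ 2 * c / 5 * (kk:ℝ) ^ (1/4 : ℝ) * m := by
      have := Real.rpow_nonneg hk0.le (1/4 : ℝ)
      positivity
    calc 2 * c / 5 * (kk:ℝ) ^ (1/4 : ℝ) * (m * (m:ℝ) ^ (3/4 : ℝ)) =
        (2 * c / 5 * (kk:ℝ) ^ (1/4 : ℝ) * m) * (m:ℝ) ^ (3/4 : ℝ) := by ring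
      _ ≤ (2 * c / 5 * (kk:ℝ) ^ (1/4 : ℝ) * m) * (2 * (kk : ℝ) ^ (3/4 : ℝ) * (b:ℝ) ^ (3/4 : ℝ)) :=
        mul_le_mul_of_nonneg_left h4 h7
      _ = 4 * c / 5 * m * ((kk:ℝ) ^ (1/4 : ℝ) * (kk:ℝ) ^ (3/4 : ℝ)) * (b:ℝ) ^ (3/4 : ℝ) := by ring
      _ = 8/5 * c * (m * kk * (b:ℝ) ^ (3/4 : ℝ)) / 2 := by rw [e2]; ring
  have hmon : PP ≤ Pr (fun _ => (1/2:ℝ)) (RB X Y m)
        (NC X Y m b I (2 * c / 5 * (kk:ℝ) ^ (1/4 : ℝ) * (m:ℝ) ^ (7/4 : ℝ))) := by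
    rw [hPP]
    exact Pr_mono two_ok fun F _ hF => ⟨hF.1, hlev.trans hF.2⟩
  refine le_trans ?_ hmon
  -- the lower bound
  have h5 : κ * (q0 ^ (2 * kk ^ 2)) ^ 2 ≤ PP := by
    have hbb : 0 < (b:ℝ) ^ (7/2 : ℝ) := Real.rpow_pos_of_pos hb0 _
    have g1 : 16/25 * c ^ 2 * ((kk:ℝ) ^ 4 * (b:ℝ) ^ (7/2 : ℝ)) ≤ (μ / 2) ^ 2 := by
      rw [hμ2]
      have e3 : (8/5 * c * (m * kk * (b:ℝ) ^ (3/4 : ℝ)) / 2) ^ 2 =
          16/25 * c ^ 2 * ((m:ℝ) ^ 2 * kk ^ 2 * ((b:ℝ) ^ (3/4 : ℝ)) ^ 2) := by ring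
      rw [e3]
      refine mul_le_mul_of_nonneg_left ?_ (by positivity)
      have e4 : (b:ℝ) ^ (7/2 : ℝ) = (b:ℝ) ^ 2 * ((b:ℝ) ^ (3/4 : ℝ)) ^ 2 := by
        rw [← Real.rpow_natCast ((b:ℝ) ^ (3/4 : ℝ)), ← Real.rpow_mul hb0.le,
          ← Real.rpow_natCast, ← Real.rpow_add hb0]
        norm_num
      rw [e4]
      have g2 : ((b:ℝ) * kk) ^ 2 ≤ (m:ℝ) ^ 2 := pow_le_pow_left₀ (by positivity) hbmR 2
      have g3 : 0 ≤ (kk:ℝ) ^ 2 * ((b:ℝ) ^ (3/4 : ℝ)) ^ 2 := by positivity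
      calc (kk:ℝ) ^ 4 * ((b:ℝ) ^ 2 * ((b:ℝ) ^ (3/4 : ℝ)) ^ 2) =
          ((b:ℝ) * kk) ^ 2 * ((kk:ℝ) ^ 2 * ((b:ℝ) ^ (3/4 : ℝ)) ^ 2) := by ring
        _ ≤ (m:ℝ) ^ 2 * ((kk:ℝ) ^ 2 * ((b:ℝ) ^ (3/4 : ℝ)) ^ 2) :=
            mul_le_mul_of_nonneg_right g2 g3
        _ = _ := by ring
    have g4 : (16/25 * c ^ 2 * ((kk:ℝ) ^ 4 * (b:ℝ) ^ (7/2 : ℝ))) * Q ^ 2 ≤
        (324 * (kk:ℝ) ^ 2) ^ 2 * (8 * M) * (b : ℝ) ^ (7/2 : ℝ) * PP := by
      refine le_trans ?_ key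
      rw [mul_pow (μ / 2) Q 2]
      exact mul_le_mul_of_nonneg_right g1 (by positivity)
    have hk4 : 0 < (kk:ℝ) ^ 4 * (b:ℝ) ^ (7/2 : ℝ) := by positivity
    have g5 : ((kk:ℝ) ^ 4 * (b:ℝ) ^ (7/2 : ℝ)) * (16/25 * c ^ 2 * Q ^ 2) ≤
        ((kk:ℝ) ^ 4 * (b:ℝ) ^ (7/2 : ℝ)) * (324 ^ 2 * (8 * M) * PP) := by linarith
    have g6 := le_of_mul_le_mul_left g5 hk4
    have g7 : κ * Q ^ 2 ≤ PP := by
      rw [hκ, div_mul_eq_mul_div, div_le_iff₀ (by positivity)]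
      linarith
    refine le_trans ?_ g7
    refine mul_le_mul_of_nonneg_left ?_ hκ0.le
    exact pow_le_pow_left₀ (pow_nonneg q0_pos.le _) hQq 2
  refine le_trans ?_ h5
  have hZ1 : 1 ≤ (kk:ℝ) ^ 2 := by nlinarith
  have e5 : (q0 ^ (2 * kk ^ 2)) ^ 2 = Real.exp (4 * Real.log q0 * (kk:ℝ) ^ 2) := by
    rw [← pow_mul]
    have : 4 * Real.log q0 * (kk:ℝ) ^ 2 = ((2 * kk ^ 2 * 2 : ℕ) : ℝ) * Real.log q0 := by
      push_cast; ring
    rw [this, Real.exp_nat_mul, Real.exp_log q0_pos]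
  rw [e5]
  have h11 : Real.exp (-|Real.log κ| * (kk:ℝ) ^ 2) ≤ κ := by
    rw [← Real.exp_log hκ0]
    refine Real.exp_le_exp.mpr ?_
    rw [Real.exp_log hκ0]
    have g1 := neg_abs_le (Real.log κ)
    have g2 := abs_nonneg (Real.log κ)
    nlinarith
  calc Real.exp (-((|Real.log κ| + (1 - 4 * Real.log q0)) * (kk:ℝ) ^ 2))
      ≤ Real.exp (-|Real.log κ| * (kk:ℝ) ^ 2 + 4 * Real.log q0 * (kk:ℝ) ^ 2) := by
        refine Real.exp_le_exp.mpr ?_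
        nlinarith
    _ = Real.exp (-|Real.log κ| * (kk:ℝ) ^ 2) * Real.exp (4 * Real.log q0 * (kk:ℝ) ^ 2) :=
        Real.exp_add _ _
    _ ≤ _ := mul_le_mul_of_nonneg_right h11 (Real.exp_pos _).le

theorem Wc_PR {X Y : ℤ} {m b I : ℕ} (hb : 1 ≤ b) (hbm : 12 * b ≤ m) (hH : HgtC m b I) {v : Vtx}
    (hv : v ∈ Wc X Y m b I) {e : Edg} (he : e ∈ PR v b) : e ∈ RB X Y m := by
  rw [mem_Wc] at hv
  obtain ⟨-, ⟨hv1, hv2⟩, i, hi, hr1, hr2⟩ := hv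
  obtain ⟨h3, h4⟩ := yt_bd (Y := Y) hH hi
  unfold PR at he
  unfold RB
  exact RE_sub_RE (by omega) (by omega) (by omega) (by omega) he

theorem Wc_DR {X Y : ℤ} {m b I : ℕ} (hb : 1 ≤ b) (hbm : 12 * b ≤ m) (hH : HgtC m b I) {v : Vtx}
    (hv : v ∈ Wc X Y m b I) {e : Edg} (he : dl e ∈ DR v b) : e ∈ RB X Y m := by
  rw [mem_Wc] at hv
  obtain ⟨-, ⟨hv1, hv2⟩, i, hi, hr1, hr2⟩ := hv
  obtain ⟨h3, h4⟩ := yt_bd (Y := Y) hH hi
  obtain ⟨x, y, _ | _⟩ := e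
  · simp only [DR, dl_f, mem_RE_true] at he
    simp only [RB, mem_RE_false]
    omega
  · simp only [DR, dl_t, mem_RE_false] at he
    simp only [RB, mem_RE_true]
    omega

theorem NC_mono {X Y : ℤ} {m b I : ℕ} {w : ℝ} {F G : Finset Edg}
    (h1 : ∀ e ∈ EC1 X Y m b I, e ∈ F → e ∈ G) (h2 : ∀ e ∈ EC2 X Y m b I, e ∈ G → e ∈ F)
    (h3 : ∀ v ∈ Wc X Y m b I, ∀ e ∈ PR v b, e ∈ F → e ∈ G)
    (h4 : ∀ v ∈ Wc X Y m b I, ∀ e, dl e ∈ DR v b → e ∈ G → e ∈ F)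
    (h : NC X Y m b I w F) : NC X Y m b I w G := by
  refine ⟨⟨CA_mono' h1 h.1.1, CB_mono' h2 h.1.2⟩, h.2.trans ?_⟩
  unfold Zc
  refine sum_le_sum fun v hv => ind_mono fun hR => RA_mono' ?_ ?_ hR
  · exact fun e he heF => Finset.mem_coe.2 (h3 v hv e he (Finset.mem_coe.1 heF))
  · exact fun e he heF => Finset.mem_coe.2 (h4 v hv e he (Finset.mem_coe.1 heF))

/-- The probability of the slow trial. -/
theorem slow_tr {c C : ℝ} (hc : 0 < c) (hC : 0 < C) (hL : LowA c (1/4)) (hU : TwoUp C (1/4)) :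
    ∃ K3 : ℝ, 1 ≤ K3 ∧ ∀ m b kk : ℕ, 1 ≤ b → b * kk ≤ m → m ≤ 2 * b * kk → 20 ≤ kk →
      ∀ (S : Finset Edg) (A y0 : ℤ),
        TrQ S A y0 m (Qs m (2 * c / 5 * (kk:ℝ) ^ (1/4 : ℝ) * (m : ℝ) ^ (7/4 : ℝ)))
          (Real.exp (-(K3 * (kk:ℝ) ^ 2))) := by
  classical
  obtain ⟨K, hK, hsl⟩ := slow_R hc hC hL hU
  have hlq : Real.log q0 ≤ 0 := Real.log_nonpos q0_pos.le q0_le
  refine ⟨K + 1 - 12 * Real.log q0, by linarith, ?_⟩
  intro m b kk hb hbm hm hkk S A y0 k F0 X Y T hF0 hk hst hA hBl hent hEk hkE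
  have hm1 : 1 ≤ m := by
    have : 1 ≤ b * kk := Nat.mul_pos (by omega) (by omega)
    omega
  have hbm12 : 12 * b ≤ m := by
    have : 20 * b ≤ b * kk := by rw [Nat.mul_comm 20 b]; exact Nat.mul_le_mul_left _ hkk
    omega
  have hmz : (1 : ℤ) ≤ m := by exact_mod_cast hm1
  have hbz : (1 : ℤ) ≤ b := by exact_mod_cast hb
  have hbmz : 12 * (b : ℤ) ≤ m := by exact_mod_cast hbm12
  obtain ⟨w, hw⟩ : ∃ w : ℝ, w = 2 * c / 5 * (kk:ℝ) ^ (1/4 : ℝ) * (m : ℝ) ^ (7/4 : ℝ) := ⟨_, rfl⟩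
  obtain ⟨I, hI⟩ : ∃ I, I = kk / 10 := ⟨_, rfl⟩
  have hI1 : 10 * I ≤ kk := by omega
  have hH : HgtC m b I := by
    unfold HgtC
    calc 40 * b * I = 4 * (b * (10 * I)) := by ring
      _ ≤ 4 * (b * kk) := Nat.mul_le_mul_left _ (Nat.mul_le_mul_left _ hI1)
      _ ≤ 4 * m := Nat.mul_le_mul_left _ hbm
  have hs := hsl m b kk hb hbm hm hkk X Y
  rw [← hw, ← hI] at hs
  rw [← hw]
  -- fresh edges
  have fresh : ∀ e ∈ RB X Y m, e ∉ k := by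
    intro e he hek
    have h1 := hkE e hek (RB_Bl he)
    have h2 := (exm_loc hst h1).2.1
    have h3 : X ≤ e.1 := by
      obtain ⟨x, y, _ | _⟩ := e
      · rw [RB, mem_RE_false] at he; exact he.1
      · rw [RB, mem_RE_true] at he; exact he.1
    omega
  have hRB : RB X Y m ⊆ S \ k := by
    intro e he
    rw [mem_sdiff]
    exact ⟨hBl (RB_Bl he), fresh e he⟩
  have e1 : Pr (fun _ => (1/2:ℝ)) (S \ k) (NC X Y m b I w) =
      Pr (fun _ => (1/2:ℝ)) (RB X Y m) (NC X Y m b I w) := by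
    refine Pr_local hRB fun F _ => ⟨?_, ?_⟩
    · exact NC_mono (fun e he h => mem_inter.2 ⟨h, EC1_sub hb hbm12 hH he⟩)
        (fun e _ h => (mem_inter.1 h).1)
        (fun v hv e he h => mem_inter.2 ⟨h, Wc_PR hb hbm12 hH hv he⟩)
        (fun v _ e _ h => (mem_inter.1 h).1)
    · exact NC_mono (fun e _ h => (mem_inter.1 h).1)
        (fun e he h => mem_inter.2 ⟨h, EC2_sub hb hbm12 hH he⟩)
        (fun v _ e _ h => (mem_inter.1 h).1)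
        (fun v hv e he h => mem_inter.2 ⟨h, Wc_DR hb hbm12 hH hv he⟩)
  -- rows
  have g1 : ∀ e ∈ EC1 X Y m b I, dl e ∉ HL' X Y m m := by
    intro e he h'
    rw [mem_EC1] at he
    rcases he with ⟨i, hi, he⟩ | he
    · obtain ⟨h1, h2⟩ := yt_bd (Y := Y) hH hi
      obtain ⟨x, y, _ | _⟩ := e
      · rw [mem_LRE_false] at he
        simp only [HL', dl_f, Finset.mem_union, mem_RE_true] at h'
        omega
      · rw [mem_LRE_true] at he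
        simp only [HL', dl_t, Finset.mem_union, mem_RE_false] at h'
        omega
    · obtain ⟨x, y, _ | _⟩ := e
      · rw [mem_TBE_false] at he
        simp only [HL', dl_f, Finset.mem_union, mem_RE_true] at h'
        omega
      · rw [mem_TBE_true] at he
        simp only [HL', dl_t, Finset.mem_union, mem_RE_false] at h'
        omega
  have g2 : ∀ e ∈ EC2 X Y m b I, e ∉ HL X Y m m := by
    intro e he h'
    rw [mem_EC2] at he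
    rcases he with ⟨i, hi, he⟩ | he
    · obtain ⟨h1, h2⟩ := yt_bd (Y := Y) hH hi
      obtain ⟨x, y, _ | _⟩ := e
      · rw [dl_f, mem_LRE_true] at he
        simp only [HL, Finset.mem_union, mem_RE_false] at h'
        omega
      · rw [dl_t, mem_LRE_false] at he
        simp only [HL, Finset.mem_union, mem_RE_true] at h'
        omega
    · obtain ⟨x, y, _ | _⟩ := e
      · rw [dl_f, mem_TBE_true] at he
        simp only [HL, Finset.mem_union, mem_RE_false] at h'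
        omega
      · rw [dl_t, mem_TBE_false] at he
        simp only [HL, Finset.mem_union, mem_RE_true] at h'
        omega
  have g3 : ∀ v ∈ Wc X Y m b I, ∀ e ∈ PR v b, dl e ∉ HL' X Y m m := by
    intro v hv e he h'
    rw [mem_Wc] at hv
    obtain ⟨-, ⟨hv1, hv2⟩, i, hi, hr1, hr2⟩ := hv
    obtain ⟨h3, h4⟩ := yt_bd (Y := Y) hH hi
    obtain ⟨x, y, _ | _⟩ := e
    · simp only [PR, mem_RE_false] at he
      simp only [HL', dl_f, Finset.mem_union, mem_RE_true] at h'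
      omega
    · simp only [PR, mem_RE_true] at he
      simp only [HL', dl_t, Finset.mem_union, mem_RE_false] at h'
      omega
  have g4 : ∀ v ∈ Wc X Y m b I, ∀ e, dl e ∈ DR v b → e ∉ HL X Y m m := by
    intro v hv e he h'
    rw [mem_Wc] at hv
    obtain ⟨-, ⟨hv1, hv2⟩, i, hi, hr1, hr2⟩ := hv
    obtain ⟨h3, h4⟩ := yt_bd (Y := Y) hH hi
    obtain ⟨x, y, _ | _⟩ := e
    · simp only [DR, dl_f, mem_RE_true] at he
      simp only [HL, Finset.mem_union, mem_RE_false] at h'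
      omega
    · simp only [DR, dl_t, mem_RE_false] at he
      simp only [HL, Finset.mem_union, mem_RE_true] at h'
      omega
  have key := trialG (n := 1) (N := NC X Y m b I w) hm1 le_rfl (by omega) hF0 hk hst (by omega)
    hBl hent hEk hkE (by
      intro F G h1 h2
      refine NC_mono ?_ ?_ ?_ ?_
      · intro e he heF
        by_contra hcon
        exact g1 e he (h1 e heF hcon)
      · intro e he heG
        by_contra hcon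
        exact g2 e he (h2 e heG hcon)
      · intro v hv e he heF
        by_contra hcon
        exact g3 v hv e he (h1 e heF hcon)
      · intro v hv e he heG
        by_contra hcon
        exact g4 v hv e he (h2 e heG hcon))
  rw [e1] at key
  refine le_trans ?_ (key.trans (Pr_mono two_ok fun G hG => ?_))
  · have e2 : q0 ^ (2 * 1 + 4) * q0 ^ (2 * 1 + 4) = Real.exp (12 * Real.log q0) := by
      rw [← pow_add]
      have : 12 * Real.log q0 = ((2 * 1 + 4 + (2 * 1 + 4) : ℕ) : ℝ) * Real.log q0 := by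
        push_cast; ring
      rw [this, Real.exp_nat_mul, Real.exp_log q0_pos]
    rw [e2]
    refine le_trans ?_ (mul_le_mul_of_nonneg_left hs (Real.exp_pos _).le)
    rw [← Real.exp_add]
    refine Real.exp_le_exp.mpr ?_
    have hkR : (20 : ℝ) ≤ kk := by exact_mod_cast hkk
    have hZ1 : 1 ≤ (kk:ℝ) ^ 2 := by nlinarith
    nlinarith
  · rintro ⟨⟨hC, hZ⟩, hBL, hBU⟩
    unfold Qs
    have hFG : ∀ e ∈ RB X Y m, (e ∈ G ↔ e ∈ (↑((F0 ∩ k) ∪ G) : Set Edg)) := by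
      intro e he
      rw [Finset.mem_coe, mem_union, mem_inter]
      exact ⟨Or.inr, fun h => h.elim (fun h => absurd h.2 (fresh e he)) id⟩
    refine hZ.trans ?_
    have h5 : Zc X Y m b I G = (((Wc X Y m b I).filter (fun v => RA v b ↑G)).card : ℝ) := by
      unfold Zc ind
      rw [Finset.sum_boole]
    rw [h5]
    have h6 : ((Wc X Y m b I).filter (fun v => RA v b ↑G)) ⊆
        (Wv X Y m).filter (Seen A y0 X Y T m (↑((F0 ∩ k) ∪ G))) := by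
      intro v hv
      rw [mem_filter, mem_Wc] at hv
      rw [mem_filter]
      exact ⟨hv.1.1, seen_comb hb hbm12 hH hFG hBL hBU hC.1 hC.2 hv.1.2 hv.2⟩
    exact_mod_cast Finset.card_le_card h6

end Pool.Agent.Y995.FS
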