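import Pool.Agent.Y995.FS.LatG
import Pool.Agent.Y995.FS.SlowTr

/-!
Passage to the limit: open sets of curves with a bad piece; fast pieces.
-/

set_option autoImplicit false
set_option linter.unusedVariables false

namespace Pool.Agent.Y995.FS

open H974 Finset H342P H984P H984N MeasureTheory Filter Topology

theorem dep_cont (R : Rect) : Continuous (dep R) := by
  unfold dep
  exact ((Complex.continuous_re.add continuous_const).min
    (continuous_const.sub Complex.continuous_re)).min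
    (Complex.continuous_im.min (continuous_const.sub Complex.continuous_im))

theorem dep_lip (R : Rect) (z z' : ℂ) : dep R z ≤ dep R z' + dist z z' := by
  have h1 := abs_le.1 (ML.le_dist_re z z')
  have h2 := abs_le.1 (ML.le_dist_im z z')
  unfold dep
  have a1 := min_le_left (min (z.re + R.A) (R.B - z.re)) (min z.im (R.H - z.im))
  have a2 := min_le_right (min (z.re + R.A) (R.B - z.re)) (min z.im (R.H - z.im))
  have b1 := min_le_left (z.re + R.A) (R.B - z.re)
  have b2 := min_le_right (z.re + R.A) (R.B - z.re)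
  have b3 := min_le_left z.im (R.H - z.im)
  have b4 := min_le_right z.im (R.H - z.im)
  rw [← sub_le_iff_le_add]
  refine le_min (le_min ?_ ?_) (le_min ?_ ?_)
  · linarith
  · linarith
  · linarith
  · linarith

theorem pl_node {N : ℕ} {p : ℕ → ℂ} {k : ℕ} (hk : k ≤ N) {s : unitInterval}
    (h : (s : ℝ) * N = k) (hN : 0 < N) : pl N p s = p k := by
  rcases hk.lt_or_eq with h1 | h1
  · rw [pl_seg h1 h.ge (by rw [h]; linarith), h]
    simp
  · have hN' : (0 : ℝ) < N := by exact_mod_cast hN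
    rw [h1] at h
    have hs : s = 1 := by
      apply Subtype.ext
      have : (s : ℝ) * N = 1 * N := by rw [h, one_mul]
      exact mul_right_cancel₀ hN'.ne' this
    rw [hs, pl_one, h1]

/-- nodes of a piece -/
theorem nodes {N : ℕ} {p : ℕ → ℂ} {η : ℝ} (hη : 0 ≤ η)
    (h : ∀ k < N, dist (p k) (p (k + 1)) ≤ η) {s t : unitInterval} (hst : s < t)
    (hd : η < dist (pl N p s) (pl N p t)) :
    0 < N ∧ ∃ k l : ℕ, k ≤ l ∧ l ≤ N ∧ (s : ℝ) * N ≤ k ∧ (l : ℝ) ≤ t * N ∧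
      dist (pl N p s) (p k) ≤ η ∧ dist (pl N p t) (p l) ≤ η := by
  have hst' : (s : ℝ) < t := hst
  rcases Nat.eq_zero_or_pos N with rfl | hN
  · rw [pl_apply', pl_apply'] at hd
    simp only [Finset.range_zero, Finset.sum_empty, dist_self] at hd
    linarith
  have hN' : (0 : ℝ) < N := by exact_mod_cast hN
  have hs0 : 0 ≤ (s : ℝ) * N := mul_nonneg s.2.1 hN'.le
  have ht0 : 0 ≤ (t : ℝ) * N := mul_nonneg t.2.1 hN'.le
  refine ⟨hN, ⌈(s : ℝ) * N⌉₊, ⌊(t : ℝ) * N⌋₊, ?_, ?_, Nat.le_ceil _, Nat.floor_le ht0, ?_, ?_⟩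
  · by_contra hcon
    push Not at hcon
    obtain ⟨l, hl⟩ : ∃ l, l = ⌊(t : ℝ) * N⌋₊ := ⟨_, rfl⟩
    rw [← hl] at hcon
    have h1 : (l : ℝ) < (s : ℝ) * N := by
      have := Nat.lt_ceil.1 hcon
      exact this
    have h2 : (t : ℝ) * N < l + 1 := by rw [hl]; exact Nat.lt_floor_add_one _
    have h3 : (s : ℝ) * N < t * N := mul_lt_mul_of_pos_right hst' hN'
    have hlN : l < N := by
      have h4 : (s : ℝ) * N ≤ 1 * N := mul_le_mul_of_nonneg_right s.2.2 hN'.le
      have : (l : ℝ) < N := by linarith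
      exact_mod_cast this
    rw [pl_seg hlN h1.le (by linarith), pl_seg hlN (by linarith) h2.le, dist_eq_norm] at hd
    have e : p l + (((s : ℝ) * N - l : ℝ) : ℂ) * (p (l + 1) - p l) -
        (p l + (((t : ℝ) * N - l : ℝ) : ℂ) * (p (l + 1) - p l)) =
        (((t : ℝ) * N - s * N : ℝ) : ℂ) * (p l - p (l + 1)) := by push_cast; ring
    rw [e, norm_mul, Complex.norm_real, Real.norm_eq_abs, abs_of_nonneg (by linarith),
      ← dist_eq_norm] at hd
    have h5 := h l hlN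
    have h6 : ((t : ℝ) * N - s * N) * dist (p l) (p (l + 1)) ≤ 1 * η :=
      mul_le_mul (by linarith) h5 dist_nonneg (by norm_num)
    linarith
  · have h4 : (t : ℝ) * N ≤ 1 * N := mul_le_mul_of_nonneg_right t.2.2 hN'.le
    rw [one_mul] at h4
    exact Nat.floor_le_of_le h4
  · obtain ⟨k, hk, h1, h2⟩ := pl_exists_seg hN s
    rcases h1.lt_or_eq with h3 | h3
    · have hc : ⌈(s : ℝ) * N⌉₊ = k + 1 := by
        rw [Nat.ceil_eq_iff (by omega)]
        push_cast
        constructor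
        · simpa using h3
        · exact h2
      rw [hc, pl_seg hk h1 h2, dist_eq_norm]
      have e : p k + (((s : ℝ) * N - k : ℝ) : ℂ) * (p (k + 1) - p k) - p (k + 1) =
          (((k : ℝ) + 1 - (s : ℝ) * N : ℝ) : ℂ) * (p k - p (k + 1)) := by push_cast; ring
      rw [e, norm_mul, Complex.norm_real, Real.norm_eq_abs, abs_of_nonneg (by linarith),
        ← dist_eq_norm]
      have h6 : ((k : ℝ) + 1 - s * N) * dist (p k) (p (k + 1)) ≤ 1 * η :=
        mul_le_mul (by linarith) (h k hk) dist_nonneg (by norm_num)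
      linarith
    · have hc : ⌈(s : ℝ) * N⌉₊ = k := by rw [← h3]; exact Nat.ceil_natCast k
      rw [hc, pl_node hk.le h3.symm hN, dist_self]
      exact hη
  · obtain ⟨k, hk, h1, h2⟩ := pl_exists_seg hN t
    rcases h2.lt_or_eq with h3 | h3
    · have hc : ⌊(t : ℝ) * N⌋₊ = k := by
        rw [Nat.floor_eq_iff ht0]
        exact ⟨h1, h3⟩
      rw [hc, pl_seg hk h1 h2, dist_eq_norm]
      have e : p k + (((t : ℝ) * N - k : ℝ) : ℂ) * (p (k + 1) - p k) - p k =
          (((t : ℝ) * N - k : ℝ) : ℂ) * (p (k + 1) - p k) := by ring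
      rw [e, norm_mul, Complex.norm_real, Real.norm_eq_abs, abs_of_nonneg (by linarith),
        ← dist_eq_norm, dist_comm]
      have h6 : ((t : ℝ) * N - k) * dist (p k) (p (k + 1)) ≤ 1 * η :=
        mul_le_mul (by linarith) (h k hk) dist_nonneg (by norm_num)
      linarith
    · have hc : ⌊(t : ℝ) * N⌋₊ = k + 1 := by
        have : (t : ℝ) * N = ((k + 1 : ℕ) : ℝ) := by rw [h3]; push_cast; ring
        rw [this]; exact Nat.floor_natCast _
      have h4 : (t : ℝ) * N = ((k + 1 : ℕ) : ℝ) := by rw [h3]; push_cast; ring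
      rw [hc, pl_node (by omega) h4 hN, dist_self]
      exact hη

/-- a time at a node -/
noncomputable def nodeT (N k : ℕ) (hk : k ≤ N) : unitInterval :=
  ⟨(k : ℝ) / N, div_nonneg (Nat.cast_nonneg _) (Nat.cast_nonneg _), by
    rcases Nat.eq_zero_or_pos N with h | h
    · rw [h]; simp
    · rw [div_le_one (by exact_mod_cast h)]
      exact_mod_cast hk⟩

theorem pl_nodeT {N : ℕ} {p : ℕ → ℂ} {k : ℕ} (hk : k ≤ N) (hN : 0 < N) :
    pl N p (nodeT N k hk) = p k := by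
  have hN' : (0 : ℝ) < N := by exact_mod_cast hN
  refine pl_node hk ?_ hN
  show (k : ℝ) / N * N = k
  field_simp

/-- Curves with a piece in the bulk which is not fast. -/
def BadF (R : Rect) (ρ w τ : ℝ) : Set X :=
  {p | ∃ s t : unitInterval, s < t ∧ 5 * ρ < dep R (p.1 s) ∧ ρ < dist (p.1 s) (p.1 t) ∧
    ∀ u v : unitInterval, s ≤ u → u ≤ v → v ≤ t →
      dist (p.1 u) (p.1 v) < w ∨ τ < ((v : ℝ) - u) * p.2}

theorem badF_open (R : Rect) (ρ w τ : ℝ) : IsOpen (BadF R ρ w τ) := by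
  have e : BadF R ρ w τ = ⋃ s : unitInterval, ⋃ t : unitInterval, ⋃ _ : s < t,
      (({p : X | 5 * ρ < dep R (p.1 s)} ∩ {p : X | ρ < dist (p.1 s) (p.1 t)}) ∩
        (Prod.fst '' {x : X × (unitInterval × unitInterval) | (s ≤ x.2.1 ∧ x.2.1 ≤ x.2.2 ∧
          x.2.2 ≤ t) ∧ w ≤ dist (x.1.1 x.2.1) (x.1.1 x.2.2) ∧
            ((x.2.2 : ℝ) - x.2.1) * x.1.2 ≤ τ})ᶜ) := by
    ext p
    simp only [BadF, Set.mem_ofPred_eq, Set.mem_iUnion, Set.mem_inter_iff, Set.mem_compl_iff,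
      Set.mem_image, exists_prop]
    constructor
    · rintro ⟨s, t, h1, h2, h3, h4⟩
      refine ⟨s, t, h1, ⟨h2, h3⟩, ?_⟩
      rintro ⟨⟨p', u, v⟩, ⟨⟨a1, a2, a3⟩, a4, a5⟩, rfl⟩
      rcases h4 u v a1 a2 a3 with h | h
      · exact absurd a4 (not_le.2 h)
      · exact absurd a5 (not_le.2 h)
    · rintro ⟨s, t, h1, ⟨h2, h3⟩, h4⟩
      refine ⟨s, t, h1, h2, h3, fun u v hu huv hv => ?_⟩
      by_contra hcon
      push Not at hcon
      exact h4 ⟨(p, u, v), ⟨⟨hu, huv, hv⟩, hcon.1, hcon.2⟩, rfl⟩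
  rw [e]
  refine isOpen_iUnion fun s => isOpen_iUnion fun t => isOpen_iUnion fun _ => ?_
  refine IsOpen.inter (IsOpen.inter ?_ ?_) ?_
  · have c0 : Continuous (fun p : X => p.1 s) := by fun_prop
    exact isOpen_lt continuous_const ((dep_cont R).comp c0)
  · have c0 : Continuous (fun p : X => p.1 s) := by fun_prop
    have c1 : Continuous (fun p : X => p.1 t) := by fun_prop
    exact isOpen_lt continuous_const (c0.dist c1)
  · rw [isOpen_compl_iff]
    refine isClosedMap_fst_of_compactSpace _ ?_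
    have c0 : Continuous (fun x : X × (unitInterval × unitInterval) => x.1.1 x.2.1) := by
      fun_prop
    have c1 : Continuous (fun x : X × (unitInterval × unitInterval) => x.1.1 x.2.2) := by
      fun_prop
    have u1 : Continuous (fun x : X × (unitInterval × unitInterval) => (x.2.1 : ℝ)) := by
      fun_prop
    have u2 : Continuous (fun x : X × (unitInterval × unitInterval) => (x.2.2 : ℝ)) := by
      fun_prop
    have u3 : Continuous (fun x : X × (unitInterval × unitInterval) =>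
        ((x.2.2 : ℝ) - x.2.1) * x.1.2) := by fun_prop
    refine IsClosed.inter ?_ (IsClosed.inter (isClosed_le continuous_const (c0.dist c1))
      (isClosed_le u3 continuous_const))
    exact IsClosed.inter (isClosed_le continuous_const u1)
        (IsClosed.inter (isClosed_le u1 u2) (isClosed_le u2 continuous_const))

/-- Bad curves at mesh `δ` come from bad pieces of the path. -/
theorem badF_mesh {R : Rect} {δ ρ w τ N : ℝ} {m : ℕ} (hδ : 0 < δ) (hρ : δ ≤ ρ)
    (hw : w ≤ δ * (20 * m - 1/2)) (hN : N * δ ^ (7/4 : ℝ) ≤ τ) {F : Finset Edg}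
    (h : (R.curve δ F, R.time δ F) ∈ BadF R ρ w τ) : GBad (gF (20 * m) N) R δ ρ F := by
  obtain ⟨s, t, hst, h1, h2, h3⟩ := h
  obtain ⟨n, hn⟩ : ∃ n, n = (R.dm δ).len F := ⟨_, rfl⟩
  obtain ⟨p, hp⟩ : ∃ p : ℕ → ℂ, p = fun k => pos δ ((R.dm δ).walk F k) := ⟨_, rfl⟩
  have hc : R.curve δ F = pl n p := by unfold Rect.curve; rw [hn, hp]
  simp only [hc] at h1 h2 h3
  have hstep : ∀ k < n, dist (p k) (p (k + 1)) ≤ δ / 2 := fun k _ => by
    have := pos_nxt hδ.le ((R.dm δ).cfg F) ((R.dm δ).walk F k)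
    rw [hp]
    rwa [← walk_succ] at this
  obtain ⟨hn0, k, l, hkl, hl, hsk, hlt, d1, d2⟩ := nodes (by positivity) hstep hst
    (by linarith)
  have hn' : (0 : ℝ) < n := by exact_mod_cast hn0
  refine ⟨k, l, hkl, by rw [← hn]; exact hl, ?_, ?_, ?_⟩
  · have h4 := dep_lip R (pl n p s) (p k)
    have h5 : p k = pos δ ((R.dm δ).walk F k) := by rw [hp]
    rw [← h5]
    linarith
  · have h4 : dist (pl n p s) (pl n p t) ≤ dist (pl n p s) (p k) + dist (p k) (p l) +
        dist (p l) (pl n p t) := dist_triangle4 _ _ _ _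
    rw [dist_comm (p l)] at h4
    have h5 : p k = pos δ ((R.dm δ).walk F k) := by rw [hp]
    have h6 : p l = pos δ ((R.dm δ).walk F l) := by rw [hp]
    rw [← h5, ← h6]
    linarith
  · rintro ⟨i, j, hij, hj, h4, h5⟩
    have hki : k + i ≤ n := by omega
    have hkj : k + j ≤ n := by omega
    have e1 : ((nodeT n (k + i) hki : unitInterval) : ℝ) = ((k + i : ℕ) : ℝ) / n := rfl
    have e2 : ((nodeT n (k + j) hkj : unitInterval) : ℝ) = ((k + j : ℕ) : ℝ) / n := rfl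
    have b1 : s ≤ nodeT n (k + i) hki := by
      change (s : ℝ) ≤ _
      rw [e1, le_div_iff₀ hn']
      push_cast
      have : (0 : ℝ) ≤ i := Nat.cast_nonneg i
      linarith
    have b2 : nodeT n (k + i) hki ≤ nodeT n (k + j) hkj := by
      change (_ : ℝ) ≤ _
      rw [e1, e2]
      refine div_le_div_of_nonneg_right ?_ hn'.le
      have : k + i ≤ k + j := by omega
      exact_mod_cast this
    have b3 : nodeT n (k + j) hkj ≤ t := by
      change (_ : ℝ) ≤ (t : ℝ)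
      rw [e2, div_le_iff₀ hn']
      refine le_trans ?_ hlt
      have : k + j ≤ l := by omega
      exact_mod_cast this
    rcases h3 _ _ b1 b2 b3 with h6 | h6
    · rw [pl_nodeT hki hn0, pl_nodeT hkj hn0] at h6
      have h7 := le_dist_pos hδ.le ((R.dm δ).walk F (k + i)) ((R.dm δ).walk F (k + j))
      rw [hp] at h6
      simp only at h6
      have h8 : ((20 * m : ℤ) : ℝ) ≤
          ((sd ((R.dm δ).walk F (k + i)).1 ((R.dm δ).walk F (k + j)).1 : ℤ) : ℝ) := by
        exact_mod_cast h4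
      push_cast at h8
      have h9 : δ * (20 * m - 1/2) ≤ δ * (((sd ((R.dm δ).walk F (k + i)).1
        ((R.dm δ).walk F (k + j)).1 : ℤ) : ℝ) - 1/2) :=
        mul_le_mul_of_nonneg_left (by linarith) hδ.le
      linarith
    · rw [e1, e2] at h6
      have h7 : (((k + j : ℕ) : ℝ) / n - ((k + i : ℕ) : ℝ) / n) * R.time δ F =
          ((j - i : ℕ) : ℝ) * δ ^ (7/4 : ℝ) := by
        unfold Rect.time
        rw [← hn, Nat.cast_sub hij]
        push_cast
        field_simp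
        ring
      rw [h7] at h6
      have h8 : ((j - i : ℕ) : ℝ) * δ ^ (7/4 : ℝ) ≤ N * δ ^ (7/4 : ℝ) :=
        mul_le_mul_of_nonneg_right h5 (Real.rpow_nonneg hδ.le _)
      linarith

/-- The fast pieces exist at mesh `δ`. -/
theorem fast_lat {c C : ℝ} (hc : 0 < c) (hC : 0 < C) (hL : LowA c (1/4)) (hU : TwoUp C (1/4))
    (R : Rect) : ∃ θ K2 : ℝ, 0 < θ ∧ 1 ≤ K2 ∧ ∀ ρ : ℝ, 0 < ρ → ∃ C1 : ℝ, 0 < C1 ∧
      ∀ j : ℕ, 1 ≤ j → 1000 * Real.exp (-2 * (K2 * j)) ≤ ρ → ∃ δ1 : ℝ, 0 < δ1 ∧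
        ∀ δ : ℝ, 0 < δ → δ ≤ δ1 →
          R.prob δ (fun F => (R.curve δ F, R.time δ F) ∈ BadF R ρ (Real.exp (-2 * (K2 * j)))
            (θ * ((j : ℝ) ^ (-(3/4) : ℝ) * (Real.exp (-2 * (K2 * j))) ^ (7/4 : ℝ)))) ≤
            C1 * Real.exp (-2 * (K2 * j)) := by
  obtain ⟨θ, K2, hθ, hK2, htr⟩ := fast_tr hc hC hL hU
  obtain ⟨δ0, hδ0, hlat⟩ := lat_bound R
  refine ⟨θ, K2, hθ, hK2, fun ρ hρ => ?_⟩
  obtain ⟨C1, hC1, h1⟩ := hlat ρ hρ
  refine ⟨C1, hC1, fun j hj hjρ => ?_⟩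
  obtain ⟨w, hw⟩ : ∃ w : ℝ, w = Real.exp (-2 * (K2 * j)) := ⟨_, rfl⟩
  have hw0 : 0 < w := by rw [hw]; exact Real.exp_pos _
  have hjR : (1 : ℝ) ≤ j := by exact_mod_cast hj
  have hj0 : (0 : ℝ) < j := by linarith
  refine ⟨min δ0 (w / (100 * j)), lt_min hδ0 (by positivity), fun δ hδ hδ' => ?_⟩
  have hδ1 : δ ≤ δ0 := hδ'.trans (min_le_left _ _)
  have hδ2 : δ ≤ w / (100 * j) := hδ'.trans (min_le_right _ _)
  have hδ3 : 100 * j * δ ≤ w := by
    rw [le_div_iff₀ (by positivity)] at hδ2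
    linarith
  have hδ4 : 100 * δ ≤ w := by nlinarith
  obtain ⟨m, hm⟩ : ∃ m : ℕ, m = ⌈w / (10 * δ)⌉₊ := ⟨_, rfl⟩
  have hm1 : w / (10 * δ) ≤ m := by rw [hm]; exact Nat.le_ceil _
  have hm2 : (m : ℝ) < w / (10 * δ) + 1 := by
    rw [hm]; exact Nat.ceil_lt_add_one (by positivity)
  rw [div_le_iff₀ (by positivity)] at hm1
  have hm3 : m * (10 * δ) ≤ w + 10 * δ := by
    have h := mul_lt_mul_of_pos_right hm2 (show 0 < 10 * δ by positivity)
    rw [add_mul, div_mul_cancel₀ _ (by positivity)] at h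
    linarith
  have hm4 : (j : ℝ) ≤ m := by
    have : (j : ℝ) * (10 * δ) ≤ m * (10 * δ) := by linarith
    exact le_of_mul_le_mul_right this (by positivity)
  have hm5 : (5 : ℝ) ≤ m := by
    have : (5 : ℝ) * (10 * δ) ≤ m * (10 * δ) := by linarith
    exact le_of_mul_le_mul_right this (by positivity)
  have hm5' : 5 ≤ m := by exact_mod_cast hm5
  have hjm : j ≤ m := by exact_mod_cast hm4
  have hm0 : (0 : ℝ) < m := by linarith
  obtain ⟨a, ha⟩ : ∃ a : ℕ, a = (m + j - 1) / j := ⟨_, rfl⟩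
  have ha1 : 1 ≤ a := by
    rw [ha, Nat.one_le_div_iff (by omega)]
    omega
  have hmaj : m ≤ a * j := by
    have h2 := Nat.lt_div_mul_add (a := m + j - 1) (b := j) (by omega)
    rw [← ha] at h2
    omega
  have haj : a * j ≤ m + j - 1 := by rw [ha]; exact Nat.div_mul_le_self _ _
  have ham : a ≤ m := by
    by_contra hcon
    push Not at hcon
    have h2 : (m + 1) * j ≤ a * j := Nat.mul_le_mul_right _ hcon
    have h3 : (m + 1) * j = m * j + j := by ring
    have h4 : m * 1 ≤ m * j := Nat.mul_le_mul_left _ hj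
    omega
  have ha2 : (a : ℝ) * j ≤ 2 * m := by
    have : a * j ≤ 2 * m := by omega
    exact_mod_cast this
  have ha0 : (0 : ℝ) < a := by exact_mod_cast ha1
  obtain ⟨N, hN⟩ : ∃ N : ℝ, N = θ * j * (a : ℝ) ^ (7/4 : ℝ) := ⟨_, rfl⟩
  have hb := h1 (K2 * j) (by positivity) hjρ δ hδ hδ1 (by rw [← hw]; linarith) m hm5'
    (by rw [← hw]; nlinarith) (by rw [← hw]; nlinarith) (Qf a m j N) (gF (20 * m) N)
    (gF_good _ _) (Qf_loc ha1 ham) (fun K => Qf_det ha1 ham hmaj)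
    (fun n b c A y0 => by rw [hN]; exact htr a m j ha1 ham hmaj hj _ A y0)
  rw [← hw] at hb ⊢
  refine le_trans (Pr_mono (okq (by norm_num) (by norm_num)) (fun F _ hF => ?_)) hb
  refine badF_mesh hδ (by linarith) ?_ ?_ hF
  · nlinarith
  · rw [hN]
    have h2 : (a : ℝ) * δ ≤ w / j := by
      rw [le_div_iff₀ hj0]
      nlinarith
    have h3 : ((a : ℝ) * δ) ^ (7/4 : ℝ) ≤ (w / j) ^ (7/4 : ℝ) :=
      Real.rpow_le_rpow (by positivity) h2 (by norm_num)
    rw [Real.mul_rpow ha0.le hδ.le, Real.div_rpow hw0.le hj0.le] at h3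
    have h4 : (j : ℝ) * (w ^ (7/4 : ℝ) / (j : ℝ) ^ (7/4 : ℝ)) =
        (j : ℝ) ^ (-(3/4) : ℝ) * w ^ (7/4 : ℝ) := by
      have e : (j : ℝ) ^ (7/4 : ℝ) = (j : ℝ) * (j : ℝ) ^ (3/4 : ℝ) := by
        rw [show (7/4 : ℝ) = 1 + 3/4 by norm_num, Real.rpow_add hj0, Real.rpow_one]
      rw [e, Real.rpow_neg hj0.le]
      have := Real.rpow_pos_of_pos hj0 (3/4 : ℝ)
      field_simp
    calc θ * j * (a : ℝ) ^ (7/4 : ℝ) * δ ^ (7/4 : ℝ)
        = θ * (j * ((a : ℝ) ^ (7/4 : ℝ) * δ ^ (7/4 : ℝ))) := by ring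
      _ ≤ θ * (j * (w ^ (7/4 : ℝ) / (j : ℝ) ^ (7/4 : ℝ))) :=
          mul_le_mul_of_nonneg_left (mul_le_mul_of_nonneg_left h3 hj0.le) hθ.le
      _ = _ := by rw [h4]

end Pool.Agent.Y995.FS
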