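import Pool.Agent.Y995.FS.Cnt

/-!
The fast trial: definition, locality, probability.
-/

set_option autoImplicit false

namespace Pool.Agent.Y995.FS

open H974 Finset H342P H984P H984N TH992.T

/-- The fast trial. -/
def Qf (a m kk : ℕ) (N : ℝ) : TEv := fun A y0 X Y T F =>
  (BaseL A y0 X Y T a m F ∧ BaseU A y0 X Y T a m F) ∧
    ((∃ v ∈ ctr (X + 32 * m, Y) a, RA v a F) ∧ Cn X Y a m kk F ≤ N)

/-- A fast piece: extent at least `w` in at most `N` steps. -/
def gF (w : ℤ) (N : ℝ) (x : ℕ → Vtx) (t : ℕ) : Prop :=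
  ∃ i j, i ≤ j ∧ j ≤ t ∧ w ≤ sd (x i) (x j) ∧ ((j - i : ℕ) : ℝ) ≤ N

theorem sd_rV (u v : Vtx) : sd (rV u) (rV v) = sd u v := by
  rw [det_sd_eq, det_sd_eq]
  simp only [rV, Equiv.coe_fn_mk]
  omega

theorem sd_trl (u v : Vtx) (b c : ℤ) : sd (u.1 + b, u.2 + c) (v.1 + b, v.2 + c) = sd u v := by
  rw [det_sd_eq, det_sd_eq]
  simp only
  omega

theorem gF_good (w : ℤ) (N : ℝ) : PGood (gF w N) where
  congr x x' t h := by
    rintro ⟨i, j, h1, h2, h3, h4⟩
    refine ⟨i, j, h1, h2, ?_, h4⟩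
    rw [← h i (by omega), ← h j h2]
    exact h3
  mono x s0 t' t h := by
    rintro ⟨i, j, h1, h2, h3, h4⟩
    refine ⟨i + s0, j + s0, by omega, by omega, h3, ?_⟩
    rw [Nat.add_sub_add_right]
    exact h4
  rot x t := by
    rintro ⟨i, j, h1, h2, h3, h4⟩
    rw [sd_rV] at h3
    exact ⟨i, j, h1, h2, h3, h4⟩
  trl x t b c := by
    rintro ⟨i, j, h1, h2, h3, h4⟩
    rw [sd_trl] at h3
    exact ⟨i, j, h1, h2, h3, h4⟩

theorem baseL_congr {A y0 X Y : ℤ} {T a m : ℕ} {F G : Set Edg} (ha : 1 ≤ a) (ham : a ≤ m)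
    (h1 : ∀ e ∈ Exm F (st0 A y0) T, (e ∈ F ↔ e ∈ G)) (h2 : ∀ e ∈ Bl X Y m, (e ∈ F ↔ e ∈ G))
    (h : BaseL A y0 X Y T a m F) : BaseL A y0 X Y T a m G := by
  have hL : {v | ∃ s ≤ T, (orb G (st0 A y0) s).1 = v} =
      {v | ∃ s ≤ T, (orb F (st0 A y0) s).1 = v} := by
    ext v
    constructor
    · rintro ⟨s, hs, h⟩
      exact ⟨s, hs, by rw [← orb_congr h1 hs]; exact h⟩
    · rintro ⟨s, hs, h⟩
      exact ⟨s, hs, by rw [orb_congr h1 hs]; exact h⟩
  unfold BaseL at h ⊢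
  rw [hL]
  refine LEm_mono ?_ ?_ h
  · intro e he heF
    exact (h2 e (HL_sub ha ham (LSm_sub he))).1 heF
  · intro e he heF
    exact ⟨(h2 e (Finset.mem_coe.1 he)).1 heF, he⟩

theorem baseU_congr {A y0 X Y : ℤ} {T a m : ℕ} {F G : Set Edg} (ha : 1 ≤ a) (ham : a ≤ m)
    (h1 : ∀ e ∈ Exm F (st0 A y0) T, (e ∈ F ↔ e ∈ G)) (h2 : ∀ e ∈ Bl X Y m, (e ∈ F ↔ e ∈ G))
    (h : BaseU A y0 X Y T a m F) : BaseU A y0 X Y T a m G := by
  have hL : {v | ∃ s ≤ T, face (orb G (st0 A y0) s) = v} =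
      {v | ∃ s ≤ T, face (orb F (st0 A y0) s) = v} := by
    ext v
    constructor
    · rintro ⟨s, hs, h⟩
      exact ⟨s, hs, by rw [← orb_congr h1 hs]; exact h⟩
    · rintro ⟨s, hs, h⟩
      exact ⟨s, hs, by rw [orb_congr h1 hs]; exact h⟩
  unfold BaseU at h ⊢
  rw [hL]
  refine UEm_mono ?_ ?_ (subset_refl _) h
  · intro e he heG
    exact (h2 e (dHL_sub ha ham (USm_sub he))).2 heG
  · intro e he heG
    exact (h2 e (Finset.mem_coe.1 he)).2 heG

theorem ctr_b {X Y : ℤ} {a m : ℕ} {v : Vtx} (h : v ∈ ctr (X + 32 * m, Y) a) :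
    (X + 32 * m - a ≤ v.1 ∧ v.1 ≤ X + 32 * m + a) ∧ (Y - a ≤ v.2 ∧ v.2 ≤ Y + a) := by
  simp only [ctr, Finset.mem_product, Finset.mem_Icc] at h
  omega

theorem PR_Bl {X Y : ℤ} {a m : ℕ} (ham : a ≤ m) {v : Vtx} (h : v ∈ ctr (X + 32 * m, Y) a) :
    PR v a ⊆ Bl X Y m := by
  have ham' : (a : ℤ) ≤ m := by exact_mod_cast ham
  have hv := ctr_b h
  unfold PR Bl
  exact RE_sub_RE (by omega) (by omega) (by omega) (by omega)

theorem DR_Bl {X Y : ℤ} {a m : ℕ} (ha : 1 ≤ a) (ham : a ≤ m) {v : Vtx}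
    (h : v ∈ ctr (X + 32 * m, Y) a) {e : Edg} (he : dl e ∈ DR v a) : e ∈ Bl X Y m := by
  have ha' : (1 : ℤ) ≤ a := by exact_mod_cast ha
  have ham' : (a : ℤ) ≤ m := by exact_mod_cast ham
  have hv := ctr_b h
  obtain ⟨x, y, _ | _⟩ := e
  · simp only [DR, dl_f, mem_RE_true] at he
    simp only [Bl, mem_RE_false]
    omega
  · simp only [DR, dl_t, mem_RE_false] at he
    simp only [Bl, mem_RE_true]
    omega

theorem PR_HL {X Y : ℤ} {a m : ℕ} (ha : 1 ≤ a) (ham : a ≤ m) {v : Vtx}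
    (h : v ∈ ctr (X + 32 * m, Y) a)
    {e : Edg} (he : e ∈ PR v a) (h' : dl e ∈ HL' X Y a m) : False := by
  have ha' : (1 : ℤ) ≤ a := by exact_mod_cast ha
  have ham' : (a : ℤ) ≤ m := by exact_mod_cast ham
  have hv := ctr_b h
  obtain ⟨x, y, _ | _⟩ := e
  · simp only [PR, mem_RE_false] at he
    simp only [HL', dl_f, Finset.mem_union, mem_RE_true] at h'
    omega
  · simp only [PR, mem_RE_true] at he
    simp only [HL', dl_t, Finset.mem_union, mem_RE_false] at h'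
    omega

theorem DR_HL {X Y : ℤ} {a m : ℕ} (ha : 1 ≤ a) (ham : a ≤ m) {v : Vtx}
    (h : v ∈ ctr (X + 32 * m, Y) a)
    {e : Edg} (he : dl e ∈ DR v a) (h' : e ∈ HL X Y a m) : False := by
  have ha' : (1 : ℤ) ≤ a := by exact_mod_cast ha
  have ham' : (a : ℤ) ≤ m := by exact_mod_cast ham
  have hv := ctr_b h
  obtain ⟨x, y, _ | _⟩ := e
  · simp only [DR, dl_f, mem_RE_true] at he
    simp only [HL, Finset.mem_union, mem_RE_false] at h'
    omega
  · simp only [DR, dl_t, mem_RE_false] at he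
    simp only [HL, Finset.mem_union, mem_RE_true] at h'
    omega

theorem RA_mono' {v : Vtx} {a : ℕ} {F G : Set Edg}
    (h1 : ∀ e ∈ PR v a, e ∈ F → e ∈ G) (h2 : ∀ e, dl e ∈ DR v a → e ∈ G → e ∈ F)
    (h : RA v a F) : RA v a G := by
  obtain ⟨⟨w, hw, hr⟩, g, hg, hd⟩ := h
  refine ⟨⟨w, hw, hr.mono ?_⟩, g, hg, hd.mono ?_⟩
  · rintro e ⟨he, he'⟩
    exact ⟨h1 e he' he, he'⟩
  · rintro e ⟨he, he'⟩
    exact ⟨he, fun h => he' (h2 e he h)⟩

theorem RB_Bl {X Y : ℤ} {m : ℕ} : RB X Y m ⊆ Bl X Y m := by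
  unfold RB Bl
  exact RE_sub_RE (by omega) le_rfl le_rfl le_rfl

theorem Qf_loc {a m kk : ℕ} {N : ℝ} (ha : 1 ≤ a) (ham : a ≤ m) : LocQ m (Qf a m kk N) := by
  rintro A y0 X Y T F G h1 h2 ⟨⟨hL, hU⟩, ⟨v, hv, hR⟩, hC⟩
  refine ⟨⟨baseL_congr ha ham h1 h2 hL, baseU_congr ha ham h1 h2 hU⟩, ⟨v, hv, ?_⟩, ?_⟩
  · refine RA_mono' ?_ ?_ hR
    · intro e he heF
      exact (h2 e (PR_Bl ham hv he)).1 heF
    · intro e he heG
      exact (h2 e (DR_Bl ha ham hv he)).2 heG
  · rw [← cn_congr (F := F) (G := G) (fun e he => h2 e (RB_Bl he))]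
    exact hC

theorem Qf_det {a m kk K : ℕ} {N : ℝ} (ha : 1 ≤ a) (ham : a ≤ m) (hmk : m ≤ a * kk) :
    DetQ (Qf a m kk N) m K (gF (20 * m) N) := by
  rintro F A y0 Y T j Yj Tj hst hj hjK hstj hTj ⟨⟨hL, hU⟩, hR, hC⟩
  have hm1 : (1 : ℤ) ≤ m := by exact_mod_cast ha.trans ham
  have hj' : (1 : ℤ) ≤ j := by exact_mod_cast hj
  have hjK' : (j : ℤ) + 1 ≤ K := by exact_mod_cast hjK
  have e1 : 121 * (m : ℤ) ≤ 121 * m * j := by nlinarith
  have e2 : 121 * (m : ℤ) * j + 121 * m ≤ 121 * m * K := by nlinarith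
  obtain ⟨i, j', h1, h2, h3, h4⟩ := fast_det ha ham hmk hst hTj (by omega) (by omega) hL hU hR
  exact ⟨i, j', h1, h2, h3, h4.trans hC⟩

/-- The probability of the fast trial. -/
theorem fast_tr {c C : ℝ} (hc : 0 < c) (hC : 0 < C) (hL : LowA c (1/4)) (hU : TwoUp C (1/4)) :
    ∃ θ K2 : ℝ, 0 < θ ∧ 1 ≤ K2 ∧ ∀ a m kk : ℕ, 1 ≤ a → a ≤ m → m ≤ a * kk → 1 ≤ kk →
      ∀ (S : Finset Edg) (A y0 : ℤ),
        TrQ S A y0 m (Qf a m kk (θ * kk * (a : ℝ) ^ (7/4 : ℝ))) (Real.exp (-(K2 * kk))) := by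
  classical
  obtain ⟨M, hM1, hM⟩ := mom_xw hC hU
  have hM0 : 0 < M := by linarith
  obtain ⟨c3, hc3, hra⟩ := nra_prob (c := c) (C := C) (s := 1/4) (t := 1/4) hc hC (by norm_num)
    (by norm_num) (by norm_num) le_rfl hL hU
  have hlM : 0 ≤ Real.log M := Real.log_nonneg hM1
  have hlq : Real.log q0 ≤ 0 := Real.log_nonpos q0_pos.le q0_le
  -- constants
  obtain ⟨L3, hL3⟩ : ∃ L3 : ℝ, L3 = |Real.log c3| := ⟨_, rfl⟩
  have hL30 : 0 ≤ L3 := by rw [hL3]; exact abs_nonneg _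
  have hL3' : Real.exp (-L3) ≤ c3 := by
    rw [← Real.exp_log hc3]
    refine Real.exp_le_exp.mpr ?_
    rw [hL3]
    exact neg_abs_le _
  obtain ⟨θ0, hθ0⟩ : ∃ θ0 : ℝ, θ0 = 952 * Real.log M - 16 * Real.log q0 + L3 + 3 := ⟨_, rfl⟩
  refine ⟨18 * θ0, -16 * Real.log q0 + L3 + 1, by linarith, by linarith, ?_⟩
  intro a m kk ha ham hmk hkk S A y0 k F0 X Y T hF0 hk hst hA hBl hent hEk hkE
  have ha0 : (0 : ℝ) < a := by exact_mod_cast ha
  have hm1 : 1 ≤ m := ha.trans ham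
  have hamz : (a : ℤ) ≤ m := by exact_mod_cast ham
  have hkk1 : (1 : ℝ) ≤ kk := by exact_mod_cast hkk
  -- the base event with the arms
  have key := trialG (n := 2 * kk) (N := fun G => ∃ v ∈ ctr (X + 32 * m, Y) a, RA v a ↑G)
    ha ham (by nlinarith) hF0 hk hst (by omega) hBl hent hEk hkE (by
      rintro F G h1 h2 ⟨v, hv, hR⟩
      refine ⟨v, hv, RA_mono' ?_ ?_ hR⟩
      · intro e he heF
        by_contra hcon
        exact PR_HL ha ham hv he (h1 e (Finset.mem_coe.1 heF)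
          (fun h => hcon (Finset.mem_coe.2 h)))
      · intro e he heG
        by_contra hcon
        exact DR_HL ha ham hv he (h2 e (Finset.mem_coe.1 heG)
          (fun h => hcon (Finset.mem_coe.2 h))))
  -- fresh edges
  have fresh : ∀ e ∈ RB X Y m, e ∉ k := by
    intro e he hek
    have h1 := hkE e hek (RB_Bl he)
    have h2 := (exm_loc hst h1).2.1
    have h3 : X ≤ e.1 := by
      obtain ⟨x, y, _ | _⟩ := e
      · rw [RB, mem_RE_false] at he; exact he.1
      · rw [RB, mem_RE_true] at he; exact he.1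
    omega
  have hRB : RB X Y m ⊆ S \ k := by
    intro e he
    rw [mem_sdiff]
    exact ⟨hBl (RB_Bl he), fresh e he⟩
  have hNB : NB (X + 32 * m, Y) a ⊆ S \ k := by
    refine Finset.Subset.trans ?_ hRB
    unfold NB RB
    exact RE_sub_RE (by simp only; omega) (by simp only; omega) (by simp only; omega)
      (by simp only; omega)
  -- probability of the arms
  have hp1 : c3 ≤ Pr (fun _ => (1/2:ℝ)) (S \ k)
      (fun G => ∃ v ∈ ctr (X + 32 * m, Y) a, RA v a ↑G) := by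
    have h1 := hra (X + 32 * m, Y) a ha
    have e1 : ((a:ℝ)) ^ (-(2 * (1/4:ℝ) - 2 * (1/4))) = 1 := by
      rw [show (-(2 * (1/4:ℝ) - 2 * (1/4))) = 0 by norm_num, Real.rpow_zero]
    rw [e1, mul_one] at h1
    have h2 : Pr (fun _ => (1/2:ℝ)) (NB (X + 32 * m, Y) a)
        (fun G => ∃ v ∈ ctr (X + 32 * m, Y) a, RA v a ↑G) =
        Pr (fun _ => (1/2:ℝ)) (S \ k)
        (fun G => ∃ v ∈ ctr (X + 32 * m, Y) a, RA v a ↑G) := by
      symm
      refine Pr_local hNB fun F _ => ?_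
      have hloc : ∀ F G : Finset Edg, (∀ e ∈ NB (X + 32 * m, Y) a, (e ∈ F ↔ e ∈ G)) →
          (∃ v ∈ ctr (X + 32 * m, Y) a, RA v a ↑F) →
          ∃ v ∈ ctr (X + 32 * m, Y) a, RA v a ↑G := by
        rintro F G h ⟨v, hv, hR⟩
        have hvb := ctr_b hv
        refine ⟨v, hv, RA_mono' ?_ ?_ hR⟩
        · intro e he heF
          refine Finset.mem_coe.2 ((h e ?_).1 (Finset.mem_coe.1 heF))
          unfold PR at he
          unfold NB
          exact RE_sub_RE (by simp only; omega) (by simp only; omega) (by simp only; omega)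
            (by simp only; omega) he
        · intro e he heF
          refine Finset.mem_coe.2 ((h e ?_).2 (Finset.mem_coe.1 heF))
          have ha' : (1 : ℤ) ≤ a := by exact_mod_cast ha
          obtain ⟨x, y, _ | _⟩ := e
          · simp only [DR, dl_f, mem_RE_true] at he
            simp only [NB, mem_RE_false]
            omega
          · simp only [DR, dl_t, mem_RE_false] at he
            simp only [NB, mem_RE_true]
            omega
      constructor
      · refine hloc _ _ fun e he => ?_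
        rw [mem_inter]
        exact ⟨fun h => ⟨h, he⟩, fun h => h.1⟩
      · refine hloc _ _ fun e he => ?_
        rw [mem_inter]
        exact ⟨fun h => h.1, fun h => ⟨h, he⟩⟩
    rw [← h2]
    refine h1.trans (Pr_mono two_ok fun G _ hG => ?_)
    have h3 : (0 : ℝ) < (nRA (X + 32 * m, Y) a (↑G) : ℝ) :=
      lt_of_lt_of_le (by positivity) hG
    have h4 : 0 < nRA (X + 32 * m, Y) a (↑G) := by exact_mod_cast h3
    unfold nRA at h4
    obtain ⟨v, hv⟩ := Finset.card_pos.1 h4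
    rw [mem_filter] at hv
    exact ⟨v, hv.1, hv.2⟩
  -- the count
  have hcn := cn_pr hM1 hC hU hM (X := X) (Y := Y) (a := a) (m := m) (kk := kk) ha hRB
    (θ0 * kk)
  -- combination
  obtain ⟨Ab, hAb⟩ : ∃ Ab : Finset Edg → Prop, Ab = fun G : Finset Edg =>
    (∃ v ∈ ctr (X + 32 * m, Y) a, RA v a (↑G : Set Edg)) ∧
        (BaseL A y0 X Y T a m (↑((F0 ∩ k) ∪ G)) ∧ BaseU A y0 X Y T a m (↑((F0 ∩ k) ∪ G))) :=
    ⟨_, rfl⟩
  obtain ⟨Bb, hBb⟩ : ∃ Bb : Finset Edg → Prop, Bb = fun G : Finset Edg =>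
    18 * (θ0 * kk) * (a : ℝ) ^ (7/4 : ℝ) ≤ Cn X Y a m kk (↑G : Set Edg) := ⟨_, rfl⟩
  rw [← hAb] at key
  rw [← hBb] at hcn
  have s6 : Pr (fun _ => (1/2:ℝ)) (S \ k) Ab - Pr (fun _ => (1/2:ℝ)) (S \ k) Bb ≤
      Pr (fun _ => (1/2:ℝ)) (S \ k) (fun G =>
        Qf a m kk (18 * θ0 * kk * (a : ℝ) ^ (7/4 : ℝ)) A y0 X Y T (↑((F0 ∩ k) ∪ G))) := by
    unfold Pr
    rw [← Ex_sub]
    refine Ex_mono two_ok fun G hG => ?_
    have hmem : ∀ e ∈ RB X Y m, (e ∈ (↑((F0 ∩ k) ∪ G) : Set Edg) ↔ e ∈ (↑G : Set Edg)) := by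
      intro e he
      rw [Finset.mem_coe, Finset.mem_coe, mem_union, mem_inter]
      exact ⟨fun h => h.elim (fun h => absurd h.2 (fresh e he)) id, Or.inr⟩
    by_cases h1 : Ab G
    · by_cases h2 : Bb G
      · rw [ind_of h1, ind_of h2]
        have := ind_nonneg (Qf a m kk (18 * θ0 * kk * (a : ℝ) ^ (7/4 : ℝ)) A y0 X Y T
          (↑((F0 ∩ k) ∪ G)))
        linarith
      · have h3 : Qf a m kk (18 * θ0 * kk * (a : ℝ) ^ (7/4 : ℝ)) A y0 X Y T
            (↑((F0 ∩ k) ∪ G)) := by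
          rw [hAb] at h1
          rw [hBb] at h2
          obtain ⟨⟨v, hv, hR⟩, h4⟩ := h1
          refine ⟨h4, ⟨v, hv, ?_⟩, ?_⟩
          · have hNBm : ∀ e ∈ NB (X + 32 * m, Y) a,
                (e ∈ (↑((F0 ∩ k) ∪ G) : Set Edg) ↔ e ∈ (↑G : Set Edg)) := by
              intro e he
              have := (mem_sdiff.1 (hNB he)).2
              rw [Finset.mem_coe, Finset.mem_coe, mem_union, mem_inter]
              exact ⟨fun h => h.elim (fun h => absurd h.2 this) id, Or.inr⟩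
            have hvb := ctr_b hv
            refine RA_mono' ?_ ?_ hR
            · intro e he heF
              refine (hNBm e ?_).2 heF
              unfold PR at he
              unfold NB
              exact RE_sub_RE (by simp only; omega) (by simp only; omega) (by simp only; omega)
                (by simp only; omega) he
            · intro e he heF
              refine (hNBm e ?_).1 heF
              have ha' : (1 : ℤ) ≤ a := by exact_mod_cast ha
              obtain ⟨x, y, _ | _⟩ := e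
              · simp only [DR, dl_f, mem_RE_true] at he
                simp only [NB, mem_RE_false]
                omega
              · simp only [DR, dl_t, mem_RE_false] at he
                simp only [NB, mem_RE_true]
                omega
          · rw [cn_congr hmem]
            have e9 : 18 * θ0 * kk * (a : ℝ) ^ (7/4 : ℝ) = 18 * (θ0 * kk) * (a : ℝ) ^ (7/4 : ℝ) := by
              ring
            rw [e9]
            exact (not_le.1 h2).le
        rw [ind_of h1, ind_of h3]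
        have := ind_nonneg (Bb G)
        linarith
    · rw [ind_not_of h1]
      have h2 := ind_nonneg (Qf a m kk (18 * θ0 * kk * (a : ℝ) ^ (7/4 : ℝ)) A y0 X Y T
          (↑((F0 ∩ k) ∪ G)))
      have h3 := ind_nonneg (Bb G)
      linarith
  refine le_trans ?_ s6
  have h7 : Real.exp (16 * Real.log q0 * kk - L3 * kk) ≤
      Pr (fun _ => (1/2:ℝ)) (S \ k) Ab := by
    refine le_trans ?_ key
    have e : q0 ^ (2 * (2 * kk) + 4) * q0 ^ (2 * (2 * kk) + 4) =
        Real.exp (((8 * kk + 8 : ℕ) : ℝ) * Real.log q0) := by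
      rw [← pow_add, Real.exp_nat_mul, Real.exp_log q0_pos]
      congr 1
      ring
    rw [e]
    have h8 : Real.exp (16 * Real.log q0 * kk) ≤
        Real.exp (((8 * kk + 8 : ℕ) : ℝ) * Real.log q0) := by
      refine Real.exp_le_exp.mpr ?_
      push_cast
      nlinarith
    have h9 : Real.exp (-(L3 * kk)) ≤ Pr (fun _ => (1/2:ℝ)) (S \ k)
      (fun G => ∃ v ∈ ctr (X + 32 * m, Y) a, RA v a ↑G) := by
      refine le_trans ?_ (hL3'.trans hp1)
      refine Real.exp_le_exp.mpr ?_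
      nlinarith
    calc Real.exp (16 * Real.log q0 * kk - L3 * kk) =
        Real.exp (16 * Real.log q0 * kk) * Real.exp (-(L3 * kk)) := by
          rw [← Real.exp_add]; congr 1
      _ ≤ _ := mul_le_mul h8 h9 (Real.exp_pos _).le (Real.exp_pos _).le
  have h8 : Pr (fun _ => (1/2:ℝ)) (S \ k) Bb ≤
      1 / 2 * Real.exp (16 * Real.log q0 * kk - L3 * kk) := by
    refine hcn.trans ?_
    have e : M ^ (952 * kk) = Real.exp (952 * Real.log M * kk) := by
      have e2 : 952 * Real.log M * kk = ((952 * kk : ℕ) : ℝ) * Real.log M := by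
        push_cast; ring
      rw [e2, Real.exp_nat_mul, Real.exp_log hM0]
    rw [e, ← Real.exp_add]
    have e3 : -(θ0 * kk) + 952 * Real.log M * kk =
        (16 * Real.log q0 * kk - L3 * kk) + -(3 * kk) := by rw [hθ0]; ring
    rw [e3, Real.exp_add]
    have h9 : Real.exp (-(3 * (kk : ℝ))) ≤ Real.exp (-3) :=
      Real.exp_le_exp.mpr (by linarith)
    have h10 : 9 * Real.exp (-3) ≤ 1 / 2 := by
      have h11 : (18 : ℝ) ≤ Real.exp 3 := by
        have h12 : Real.exp 3 = Real.exp 1 ^ 3 := by rw [← Real.exp_nat_mul]; norm_num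
        have h13 := Real.exp_one_gt_d9
        rw [h12]
        have h14 : (2.7 : ℝ) ^ 3 ≤ Real.exp 1 ^ 3 := pow_le_pow_left₀ (by norm_num) (by linarith) 3
        norm_num at h14 ⊢
        linarith
      rw [Real.exp_neg, ← div_eq_mul_inv, div_le_div_iff₀ (Real.exp_pos _) (by norm_num)]
      linarith
    have h15 := Real.exp_pos (16 * Real.log q0 * kk - L3 * kk)
    nlinarith
  have h9 : Real.exp (-((-16 * Real.log q0 + L3 + 1) * kk)) ≤
      1 / 2 * Real.exp (16 * Real.log q0 * kk - L3 * kk) := by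
    have e1 : -((-16 * Real.log q0 + L3 + 1) * (kk : ℝ)) =
        (16 * Real.log q0 * kk - L3 * kk) + -(kk : ℝ) := by ring
    rw [e1, Real.exp_add]
    have h10 : Real.exp (-(kk : ℝ)) ≤ 1 / 2 := by
      have h11 : Real.exp (-(kk : ℝ)) ≤ Real.exp (-1) := Real.exp_le_exp.mpr (by linarith)
      have h12 := Real.exp_neg_one_lt_d9
      linarith
    have h15 := Real.exp_pos (16 * Real.log q0 * kk - L3 * kk)
    nlinarith
  linarith

end Pool.Agent.Y995.FS
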