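import Pool.Agent.Y995.FS.FastPr

/-!
The slow trial: definition and deterministic part.
-/

set_option autoImplicit false

namespace Pool.Agent.Y995.FS

open H974 Finset H342P H984P H984N TH992.T

/-- The vertices of the comb. -/
noncomputable def Wv (X Y : ℤ) (m : ℕ) : Finset Vtx :=
  Finset.Icc (X + 28 * m) (X + 36 * m) ×ˢ Finset.Icc (Y - 3 * m) (Y + 3 * m)

open Classical in
/-- The slow trial: many seen vertices. -/
def Qs (m : ℕ) (M : ℝ) : TEv := fun A y0 X Y T F =>
  M ≤ (((Wv X Y m).filter (Seen A y0 X Y T m F)).card : ℝ)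

open Classical in
/-- A slow piece: at least `M` steps in a square of radius `r`. -/
def gS (r : ℤ) (M : ℝ) (x : ℕ → Vtx) (t : ℕ) : Prop :=
  ∃ z : Vtx, M ≤ (((Finset.range (t + 1)).filter (fun s => sd z (x s) ≤ r)).card : ℝ)

theorem gS_good (r : ℤ) (M : ℝ) : PGood (gS r M) where
  congr x x' t h := by
    rintro ⟨z, hz⟩
    refine ⟨z, hz.trans (le_of_eq ?_)⟩
    congr 2
    refine Finset.filter_congr fun s hs => ?_
    rw [Finset.mem_range] at hs
    rw [h s (by omega)]
  mono x s0 t' t h := by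
    classical
    rintro ⟨z, hz⟩
    refine ⟨z, hz.trans ?_⟩
    have h1 : (((Finset.range (t' + 1)).filter (fun s => sd z (x (s + s0)) ≤ r)).image
        (fun s => s + s0)) ⊆ (Finset.range (t + 1)).filter (fun s => sd z (x s) ≤ r) := by
      intro s hs
      rw [mem_image] at hs
      obtain ⟨u, hu, rfl⟩ := hs
      rw [mem_filter, mem_range] at hu ⊢
      exact ⟨by omega, hu.2⟩
    have h2 := Finset.card_le_card h1
    rw [Finset.card_image_of_injective _ (add_left_injective s0)] at h2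
    exact_mod_cast h2
  rot x t := by
    rintro ⟨z, hz⟩
    refine ⟨rV.symm z, hz.trans (le_of_eq ?_)⟩
    congr 2
    refine Finset.filter_congr fun s _ => ?_
    rw [← sd_rV (rV.symm z) (x s), Equiv.apply_symm_apply]
  trl x t b c := by
    rintro ⟨z, hz⟩
    refine ⟨(z.1 - b, z.2 - c), hz.trans (le_of_eq ?_)⟩
    congr 2
    refine Finset.filter_congr fun s _ => ?_
    rw [← sd_trl (z.1 - b, z.2 - c) (x s) b c]
    simp

theorem seen_congr {A y0 X Y : ℤ} {T m : ℕ} {F G : Set Edg}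
    (h1 : ∀ e ∈ Exm F (st0 A y0) T, (e ∈ F ↔ e ∈ G)) (h2 : ∀ e ∈ Bl X Y m, (e ∈ F ↔ e ∈ G))
    {v : Vtx} (h : Seen A y0 X Y T m F v) : Seen A y0 X Y T m G v := by
  have hE : Exm G (st0 A y0) T = Exm F (st0 A y0) T := Exm_congr h1
  have hW : ∀ e ∈ (↑(Exm F (st0 A y0) T ∪ Bl X Y m) : Set Edg), (e ∈ F ↔ e ∈ G) := by
    intro e he
    rw [Finset.mem_coe, Finset.mem_union] at he
    rcases he with he | he
    · exact h1 e he
    · exact h2 e he
  unfold Seen at h ⊢
  rw [hE]
  refine ⟨h.1.mono ?_, h.2.mono ?_⟩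
  · rintro e ⟨he, he'⟩
    exact ⟨(hW e he').1 he, he'⟩
  · rintro e ⟨he, he'⟩
    exact ⟨he, fun h => he' ((hW e he).2 h)⟩

theorem Qs_loc {m : ℕ} {M : ℝ} : LocQ m (Qs m M) := by
  classical
  intro A y0 X Y T F G h1 h2 h
  unfold Qs at h ⊢
  refine h.trans ?_
  have : ((Wv X Y m).filter (Seen A y0 X Y T m F)).card ≤
      ((Wv X Y m).filter (Seen A y0 X Y T m G)).card := by
    refine Finset.card_le_card fun v hv => ?_
    rw [mem_filter] at hv ⊢
    exact ⟨hv.1, seen_congr h1 h2 hv.2⟩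
  exact_mod_cast this

theorem Qs_det {m K : ℕ} {M : ℝ} (hm : 1 ≤ m) : DetQ (Qs m M) m K (gS (5 * m) M) := by
  classical
  intro F A y0 Y T j Yj Tj hst hj hjK hstj hTj hQ
  have hm1 : (1 : ℤ) ≤ m := by exact_mod_cast hm
  have hj' : (1 : ℤ) ≤ j := by exact_mod_cast hj
  have hjK' : (j : ℤ) + 1 ≤ K := by exact_mod_cast hjK
  have e1 : 121 * (m : ℤ) ≤ 121 * m * j := by nlinarith
  have e2 : 121 * (m : ℤ) * j + 121 * m ≤ 121 * m * K := by nlinarith
  obtain ⟨X, hX⟩ : ∃ X : ℤ, X = A + 121 * m * j := ⟨_, rfl⟩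
  rw [← hX] at hstj hQ
  refine ⟨(X + 32 * m, Yj), ?_⟩
  unfold Qs at hQ
  refine hQ.trans ?_
  obtain ⟨V, hV⟩ : ∃ V, V = (Wv X Yj m).filter (Seen A y0 X Yj Tj m F) := ⟨_, rfl⟩
  rw [← hV]
  have key : ∀ v ∈ V, ∃ t < T, ae (orb F (st0 A y0) t) = (v.1, v.2, true) := by
    intro v hv
    rw [hV, mem_filter] at hv
    have h1 := hv.1
    unfold Wv at h1
    rw [mem_product, mem_Icc, mem_Icc] at h1
    exact seen_exm hst hTj (by omega) (by omega) (by omega) hv.2
  choose! τ hτ1 hτ2 using key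
  have h1 : V.image τ ⊆ (Finset.range (T + 1)).filter
      (fun s => sd (X + 32 * m, Yj) (orb F (st0 A y0) s).1 ≤ 5 * m) := by
    intro s hs
    rw [mem_image] at hs
    obtain ⟨v, hv, rfl⟩ := hs
    have h2 := hτ1 v hv
    have h3 := hτ2 v hv
    rw [mem_filter, mem_range]
    refine ⟨by omega, ?_⟩
    rw [hV, mem_filter] at hv
    have h4 := hv.1
    unfold Wv at h4
    rw [mem_product, mem_Icc, mem_Icc] at h4
    rw [det_sd_eq]
    rcases ae_at h3 with ⟨h5, -⟩ | ⟨h5, -⟩
    · rw [h5]; simp only; omega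
    · rw [h5]; simp only; omega
  have h2 := Finset.card_le_card h1
  rw [Finset.card_image_of_injOn] at h2
  · exact_mod_cast h2
  · intro u hu v hv huv
    have h3 := hτ2 u hu
    have h4 := hτ2 v hv
    rw [huv, h4] at h3
    simp only [Prod.mk.injEq, and_true] at h3
    exact Prod.ext h3.1.symm h3.2.symm

/-! ### The comb -/

/-- the lowest row of a period -/
def yt (Y : ℤ) (m b i : ℕ) : ℤ := Y - 2 * m + ((40 * b * i + 5 * b : ℕ) : ℤ)

/-- open teeth and spine -/
def CA (X Y : ℤ) (m b I : ℕ) (F : Finset Edg) : Prop :=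
  (∀ i < I, LRc (X + 20 * m) (X + 38 * m) (yt Y m b i) (yt Y m b i + 4 * b) F) ∧
    TBc (X + 20 * m) (X + 24 * m) (Y - 12 * m) (Y + 3 * m) F

/-- closed dual teeth and spine -/
def CB (X Y : ℤ) (m b I : ℕ) (F : Finset Edg) : Prop :=
  (∀ i < I, LRc (X + 26 * m) (X + 44 * m) (yt Y m b i + 16 * b) (yt Y m b i + 16 * b + 4 * b)
    (dmp (RB X Y m \ F))) ∧
    TBc (X + 40 * m) (X + 44 * m) (Y - 3 * m) (Y + 12 * m) (dmp (RB X Y m \ F))

/-- the height is sufficient -/
def HgtC (m b I : ℕ) : Prop := 40 * b * I ≤ 4 * m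

theorem yt_bd {Y : ℤ} {m b I i : ℕ} (hH : HgtC m b I) (hi : i < I) :
    Y - 2 * m + 5 * b ≤ yt Y m b i ∧ yt Y m b i + 35 * b ≤ Y + 2 * m := by
  unfold yt
  have h1 : 40 * b * (i + 1) ≤ 40 * b * I := Nat.mul_le_mul_left _ hi
  have h2 : 40 * b * (i + 1) = 40 * b * i + 40 * b := by ring
  have h3 := hH
  unfold HgtC at h3
  push_cast
  have h4 : (40 * b * i + 40 * b : ℕ) ≤ 4 * m := by omega
  have h5 : (40 : ℤ) * b * i + 40 * b ≤ 4 * m := by exact_mod_cast h4
  have h6 : (0 : ℤ) ≤ 40 * b * i := by positivity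
  constructor <;> linarith

/-- the vertex is in the middle of a period -/
def MidC (X Y : ℤ) (m b I : ℕ) (v : Vtx) : Prop :=
  (X + 28 * m ≤ v.1 ∧ v.1 ≤ X + 36 * m) ∧
    ∃ i < I, yt Y m b i + 8 * b ≤ v.2 ∧ v.2 ≤ yt Y m b i + 12 * b

/-- vertices of the comb with arms are seen -/
theorem seen_comb {F : Finset Edg} {G : Set Edg} {A y0 X Y : ℤ} {T m b I : ℕ} (hb : 1 ≤ b)
    (hbm : 12 * b ≤ m) (hH : HgtC m b I)
    (hFG : ∀ e ∈ RB X Y m, (e ∈ F ↔ e ∈ G))
    (hL : BaseL A y0 X Y T m m G) (hU : BaseU A y0 X Y T m m G) (hA : CA X Y m b I F)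
    (hB : CB X Y m b I F) {v : Vtx} (hv : MidC X Y m b I v) (hR : RA v b ↑F) :
    Seen A y0 X Y T m G v := by
  have hb' : (1 : ℤ) ≤ b := by exact_mod_cast hb
  have hbm' : 12 * (b : ℤ) ≤ m := by exact_mod_cast hbm
  have hm : 1 ≤ m := by omega
  obtain ⟨⟨hv1, hv2⟩, i, hi, hr1, hr2⟩ := hv
  obtain ⟨hy1, hy2⟩ := yt_bd (Y := Y) hH hi
  obtain ⟨⟨w, hw, hRw⟩, g, hg, hDg⟩ := hR
  obtain ⟨v1, v2⟩ := v
  simp only at hv1 hv2 hr1 hr2 hw hg
  obtain ⟨y, hy⟩ : ∃ y, y = yt Y m b i := ⟨_, rfl⟩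
  rw [← hy] at hy1 hy2 hr1 hr2
  constructor
  · obtain ⟨V, hV⟩ : ∃ V : Finset Edg, V = RE (X + 20 * m) (X + 24 * m) (Y - 12 * m) (Y + 3 * m) ∪
      RE (X + 20 * m) (X + 38 * m) (Y - 3 * m) (Y + 3 * m) := ⟨_, rfl⟩
    obtain ⟨y1, y2, hy1', hy2', hc⟩ := hA.1 i hi
    obtain ⟨x1, x2, hx1, hx2, hs⟩ := hA.2
    rw [← hy] at hy1' hy2' hc
    have e1 : Reach ((↑F : Set Edg) ∩ ↑V) w (X + 20 * m, y1) := by
      refine meet_gen (p := v1 - 12 * b) (q := v1 + 12 * b) (c := y) (d := y + 4 * b)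
        (by omega) (by omega) (V := PR (v1, v2) b)
        (Hh := LRE (X + 20 * m) (X + 38 * m) y (y + 4 * b)) ?_ ?_ ?_ ?_ ?_ ?_ ?_
        hRw.symm (by omega) (by simp only; omega) hc (by simp only; omega) (by simp only; omega)
      · rintro ⟨x, y, _ | _⟩ h
        · simp only [PR, hV, mem_union, mem_RE_false] at h ⊢; omega
        · simp only [PR, hV, mem_union, mem_RE_true] at h ⊢; omega
      · rintro ⟨x, y, _ | _⟩ h
        · simp only [hV, mem_union, mem_RE_false, mem_LRE_false] at h ⊢; omega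
        · simp only [hV, mem_union, mem_RE_true, mem_LRE_true] at h ⊢; omega
      · rintro ⟨x, y, _ | _⟩ h
        · simp only [hV, mem_union, mem_RE_false] at h ⊢; omega
        · simp only [hV, mem_union, mem_RE_true] at h ⊢; omega
      · intro x y h; simp only [PR, mem_RE_false] at h; omega
      · intro x y h; simp only [PR, mem_RE_true] at h; omega
      · intro x y h; simp only [mem_LRE_true] at h; omega
      · intro x y h; simp only [mem_LRE_false] at h; omega
    have e2 : Reach ((↑F : Set Edg) ∩ ↑V) (x1, Y - 12 * m) (X + 20 * m, y1) := by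
      refine meet_gen (p := X + 20 * m) (q := X + 24 * m) (c := y) (d := y + 4 * b)
        (by omega) (by omega)
        (V := TBE (X + 20 * m) (X + 24 * m) (Y - 12 * m) (Y + 3 * m))
        (Hh := LRE (X + 20 * m) (X + 38 * m) y (y + 4 * b)) ?_ ?_ ?_ ?_ ?_ ?_ ?_
        hs (by simp only; omega) (by simp only; omega) hc (by simp only; omega)
        (by simp only; omega)
      · rintro ⟨x, y, _ | _⟩ h
        · simp only [hV, mem_union, mem_RE_false, mem_TBE_false] at h ⊢; omega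
        · simp only [hV, mem_union, mem_RE_true, mem_TBE_true] at h ⊢; omega
      · rintro ⟨x, y, _ | _⟩ h
        · simp only [hV, mem_union, mem_RE_false, mem_LRE_false] at h ⊢; omega
        · simp only [hV, mem_union, mem_RE_true, mem_LRE_true] at h ⊢; omega
      · rintro ⟨x, y, _ | _⟩ h
        · simp only [hV, mem_union, mem_RE_false] at h ⊢; omega
        · simp only [hV, mem_union, mem_RE_true] at h ⊢; omega
      · intro x y h; simp only [mem_TBE_false] at h; omega
      · intro x y h; simp only [mem_TBE_true] at h; omega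
      · intro x y h; simp only [mem_LRE_true] at h; omega
      · intro x y h; simp only [mem_LRE_false] at h; omega
    have e3 : Reach ((↑F : Set Edg) ∩ ↑V) w (v1, v2) := hRw.symm.mono (by
      rintro ⟨x, y, _ | _⟩ ⟨h0, h⟩
      · refine ⟨h0, ?_⟩
        simp only [PR, hV, mem_coe, mem_union, mem_RE_false] at h ⊢; omega
      · refine ⟨h0, ?_⟩
        simp only [PR, hV, mem_coe, mem_union, mem_RE_true] at h ⊢; omega)
    have hVR : V ⊆ RB X Y m := by
      rintro ⟨x, y, _ | _⟩ h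
      · simp only [hV, RB, mem_union, mem_RE_false] at h ⊢; omega
      · simp only [hV, RB, mem_union, mem_RE_true] at h ⊢; omega
    have e4 : Reach (G ∩ ↑V) (x1, Y - 12 * m) (v1, v2) :=
      ((e2.trans e1.symm).trans e3).mono (by
        rintro e ⟨h0, h⟩
        exact ⟨(hFG e (hVR (Finset.mem_coe.1 h))).1 (Finset.mem_coe.1 h0), h⟩)
    refine attL hm le_rfl hL (V := V) (p := X + 20 * m) (q := X + 24 * m)
      (by omega) (by omega) (by omega) (hVR.trans RB_Bl) ?_ ?_ (w := (x1, Y - 12 * m))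
      (v := (v1, v2)) (by simp only; omega) (by simp only; omega) e4
    · intro x y h _ _; simp only [hV, mem_union, mem_RE_false] at h; omega
    · intro x y h _ _; simp only [hV, mem_union, mem_RE_true] at h; omega
  · obtain ⟨V, hV⟩ : ∃ V : Finset Edg, V = RE (X + 40 * m) (X + 44 * m) (Y - 3 * m) (Y + 12 * m) ∪
      RE (X + 26 * m) (X + 44 * m) (Y - 3 * m) (Y + 3 * m) := ⟨_, rfl⟩
    obtain ⟨y1, y2, hy1', hy2', hc⟩ := hB.1 i hi
    obtain ⟨x1, x2, hx1, hx2, hs⟩ := hB.2
    rw [← hy] at hy1' hy2' hc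
    obtain ⟨F', hF'⟩ : ∃ F' : Finset Edg, F' = dmp (RB X Y m \ F) := ⟨_, rfl⟩
    rw [← hF'] at hc hs
    have a1 : Reach ((↑F' : Set Edg) ∩ ↑(DR (v1, v2) b)) (v1, v2) g := by
      refine (reach_dl.mpr hDg).mono ?_
      rintro _ ⟨e, ⟨he1, he2⟩, rfl⟩
      refine ⟨?_, he1⟩
      rw [hF', mem_coe, mem_dmp, Equiv.symm_apply_apply, mem_sdiff]
      refine ⟨?_, he2⟩
      obtain ⟨x, y, _ | _⟩ := e
      · simp only [dE, DR, Set.mem_ofPred_eq, dl_f, mem_RE_true] at he1
        simp only [RB, mem_RE_false]; omega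
      · simp only [dE, DR, Set.mem_ofPred_eq, dl_t, mem_RE_false] at he1
        simp only [RB, mem_RE_true]; omega
    have e1 : Reach ((↑F' : Set Edg) ∩ ↑V) (v1, v2) (X + 26 * m, y1) := by
      refine meet_gen (p := v1 - 12 * b) (q := v1 + 12 * b) (c := y + 16 * b)
        (d := y + 16 * b + 4 * b) (by omega) (by omega) (V := DR (v1, v2) b)
        (Hh := LRE (X + 26 * m) (X + 44 * m) (y + 16 * b) (y + 16 * b + 4 * b))
        ?_ ?_ ?_ ?_ ?_ ?_ ?_
        a1 (by simp only; omega) (by omega) hc (by simp only; omega) (by simp only; omega)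
      · rintro ⟨x, y, _ | _⟩ h
        · simp only [DR, hV, mem_union, mem_RE_false] at h ⊢; omega
        · simp only [DR, hV, mem_union, mem_RE_true] at h ⊢; omega
      · rintro ⟨x, y, _ | _⟩ h
        · simp only [hV, mem_union, mem_RE_false, mem_LRE_false] at h ⊢; omega
        · simp only [hV, mem_union, mem_RE_true, mem_LRE_true] at h ⊢; omega
      · rintro ⟨x, y, _ | _⟩ h
        · simp only [hV, mem_union, mem_RE_false] at h ⊢; omega
        · simp only [hV, mem_union, mem_RE_true] at h ⊢; omega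
      · intro x y h; simp only [DR, mem_RE_false] at h; omega
      · intro x y h; simp only [DR, mem_RE_true] at h; omega
      · intro x y h; simp only [mem_LRE_true] at h; omega
      · intro x y h; simp only [mem_LRE_false] at h; omega
    have e2 : Reach ((↑F' : Set Edg) ∩ ↑V) (x1, Y - 3 * m) (X + 26 * m, y1) := by
      refine meet_gen (p := X + 40 * m) (q := X + 44 * m) (c := y + 16 * b)
        (d := y + 16 * b + 4 * b) (by omega) (by omega)
        (V := TBE (X + 40 * m) (X + 44 * m) (Y - 3 * m) (Y + 12 * m))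
        (Hh := LRE (X + 26 * m) (X + 44 * m) (y + 16 * b) (y + 16 * b + 4 * b))
        ?_ ?_ ?_ ?_ ?_ ?_ ?_
        hs (by simp only; omega) (by simp only; omega) hc (by simp only; omega)
        (by simp only; omega)
      · rintro ⟨x, y, _ | _⟩ h
        · simp only [hV, mem_union, mem_RE_false, mem_TBE_false] at h ⊢; omega
        · simp only [hV, mem_union, mem_RE_true, mem_TBE_true] at h ⊢; omega
      · rintro ⟨x, y, _ | _⟩ h
        · simp only [hV, mem_union, mem_RE_false, mem_LRE_false] at h ⊢; omega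
        · simp only [hV, mem_union, mem_RE_true, mem_LRE_true] at h ⊢; omega
      · rintro ⟨x, y, _ | _⟩ h
        · simp only [hV, mem_union, mem_RE_false] at h ⊢; omega
        · simp only [hV, mem_union, mem_RE_true] at h ⊢; omega
      · intro x y h; simp only [mem_TBE_false] at h; omega
      · intro x y h; simp only [mem_TBE_true] at h; omega
      · intro x y h; simp only [mem_LRE_true] at h; omega
      · intro x y h; simp only [mem_LRE_false] at h; omega
    have e3 : Reach ((↑F' : Set Edg) ∩ ↑V) (x1, Y - 3 * m) (x2, Y + 12 * m) := hs.mono (by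
      rintro ⟨x, y, _ | _⟩ ⟨h0, h⟩
      · refine ⟨h0, ?_⟩
        simp only [hV, mem_coe, mem_union, mem_RE_false, mem_TBE_false] at h ⊢; omega
      · refine ⟨h0, ?_⟩
        simp only [hV, mem_coe, mem_union, mem_RE_true, mem_TBE_true] at h ⊢; omega)
    have e4 : DReach (dE V \ G) (v1, v2) (x2, Y + 12 * m) := by
      rw [← reach_dl]
      refine ((e1.trans e2.symm).trans e3).mono ?_
      rintro e ⟨h1, h2⟩
      rw [hF', mem_coe, mem_dmp, mem_sdiff] at h1
      refine ⟨dl.symm e, ⟨?_, ?_⟩, by simp⟩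
      · simp only [dE, Set.mem_ofPred_eq, Equiv.apply_symm_apply]
        exact Finset.mem_coe.1 h2
      · intro h3
        exact h1.2 ((hFG _ h1.1).2 h3)
    refine attU hm le_rfl hU (V := V) (p := X + 40 * m) (q := X + 44 * m)
      (by omega) (by omega) (by omega) ?_ ?_ ?_ (v := (v1, v2)) (g := (x2, Y + 12 * m))
      (by simp only; omega) (by simp only; omega) e4
    · rintro ⟨x, y, _ | _⟩ h
      · simp only [hV, mem_union, mem_RE_false] at h ⊢; omega
      · simp only [hV, mem_union, mem_RE_true] at h ⊢; omega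
    · intro x y h _ _; simp only [hV, mem_union, mem_RE_false] at h; omega
    · intro x y h _ _; simp only [hV, mem_union, mem_RE_true] at h; omega

end Pool.Agent.Y995.FS
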