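import Pool.Agent.Y995.FS.BulkG
import Pool.Agent.H984R4.NP.Limit
import Pool.Agent.H984R4.NP.Det

/-!
Every macroscopic piece in the bulk of the exploration path at mesh `δ` is good.
-/

set_option autoImplicit false
set_option linter.unusedVariables false

namespace Pool.Agent.Y995.FS

open H974 Finset H342P H984P H984N

/-- depth of a point in the rectangle -/
noncomputable def dep (R : Rect) (z : ℂ) : ℝ :=
  min (min (z.re + R.A) (R.B - z.re)) (min z.im (R.H - z.im))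

/-- A bad piece of the path. -/
def GBad (g : (ℕ → Vtx) → ℕ → Prop) (R : Rect) (δ ρ : ℝ) (F : Finset Edg) : Prop :=
  ∃ k l : ℕ, k ≤ l ∧ l ≤ (R.dm δ).len F ∧
    5 * ρ - δ ≤ dep R (pos δ ((R.dm δ).walk F k)) ∧
    ρ - δ ≤ dist (pos δ ((R.dm δ).walk F k)) (pos δ ((R.dm δ).walk F l)) ∧
    ¬ g (fun s => ((R.dm δ).walk F (k + s)).1) (l - k)

theorem bd_ge {R : Rect} {δ : ℝ} (hδ : 0 < δ) (σ : St) :
    dep R (pos δ σ) ≤ δ * (((R.dm δ).bd σ.1 : ℤ) : ℝ) + 5/4 * δ := by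
  have fl : ((⌊-(R.A / δ)⌋ : ℤ) : ℝ) ≤ -(R.A / δ) := Int.floor_le _
  have cB : R.B / δ ≤ ((⌈R.B / δ⌉ : ℤ) : ℝ) := Int.le_ceil _
  have cH : R.H / δ ≤ ((⌈R.H / δ⌉ : ℤ) : ℝ) := Int.le_ceil _
  have fl' := mul_le_mul_of_nonneg_left fl hδ.le
  have cB' := mul_le_mul_of_nonneg_left cB hδ.le
  have cH' := mul_le_mul_of_nonneg_left cH hδ.le
  have eA : δ * -(R.A / δ) = -R.A := by field_simp
  have eB : δ * (R.B / δ) = R.B := by field_simp
  have eH : δ * (R.H / δ) = R.H := by field_simp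
  rw [eA] at fl'
  rw [eB] at cB'
  rw [eH] at cH'
  have hx := abs_le.1 (ML.qx_le σ.2)
  have hy := abs_le.1 (ML.qy_le σ.2)
  have hx1 := mul_le_mul_of_nonneg_left hx.1 hδ.le
  have hx2 := mul_le_mul_of_nonneg_left hx.2 hδ.le
  have hy1 := mul_le_mul_of_nonneg_left hy.1 hδ.le
  have hy2 := mul_le_mul_of_nonneg_left hy.2 hδ.le
  have key : dep R (pos δ σ) - 5/4 * δ ≤ δ * (((R.dm δ).bd σ.1 : ℤ) : ℝ) := by
    unfold Dm.bd dep
    rw [Int.cast_min, Int.cast_min, Int.cast_min, mul_min_of_nonneg _ _ hδ.le,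
      mul_min_of_nonneg _ _ hδ.le, mul_min_of_nonneg _ _ hδ.le]
    have e1 : (R.dm δ).l = ⌊-(R.A / δ)⌋ + 1 := rfl
    have e2 : (R.dm δ).r = ⌈R.B / δ⌉ - 1 := rfl
    have e3 : (R.dm δ).h = ⌈R.H / δ⌉ - 2 := rfl
    rw [e1, e2, e3, ML.pos_re, ML.pos_im]
    push_cast
    have a1 := min_le_left (min (δ * ((σ.1.1 : ℝ) + ML.qx σ.2) + R.A)
      (R.B - δ * ((σ.1.1 : ℝ) + ML.qx σ.2))) (min (δ * ((σ.1.2 : ℝ) + 1 + ML.qy σ.2))
      (R.H - δ * ((σ.1.2 : ℝ) + 1 + ML.qy σ.2)))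
    have a2 := min_le_right (min (δ * ((σ.1.1 : ℝ) + ML.qx σ.2) + R.A)
      (R.B - δ * ((σ.1.1 : ℝ) + ML.qx σ.2))) (min (δ * ((σ.1.2 : ℝ) + 1 + ML.qy σ.2))
      (R.H - δ * ((σ.1.2 : ℝ) + 1 + ML.qy σ.2)))
    have b1 := min_le_left (δ * ((σ.1.1 : ℝ) + ML.qx σ.2) + R.A)
      (R.B - δ * ((σ.1.1 : ℝ) + ML.qx σ.2))
    have b2 := min_le_right (δ * ((σ.1.1 : ℝ) + ML.qx σ.2) + R.A)
      (R.B - δ * ((σ.1.1 : ℝ) + ML.qx σ.2))
    have b3 := min_le_left (δ * ((σ.1.2 : ℝ) + 1 + ML.qy σ.2))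
      (R.H - δ * ((σ.1.2 : ℝ) + 1 + ML.qy σ.2))
    have b4 := min_le_right (δ * ((σ.1.2 : ℝ) + 1 + ML.qy σ.2))
      (R.H - δ * ((σ.1.2 : ℝ) + 1 + ML.qy σ.2))
    refine le_min (le_min ?_ ?_) (le_min ?_ ?_)
    · linarith
    · linarith
    · linarith
    · linarith
  linarith

/-- elementary estimate -/
theorem lat_exp {ρ x : ℝ} (hρ : 0 < ρ) {K : ℕ} (hK1 : 1 ≤ K)
    (hK2 : (K : ℝ) ≤ ρ / (100 * Real.exp (-2 * x))) (hK3 : ρ / (400 * Real.exp (-2 * x)) ≤ (K : ℝ) - 1) :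
    (501 * (K : ℝ)) ^ 2 * (1 - Real.exp (-x)) ^ (K - 1) ≤
      (501 ^ 2 / 100 ^ 2 * ρ ^ 2 * (720 * (400 / ρ) ^ 6)) * Real.exp (-2 * x) ∨ 1 < Real.exp (-x) := by
  by_cases hx : Real.exp (-x) ≤ 1
  swap
  · right; exact not_le.1 hx
  left
  obtain ⟨y, hy⟩ : ∃ y : ℝ, y = Real.exp (-x) * ((K : ℝ) - 1) := ⟨_, rfl⟩
  obtain ⟨z, hz⟩ : ∃ z : ℝ, z = ρ / 400 * Real.exp x := ⟨_, rfl⟩
  have hz0 : 0 < z := by rw [hz]; positivity
  have e2 : Real.exp (-2 * x) = (Real.exp x)⁻¹ ^ 2 := by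
    rw [← Real.exp_neg, ← Real.exp_nat_mul]; congr 1; push_cast; ring
  have hE := Real.exp_pos x
  have hyz : z ≤ y := by
    have h1 : ρ / (400 * Real.exp (-2 * x)) = ρ / 400 * (Real.exp x) ^ 2 := by
      rw [e2]; field_simp
    rw [h1] at hK3
    rw [hz, hy, Real.exp_neg]
    calc ρ / 400 * Real.exp x = (Real.exp x)⁻¹ * (ρ / 400 * (Real.exp x) ^ 2) := by field_simp
      _ ≤ (Real.exp x)⁻¹ * ((K : ℝ) - 1) := mul_le_mul_of_nonneg_left hK3 (by positivity)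
  have h1 : (1 - Real.exp (-x)) ^ (K - 1) ≤ Real.exp (-z) := by
    calc (1 - Real.exp (-x)) ^ (K - 1) ≤ (Real.exp (-Real.exp (-x))) ^ (K - 1) := by
          refine pow_le_pow_left₀ (by linarith) ?_ _
          have := Real.add_one_le_exp (-Real.exp (-x))
          linarith
      _ = Real.exp (-y) := by
          rw [← Real.exp_nat_mul]
          congr 1
          rw [hy, Nat.cast_sub hK1]
          push_cast; ring
      _ ≤ Real.exp (-z) := Real.exp_le_exp.mpr (by linarith)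
  have h2 : Real.exp (-z) ≤ 720 / z ^ 6 := by
    have h3 := Real.pow_div_factorial_le_exp z hz0.le 6
    have h4 : ((Nat.factorial 6 : ℕ) : ℝ) = 720 := by norm_num [Nat.factorial]
    rw [h4] at h3
    rw [Real.exp_neg, inv_le_comm₀ (Real.exp_pos _) (by positivity), inv_div]
    exact h3
  have h3 : (501 * (K : ℝ)) ^ 2 ≤ 501 ^ 2 / 100 ^ 2 * ρ ^ 2 * (Real.exp x) ^ 4 := by
    have h4 : (K : ℝ) ≤ ρ / 100 * (Real.exp x) ^ 2 := by
      refine hK2.trans (le_of_eq ?_)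
      rw [e2]; field_simp
    have h5 := pow_le_pow_left₀ (Nat.cast_nonneg K) h4 2
    calc (501 * (K : ℝ)) ^ 2 = 501 ^ 2 * (K : ℝ) ^ 2 := by ring
      _ ≤ 501 ^ 2 * (ρ / 100 * (Real.exp x) ^ 2) ^ 2 := mul_le_mul_of_nonneg_left h5 (by norm_num)
      _ = _ := by ring
  calc (501 * (K : ℝ)) ^ 2 * (1 - Real.exp (-x)) ^ (K - 1)
      ≤ (501 ^ 2 / 100 ^ 2 * ρ ^ 2 * (Real.exp x) ^ 4) * (720 / z ^ 6) :=
        mul_le_mul h3 (h1.trans h2) (pow_nonneg (by linarith) _) (by positivity)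
    _ = _ := by rw [hz, e2]; field_simp

theorem lat_bound (R : Rect) : ∃ δ0 : ℝ, 0 < δ0 ∧ ∀ ρ : ℝ, 0 < ρ → ∃ C1 : ℝ, 0 < C1 ∧
    ∀ x : ℝ, 0 ≤ x → 1000 * Real.exp (-2 * x) ≤ ρ → ∀ δ : ℝ, 0 < δ → δ ≤ δ0 →
    10 * δ ≤ Real.exp (-2 * x) → ∀ m : ℕ, 5 ≤ m → Real.exp (-2 * x) ≤ 24 * (m * δ) →
    5 * (m * δ) ≤ Real.exp (-2 * x) →
    ∀ (Q : TEv) (g : (ℕ → Vtx) → ℕ → Prop), PGood g → LocQ m Q → (∀ K, DetQ Q m K g) →
      (∀ n, AllQ n m Q (Real.exp (-x))) →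
      R.prob δ (GBad g R δ ρ) ≤ C1 * Real.exp (-2 * x) := by
  classical
  obtain ⟨κ, S, δ0, hκ, hS, hδ0, -, hsh⟩ := R.shape
  obtain ⟨C, hC, hb⟩ := bulkG
  refine ⟨δ0, hδ0, fun ρ hρ => ⟨C * (14 * S / ρ + 2) * (14 * S / ρ + 2) *
    (501 ^ 2 / 100 ^ 2 * ρ ^ 2 * (720 * (400 / ρ) ^ 6)), by positivity, ?_⟩⟩
  intro x hx hxρ δ hδ hδ0' hδw m hm hmw1 hmw2 Q g hg hQ hdet hall
  obtain ⟨w, hw⟩ : ∃ w : ℝ, w = Real.exp (-2 * x) := ⟨_, rfl⟩
  have hw0 : 0 < w := by rw [hw]; exact Real.exp_pos _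
  have hshape := hsh δ hδ hδ0'
  have hok := hshape.ok
  obtain ⟨K, hK⟩ : ∃ K : ℕ, K = ⌊ρ / (100 * w)⌋₊ := ⟨_, rfl⟩
  rw [← hw] at hxρ hδw hmw1 hmw2
  have hK2 : (K : ℝ) ≤ ρ / (100 * w) := by rw [hK]; exact Nat.floor_le (by positivity)
  have hK3 : ρ / (100 * w) < K + 1 := by rw [hK]; exact Nat.lt_floor_add_one _
  have hρw : 10 ≤ ρ / (100 * w) := by rw [le_div_iff₀ (by positivity)]; linarith
  have e4 : ρ / (400 * w) = (ρ / (100 * w)) / 4 := by field_simp; norm_num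
  have hK4 : ρ / (400 * w) ≤ (K : ℝ) - 1 := by rw [e4]; linarith
  have hK1R : (9 : ℝ) ≤ K := by linarith
  have hK1 : 1 ≤ K := by
    have : (1 : ℝ) ≤ K := by linarith
    exact_mod_cast this
  have hKw : (K : ℝ) * w ≤ ρ / 100 := by
    rw [le_div_iff₀ (by positivity)] at hK2
    linarith
  have hKw2 : ρ / 200 ≤ (K : ℝ) * w := by
    have h1 : ρ / (200 * w) ≤ K := by
      have e : ρ / (200 * w) = (ρ / (100 * w)) / 2 := by field_simp; norm_num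
      rw [e]; linarith
    rw [div_le_iff₀ (by positivity)] at h1
    linarith
  obtain ⟨RR, hRR⟩ : ∃ RR : ℤ, RR = 121 * m * K + m + 2 := ⟨_, rfl⟩
  obtain ⟨L, hL⟩ : ∃ L : ℤ, L = 3 * RR + 60 * m := ⟨_, rfl⟩
  have hx1 : Real.exp (-x) ≤ 1 := by
    rw [Real.exp_le_one_iff]; linarith
  have key := hb Q g hg (R.dm δ) m K (Real.exp (-x)) RR L hok hm hK1 hx1 hQ (hdet K)
    (by rw [hRR]) hL (hall _)
  have hmR : (0 : ℝ) < m := by
    have : 0 < m := by omega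
    exact_mod_cast this
  obtain ⟨md, hmd⟩ : ∃ md : ℝ, md = m * δ := ⟨_, rfl⟩
  rw [← hmd] at hmw1 hmw2
  have hRRr : (RR : ℝ) * δ = 121 * md * K + md + 2 * δ := by
    rw [hRR, hmd]; push_cast; ring
  have hLr : (L : ℝ) * δ = 3 * ((RR : ℝ) * δ) + 60 * md := by
    rw [hL, hmd]; push_cast; ring
  have hmdK : md * K ≤ ρ / 500 := by
    have h1 : 5 * md * K ≤ w * K := mul_le_mul_of_nonneg_right hmw2 (Nat.cast_nonneg _)
    linarith
  have hmdK2 : ρ / 4800 ≤ md * K := by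
    have h1 : w * K ≤ 24 * md * K := mul_le_mul_of_nonneg_right hmw1 (Nat.cast_nonneg _)
    linarith
  -- the deterministic part
  have hdet1 : ∀ F : Finset Edg, GBad g R δ ρ F → BBadG g (R.dm δ) RR (4 * L) F := by
    rintro F ⟨k, l, hkl, hl, h1, h2, h3⟩
    refine ⟨k, l, hkl, hl, ?_, ?_, h3⟩
    · have h4 := bd_ge (R := R) hδ ((R.dm δ).walk F k)
      have h5 : δ * ((4 * L : ℤ) : ℝ) ≤ δ * (((R.dm δ).bd ((R.dm δ).walk F k).1 : ℤ) : ℝ) := by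
        push_cast
        nlinarith
      exact_mod_cast le_of_mul_le_mul_left h5 hδ
    · refine det_far ?_
      have h4 := dist_pos_le hδ.le ((R.dm δ).walk F k) ((R.dm δ).walk F l)
      have h5 : δ * (RR : ℝ) ≤
          δ * ((sd ((R.dm δ).walk F k).1 ((R.dm δ).walk F l).1 : ℤ) : ℝ) := by
        nlinarith
      exact_mod_cast le_of_mul_le_mul_left h5 hδ
  have hP : R.prob δ (GBad g R δ ρ) ≤ P (R.dm δ).edges (fun F => BBadG g (R.dm δ) RR (4 * L) F) :=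
    Pr_mono (okq (by norm_num) (by norm_num)) (fun F _ h => hdet1 F h)
  refine hP.trans (key.trans ?_)
  -- the numerical part
  have hLδ : ρ / 14 ≤ (L : ℝ) * δ := by rw [hLr, hRRr]; nlinarith
  have hL0 : (0 : ℝ) < L := by
    have : 0 < (L : ℝ) * δ := by linarith [show 0 < ρ / 14 by positivity]
    exact (pos_iff_pos_of_mul_pos this).2 hδ
  have c1 : (((R.dm δ).r - (R.dm δ).l : ℤ) : ℝ) / L ≤ 14 * S / ρ := by
    rw [div_le_div_iff₀ hL0 hρ]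
    have h1 := hshape.w_le
    rw [le_div_iff₀ hδ] at h1
    have h2 : (((R.dm δ).r - (R.dm δ).l : ℤ) : ℝ) * δ * ρ ≤ S * ρ :=
      mul_le_mul_of_nonneg_right h1 hρ.le
    have h3 : 14 * S * (ρ / 14) ≤ 14 * S * (L * δ) :=
      mul_le_mul_of_nonneg_left hLδ (by positivity)
    have h4 : (((R.dm δ).r - (R.dm δ).l : ℤ) : ℝ) * ρ * δ ≤ 14 * S * L * δ := by linarith
    exact le_of_mul_le_mul_right h4 hδ
  have c2 : ((R.dm δ).h : ℝ) / L ≤ 14 * S / ρ := by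
    rw [div_le_div_iff₀ hL0 hρ]
    have h1 := hshape.h_le
    rw [le_div_iff₀ hδ] at h1
    have h2 : ((R.dm δ).h : ℝ) * δ * ρ ≤ S * ρ :=
      mul_le_mul_of_nonneg_right h1 hρ.le
    have h3 : 14 * S * (ρ / 14) ≤ 14 * S * (L * δ) :=
      mul_le_mul_of_nonneg_left hLδ (by positivity)
    have h4 : ((R.dm δ).h : ℝ) * ρ * δ ≤ 14 * S * L * δ := by linarith
    exact le_of_mul_le_mul_right h4 hδ
  have c0 : (0:ℝ) ≤ (((R.dm δ).r - (R.dm δ).l : ℤ) : ℝ) / L := by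
    refine div_nonneg ?_ hL0.le
    have h1 := hok.l_neg
    have h2 := hok.r_pos
    have : 0 ≤ (R.dm δ).r - (R.dm δ).l := by omega
    exact_mod_cast this
  have c0' : (0:ℝ) ≤ ((R.dm δ).h : ℝ) / L := by
    refine div_nonneg ?_ hL0.le
    have h1 := hok.h_pos
    exact_mod_cast h1.le
  have c3 : (L : ℝ) / m + 1 ≤ 501 * K := by
    have h5m : (5 : ℝ) ≤ m := by exact_mod_cast hm
    have e : (L : ℝ) = 363 * m * K + 63 * m + 6 := by
      rw [hL, hRR]; push_cast; ring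
    have h1 : (L : ℝ) / m ≤ 363 * K + 65 := by
      rw [div_le_iff₀ hmR, e]
      nlinarith
    linarith
  have c4 : ((L : ℝ) / m + 1) ^ 2 ≤ (501 * K) ^ 2 := by
    refine pow_le_pow_left₀ ?_ c3 2
    have : 0 ≤ (L : ℝ) / m := div_nonneg hL0.le hmR.le
    linarith
  rw [hw] at hK2 hK4
  have c5 := lat_exp hρ hK1 hK2 hK4
  rcases c5 with c5 | c5
  swap
  · exact absurd hx1 (not_le.2 c5)
  have hp0 : 0 ≤ (1 - Real.exp (-x)) ^ (K - 1) := pow_nonneg (by linarith) _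
  calc C * ((((R.dm δ).r - (R.dm δ).l : ℤ) : ℝ) / L + 2) * (((R.dm δ).h : ℝ) / L + 2) *
        ((L : ℝ) / m + 1) ^ 2 * (1 - Real.exp (-x)) ^ (K - 1)
      ≤ C * (14 * S / ρ + 2) * (14 * S / ρ + 2) * (501 * K) ^ 2 *
          (1 - Real.exp (-x)) ^ (K - 1) := by
        refine mul_le_mul_of_nonneg_right ?_ hp0
        refine mul_le_mul ?_ c4 (by positivity) (by positivity)
        refine mul_le_mul ?_ (by linarith) (by linarith) (by positivity)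
        exact mul_le_mul_of_nonneg_left (by linarith) hC.le
    _ = C * (14 * S / ρ + 2) * (14 * S / ρ + 2) * ((501 * K) ^ 2 *
          (1 - Real.exp (-x)) ^ (K - 1)) := by ring
    _ ≤ C * (14 * S / ρ + 2) * (14 * S / ρ + 2) *
        ((501 ^ 2 / 100 ^ 2 * ρ ^ 2 * (720 * (400 / ρ) ^ 6)) * Real.exp (-2 * x)) :=
        mul_le_mul_of_nonneg_left c5 (by positivity)
    _ = _ := by ring

end Pool.Agent.Y995.FS
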