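import Pool.Agent.Y995.FS.LimF
import Pool.Agent.H984R4.NP.Final2

/-!
Passage to the limit: Borel–Cantelli, scales, the lower bound for the modulus of continuity.
-/

set_option autoImplicit false
set_option linter.unusedVariables false

namespace Pool.Agent.Y995.FS

open H974 Finset H342P H984P H984N MeasureTheory Filter Topology

/-- Borel–Cantelli for the limits. -/
theorem bc (R : Rect) {K : ℝ} (hK : 1 ≤ K) {B : ℝ → ℕ → Set X} (hB : ∀ ρ j, IsOpen (B ρ j))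
    (hP : ∀ ρ : ℝ, 0 < ρ → ∃ (C1 : ℝ) (j1 : ℕ), 0 < C1 ∧ ∀ j : ℕ, j1 ≤ j →
      ∃ δ1 : ℝ, 0 < δ1 ∧ ∀ δ : ℝ, 0 < δ → δ ≤ δ1 →
        R.prob δ (fun F => (R.curve δ F, R.time δ F) ∈ B ρ j) ≤ C1 * Real.exp (-2 * (K * j)))
    {δ : ℕ → ℝ} (hδ : ∀ i, 0 < δ i) (hlim : Tendsto δ atTop (𝓝 0))
    {μ : ProbabilityMeasure X} (hμ : Tendsto (fun i => R.law (δ i)) atTop (𝓝 μ)) :
    ∀ᵐ p ∂(μ : Measure X), ∀ i : ℕ, ∀ᶠ j in atTop, p ∉ B (1 / ((i : ℝ) + 1)) j := by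
  rw [ae_all_iff]
  intro i
  obtain ⟨C1, j1, hC1, h1⟩ := hP (1 / ((i : ℝ) + 1)) (by positivity)
  have h2 : ∀ j : ℕ, (μ : Measure X) (B (1 / ((i : ℝ) + 1)) (j + j1)) ≤
      ENNReal.ofReal (C1 * Real.exp (-2 * (K * ((j + j1 : ℕ) : ℝ)))) := by
    intro j
    obtain ⟨δ1, hδ1, h3⟩ := h1 (j + j1) (by omega)
    have h4 := limit_closed R hδ hlim hμ (G := (B (1 / ((i : ℝ) + 1)) (j + j1))ᶜ)
      (hB _ _).isClosed_compl (ε := C1 * Real.exp (-2 * (K * ((j + j1 : ℕ) : ℝ))))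
      (by positivity) hδ1 (fun d hd hd' => by
        have := h3 d hd hd'
        simpa only [Set.mem_compl_iff, not_not] using this)
    rwa [compl_compl] at h4
  have h3 : ∑' j : ℕ, (μ : Measure X) (B (1 / ((i : ℝ) + 1)) (j + j1)) ≠ ⊤ := by
    have h4 : Summable (fun j : ℕ => C1 * (Real.exp (-2 * K)) ^ (j + j1)) := by
      have h5 : Summable (fun j : ℕ => (Real.exp (-2 * K)) ^ j) := by
        refine summable_geometric_of_lt_one (Real.exp_pos _).le ?_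
        rw [Real.exp_lt_one_iff]
        linarith
      exact ((summable_nat_add_iff j1).2 h5).mul_left C1
    refine ne_top_of_le_ne_top ?_ (ENNReal.tsum_le_tsum h2)
    have h6 : (fun j : ℕ => ENNReal.ofReal (C1 * Real.exp (-2 * (K * ((j + j1 : ℕ) : ℝ))))) =
        fun j : ℕ => ENNReal.ofReal (C1 * (Real.exp (-2 * K)) ^ (j + j1)) := by
      funext j
      congr 2
      rw [← Real.exp_nat_mul]
      congr 1
      ring
    rw [h6, ← ENNReal.ofReal_tsum_of_nonneg (fun j => by positivity) h4]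
    exact ENNReal.ofReal_ne_top
  filter_upwards [ae_eventually_notMem h3] with p hp
  rw [eventually_atTop] at hp ⊢
  obtain ⟨a, ha⟩ := hp
  refine ⟨a + j1, fun j hj => ?_⟩
  have := ha (j - j1) (by omega)
  rwa [Nat.sub_add_cancel (by omega)] at this

theorem dimH_line (f : ℝ → ℂ) (hf : Isometry f) : dimH (f '' Set.univ) = 1 := by
  rw [hf.dimH_image, Real.dimH_univ]

/-- The boundary of the rectangle has dimension at most one. -/
theorem dimH_bdry (R : Rect) : dimH (closure R.D ∩ {z | dep R z ≤ 0}) ≤ 1 := by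
  have i1 : ∀ c : ℝ, Isometry (fun y : ℝ => (⟨c, y⟩ : ℂ)) := by
    intro c
    refine Isometry.of_dist_eq fun x y => ?_
    exact Complex.dist_of_re_eq rfl
  have i2 : ∀ c : ℝ, Isometry (fun y : ℝ => (⟨y, c⟩ : ℂ)) := by
    intro c
    refine Isometry.of_dist_eq fun x y => ?_
    exact Complex.dist_of_im_eq rfl
  have hcl : closure R.D ⊆ {z | (-R.A ≤ z.re ∧ z.re ≤ R.B) ∧ (0 ≤ z.im ∧ z.im ≤ R.H)} := by
    refine closure_minimal ?_ ?_
    · rintro z ⟨h1, h2, h3, h4⟩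
      exact ⟨⟨h1.le, h2.le⟩, h3.le, h4.le⟩
    · exact ((isClosed_le continuous_const Complex.continuous_re).inter
        (isClosed_le Complex.continuous_re continuous_const)).inter
        ((isClosed_le continuous_const Complex.continuous_im).inter
        (isClosed_le Complex.continuous_im continuous_const))
  have hsub : closure R.D ∩ {z | dep R z ≤ 0} ⊆
      (((fun y : ℝ => (⟨-R.A, y⟩ : ℂ)) '' Set.univ) ∪ ((fun y : ℝ => (⟨R.B, y⟩ : ℂ)) '' Set.univ)) ∪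
      (((fun y : ℝ => (⟨y, 0⟩ : ℂ)) '' Set.univ) ∪ ((fun y : ℝ => (⟨y, R.H⟩ : ℂ)) '' Set.univ)) := by
    rintro z ⟨h1, h2⟩
    obtain ⟨⟨a1, a2⟩, a3, a4⟩ := hcl h1
    change min (min (z.re + R.A) (R.B - z.re)) (min z.im (R.H - z.im)) ≤ 0 at h2
    rw [min_le_iff, min_le_iff, min_le_iff] at h2
    rcases h2 with (h2 | h2) | (h2 | h2)
    · left; left
      refine ⟨z.im, trivial, Complex.ext ?_ rfl⟩
      simp only; linarith
    · left; right
      refine ⟨z.im, trivial, Complex.ext ?_ rfl⟩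
      simp only; linarith
    · right; left
      refine ⟨z.re, trivial, Complex.ext rfl ?_⟩
      simp only; linarith
    · right; right
      refine ⟨z.re, trivial, Complex.ext rfl ?_⟩
      simp only; linarith
  refine (dimH_mono hsub).trans ?_
  rw [dimH_union, dimH_union, dimH_union, dimH_line _ (i1 _), dimH_line _ (i1 _),
    dimH_line _ (i2 _), dimH_line _ (i2 _)]
  simp

/-- Every subarc has a piece in the bulk. -/
theorem sub_arc {R : Rect} {f : C(unitInterval, ℂ)} (hcl : ∀ s : unitInterval, f s ∈ closure R.D)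
    (hd : ∀ s t : unitInterval, s < t → dimH (f '' Set.Icc s t) = 7 / 4) {s t : unitInterval}
    (hst : s < t) : ∃ (s' t' : unitInterval) (i : ℕ), s ≤ s' ∧ s' < t' ∧ t' ≤ t ∧
      5 * (1 / ((i : ℝ) + 1)) < dep R (f s') ∧ 1 / ((i : ℝ) + 1) < dist (f s') (f t') := by
  have h74 : (1 : ENNReal) < 7 / 4 := by
    rw [ENNReal.lt_div_iff_mul_lt (Or.inl (by norm_num)) (Or.inl (by norm_num))]
    norm_num
  obtain ⟨t1, h1, h2⟩ := exists_between hst
  obtain ⟨s', hs1, hs2, hs3⟩ : ∃ s' : unitInterval, s ≤ s' ∧ s' ≤ t1 ∧ 0 < dep R (f s') := by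
    by_contra hcon
    push Not at hcon
    have h3 : f '' Set.Icc s t1 ⊆ closure R.D ∩ {z | dep R z ≤ 0} := by
      rintro _ ⟨u, hu, rfl⟩
      exact ⟨hcl u, hcon u hu.1 hu.2⟩
    have h4 := (dimH_mono h3).trans (dimH_bdry R)
    rw [hd s t1 h1] at h4
    exact absurd h74 (not_lt.2 h4)
  have hs4 : s' < t := lt_of_le_of_lt hs2 h2
  obtain ⟨t', ht1, ht2, ht3⟩ : ∃ t' : unitInterval, s' ≤ t' ∧ t' ≤ t ∧ f t' ≠ f s' := by
    by_contra hcon
    push Not at hcon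
    have h3 : f '' Set.Icc s' t ⊆ {f s'} := by
      rintro _ ⟨u, hu, rfl⟩
      exact hcon u hu.1 hu.2
    have h4 := dimH_mono h3
    rw [hd s' t hs4, dimH_singleton] at h4
    exact absurd (lt_of_lt_of_le (lt_trans zero_lt_one h74) h4) (lt_irrefl _)
  have hne : s' ≠ t' := fun h => ht3 (by rw [h])
  have hdist : 0 < dist (f s') (f t') := dist_pos.2 (fun h => ht3 h.symm)
  obtain ⟨i, hi⟩ := exists_nat_one_div_lt (lt_min (show 0 < dep R (f s') / 5 by positivity) hdist)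
  refine ⟨s', t', i, hs1, lt_of_le_of_ne ht1 hne, ht2, ?_, lt_of_lt_of_le hi (min_le_right _ _)⟩
  have := lt_of_lt_of_le hi (min_le_left _ _)
  linarith

/-- the scales -/
theorem scale_fast {θ K : ℝ} (hθ : 0 < θ) (hK : 1 ≤ K) : ∃ c : ℝ, 0 < c ∧ ∀ j0 : ℕ,
    ∃ h0 : ℝ, 0 < h0 ∧ ∀ h : ℝ, 0 < h → h < h0 → ∃ j : ℕ, j0 ≤ j ∧
      θ * ((j : ℝ) ^ (-(3/4) : ℝ) * (Real.exp (-2 * (K * j))) ^ (7/4 : ℝ)) ≤ h ∧
      c * (h ^ (4/7 : ℝ) * Real.log (1 / h) ^ (3/7 : ℝ)) ≤ Real.exp (-2 * (K * j)) := by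
  obtain ⟨τ, hτ⟩ : ∃ τ : ℕ → ℝ, τ = fun j : ℕ =>
    θ * ((j : ℝ) ^ (-(3/4) : ℝ) * (Real.exp (-2 * (K * j))) ^ (7/4 : ℝ)) := ⟨_, rfl⟩
  obtain ⟨B, hB⟩ : ∃ B : ℝ, B = |Real.log θ| + 1 + 7/2 * K := ⟨_, rfl⟩
  have hB0 : 0 < B := by have := abs_nonneg (Real.log θ); linarith
  have hτ0 : ∀ j : ℕ, 1 ≤ j → 0 < τ j := by
    intro j hj
    have : (0 : ℝ) < j := by exact_mod_cast hj
    rw [hτ]
    simp only
    positivity
  have hτlim : Tendsto τ atTop (𝓝 0) := by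
    have h1 : Tendsto (fun j : ℕ => θ * (Real.exp (-2 * K)) ^ j) atTop (𝓝 0) := by
      have h2 : Tendsto (fun j : ℕ => (Real.exp (-2 * K)) ^ j) atTop (𝓝 0) :=
        tendsto_pow_atTop_nhds_zero_of_lt_one (Real.exp_pos _).le (by
          rw [Real.exp_lt_one_iff]; linarith)
      have h3 := h2.const_mul θ
      rwa [mul_zero] at h3
    refine squeeze_zero' ?_ ?_ h1
    · filter_upwards [eventually_ge_atTop 1] with j hj using (hτ0 j hj).le
    · filter_upwards [eventually_ge_atTop 1] with j hj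
      have hj1 : (1 : ℝ) ≤ j := by exact_mod_cast hj
      rw [hτ]
      simp only
      refine mul_le_mul_of_nonneg_left ?_ hθ.le
      have h2 : (j : ℝ) ^ (-(3/4) : ℝ) ≤ 1 := Real.rpow_le_one_of_one_le_of_nonpos hj1 (by norm_num)
      have h3 : (Real.exp (-2 * (K * j))) ^ (7/4 : ℝ) ≤ (Real.exp (-2 * K)) ^ j := by
        rw [← Real.exp_mul, ← Real.exp_nat_mul]
        refine Real.exp_le_exp.mpr ?_
        nlinarith
      calc (j : ℝ) ^ (-(3/4) : ℝ) * (Real.exp (-2 * (K * j))) ^ (7/4 : ℝ)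
          ≤ 1 * (Real.exp (-2 * K)) ^ j :=
            mul_le_mul h2 h3 (by positivity) (by norm_num)
        _ = _ := one_mul _
  obtain ⟨c, hc⟩ : ∃ c : ℝ, c = (θ ^ (4/7 : ℝ) * Real.exp (2 * K) * (2 * B) ^ (3/7 : ℝ))⁻¹ :=
    ⟨_, rfl⟩
  have hc0 : 0 < c := by rw [hc]; positivity
  refine ⟨c, hc0, fun j0 => ?_⟩
  refine ⟨min (τ (j0 + 1)) 1, lt_min (hτ0 _ (by omega)) one_pos, fun h hh hh0 => ?_⟩
  have hh1 : h < τ (j0 + 1) := lt_of_lt_of_le hh0 (min_le_left _ _)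
  have hh2 : h < 1 := lt_of_lt_of_le hh0 (min_le_right _ _)
  have hex : ∃ j : ℕ, j0 + 1 < j ∧ τ j ≤ h := by
    have h1 := hτlim.eventually (gt_mem_nhds hh)
    obtain ⟨j, hj⟩ := (h1.and (eventually_gt_atTop (j0 + 1))).exists
    exact ⟨j, hj.2, hj.1.le⟩
  classical
  obtain ⟨j, hj⟩ : ∃ j, j = Nat.find hex := ⟨_, rfl⟩
  have hj1 := Nat.find_spec hex
  rw [← hj] at hj1
  have hj2 : h < τ (j - 1) := by
    by_cases hcase : j - 1 = j0 + 1
    · rw [hcase]; exact hh1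
    · have hmin := Nat.find_min hex (m := j - 1) (by omega)
      push Not at hmin
      exact hmin (by omega)
  refine ⟨j, by omega, ?_, ?_⟩
  · have := hj1.2; rw [hτ] at this; exact this
  obtain ⟨y, hy⟩ : ∃ y : ℝ, y = ((j - 1 : ℕ) : ℝ) := ⟨_, rfl⟩
  have hy1 : 1 ≤ y := by
    have : 1 ≤ j - 1 := by omega
    rw [hy]; exact_mod_cast this
  have hy0 : 0 < y := by linarith
  have hjy : (j : ℝ) = y + 1 := by
    rw [hy, Nat.cast_sub (by omega)]; push_cast; ring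
  have hj0' : (0 : ℝ) < j := by rw [hjy]; linarith
  have hjge : (1 : ℝ) ≤ j := by rw [hjy]; linarith
  have hlog : Real.log (1 / h) ≤ B * j := by
    have h1 : 1 / h ≤ 1 / τ j := one_div_le_one_div_of_le (hτ0 j (by omega)) hj1.2
    have h2 := Real.log_le_log (by positivity) h1
    refine h2.trans ?_
    rw [one_div, Real.log_inv, hτ]
    simp only
    rw [Real.log_mul hθ.ne' (by positivity), Real.log_mul (by positivity) (by positivity),
      Real.log_rpow hj0', Real.log_rpow (Real.exp_pos _), Real.log_exp, hB]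
    have h3 := neg_abs_le (Real.log θ)
    have h4 : Real.log j ≤ j := (Real.log_le_sub_one_of_pos hj0').trans (by linarith)
    have h5 : |Real.log θ| ≤ |Real.log θ| * j := by
      have := abs_nonneg (Real.log θ)
      nlinarith
    nlinarith
  have hlog0 : 0 ≤ Real.log (1 / h) := by
    refine Real.log_nonneg ?_
    rw [le_div_iff₀ hh]; linarith
  have h1 : h ^ (4/7 : ℝ) ≤ θ ^ (4/7 : ℝ) * (y ^ (-(3/7) : ℝ) *
      (Real.exp (2 * K) * Real.exp (-2 * (K * j)))) := by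
    have h2 : h ^ (4/7 : ℝ) ≤ (τ (j - 1)) ^ (4/7 : ℝ) :=
      Real.rpow_le_rpow hh.le hj2.le (by norm_num)
    refine h2.trans (le_of_eq ?_)
    rw [hτ]
    simp only
    rw [← hy, Real.mul_rpow hθ.le (by positivity), Real.mul_rpow (by positivity) (by positivity),
      ← Real.rpow_mul hy0.le, ← Real.rpow_mul (Real.exp_pos _).le, ← Real.exp_add]
    congr 2
    · norm_num
    · rw [show (7/4 * (4/7) : ℝ) = 1 by norm_num, Real.rpow_one]
      congr 1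
      rw [hjy]; ring
  have h2 : Real.log (1 / h) ^ (3/7 : ℝ) ≤ (2 * B) ^ (3/7 : ℝ) * y ^ (3/7 : ℝ) := by
    rw [← Real.mul_rpow (by positivity) hy0.le]
    refine Real.rpow_le_rpow hlog0 (hlog.trans ?_) (by norm_num)
    rw [hjy]
    nlinarith
  have h3 : y ^ (-(3/7) : ℝ) * y ^ (3/7 : ℝ) = 1 := by
    rw [← Real.rpow_add hy0]; norm_num
  have h4 : h ^ (4/7 : ℝ) * Real.log (1 / h) ^ (3/7 : ℝ) ≤
      (θ ^ (4/7 : ℝ) * Real.exp (2 * K) * (2 * B) ^ (3/7 : ℝ)) * Real.exp (-2 * (K * j)) := by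
    calc h ^ (4/7 : ℝ) * Real.log (1 / h) ^ (3/7 : ℝ)
        ≤ (θ ^ (4/7 : ℝ) * (y ^ (-(3/7) : ℝ) * (Real.exp (2 * K) * Real.exp (-2 * (K * j))))) *
          ((2 * B) ^ (3/7 : ℝ) * y ^ (3/7 : ℝ)) :=
          mul_le_mul h1 h2 (Real.rpow_nonneg hlog0 _) (by positivity)
      _ = (θ ^ (4/7 : ℝ) * Real.exp (2 * K) * (2 * B) ^ (3/7 : ℝ)) * Real.exp (-2 * (K * j)) *
          (y ^ (-(3/7) : ℝ) * y ^ (3/7 : ℝ)) := by ring
      _ = _ := by rw [h3, mul_one]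
  rw [hc]
  rw [inv_mul_le_iff₀ (by positivity)]
  exact h4

/-- The lower bound for the modulus of continuity, on every subarc. -/
theorem mod_low {c C C2 : ℝ} (hc : 0 < c) (hC : 0 < C) (hL : LowA c (1/4))
    (hU : TwoUp C (1/4)) (hC2 : 0 < C2) (hA : AnnUp C2) (R : Rect) :
    ∃ c1 : ℝ, 0 < c1 ∧ ∀ δ : ℕ → ℝ, (∀ i, 0 < δ i) → Tendsto δ atTop (𝓝 0) →
      ∀ μ : ProbabilityMeasure X, Tendsto (fun i => R.law (δ i)) atTop (𝓝 μ) →
      ∀ᵐ p ∂(μ : Measure X), ∀ s t : unitInterval, s < t → ∃ h0 : ℝ, 0 < h0 ∧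
        ∀ h : ℝ, 0 < h → h < h0 → ∃ u v : unitInterval, s ≤ u ∧ u ≤ v ∧ v ≤ t ∧
          ((v : ℝ) - u) * p.2 ≤ h ∧
          c1 * (h ^ (4/7 : ℝ) * Real.log (1 / h) ^ (3/7 : ℝ)) ≤ dist (p.1 u) (p.1 v) := by
  obtain ⟨θ, K2, hθ, hK2, hlat⟩ := fast_lat hc hC hL hU R
  obtain ⟨c1, hc1, hsc⟩ := scale_fast hθ hK2
  obtain ⟨-, -, h3⟩ := final_of hc hC hL hU hC2 hA R
  refine ⟨c1, hc1, fun δ hδ hlim μ hμ => ?_⟩
  have hbc := bc R hK2 (B := fun ρ j => BadF R ρ (Real.exp (-2 * (K2 * j)))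
    (θ * ((j : ℝ) ^ (-(3/4) : ℝ) * (Real.exp (-2 * (K2 * j))) ^ (7/4 : ℝ))))
    (fun ρ j => badF_open _ _ _ _) (fun ρ hρ => by
      obtain ⟨C1, hC1, h1⟩ := hlat ρ hρ
      obtain ⟨j1, hj1⟩ : ∃ j1 : ℕ, ∀ j : ℕ, j1 ≤ j → 1000 * Real.exp (-2 * (K2 * j)) ≤ ρ := by
        have h2 : Tendsto (fun j : ℕ => 1000 * (Real.exp (-2 * K2)) ^ j) atTop (𝓝 0) := by
          have h2 : Tendsto (fun j : ℕ => (Real.exp (-2 * K2)) ^ j) atTop (𝓝 0) :=
            tendsto_pow_atTop_nhds_zero_of_lt_one (Real.exp_pos _).le (by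
              rw [Real.exp_lt_one_iff]; linarith)
          have h3 := h2.const_mul 1000
          rwa [mul_zero] at h3
        obtain ⟨j1, hj1⟩ := eventually_atTop.1 (h2.eventually (ge_mem_nhds hρ))
        refine ⟨j1, fun j hj => ?_⟩
        have h4 := hj1 j hj
        rw [← Real.exp_nat_mul] at h4
        have e : (j : ℝ) * (-2 * K2) = -2 * (K2 * j) := by ring
        rwa [e] at h4
      exact ⟨C1, max j1 1, hC1, fun j hj => h1 j (le_trans (le_max_right _ _) hj)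
        (hj1 j (le_trans (le_max_left _ _) hj))⟩) hδ hlim hμ
  filter_upwards [h3 δ hδ hlim μ hμ, hbc] with p hp hb
  obtain ⟨hp0, -, -, hcl, -, hdim⟩ := hp
  intro s t hst
  obtain ⟨s', t', i, g1, g2, g3, g4, g5⟩ := sub_arc hcl hdim hst
  obtain ⟨j0, hj0⟩ := eventually_atTop.1 (hb i)
  obtain ⟨h0, hh0, hh⟩ := hsc j0
  refine ⟨h0, hh0, fun h hpos hlt => ?_⟩
  obtain ⟨j, hj, e1, e2⟩ := hh h hpos hlt
  have hnb := hj0 j hj
  by_contra hcon
  push Not at hcon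
  apply hnb
  refine ⟨s', t', g2, g4, g5, fun u v hu huv hv => ?_⟩
  by_contra hcon2
  push Not at hcon2
  obtain ⟨a1, a2⟩ := hcon2
  have h5 := hcon u v (g1.trans hu) huv (hv.trans g3) (a2.trans e1)
  linarith

end Pool.Agent.Y995.FS
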