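import Pool.Agent.Y995.FS.BulkG

/-!
Vertices with separated arms in front of the tip are seen by the strand.
-/

set_option autoImplicit false

namespace Pool.Agent.Y995.FS

open H974 Finset H342P H984P H984N

/-- `v` is connected to the strand by open edges and its north-east face by closed edges. -/
def Seen (A y0 X Y : ℤ) (T m : ℕ) (F : Set Edg) (v : Vtx) : Prop :=
  Reach (F ∩ ↑(Exm F (st0 A y0) T ∪ Bl X Y m)) (st0 A y0).1 v ∧
    DReach (↑(Exm F (st0 A y0) T ∪ Bl X Y m) \ F) (face (st0 A y0)) v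

/-- an open path in the block which meets the lower strip vertically is connected to the strand -/
theorem attL {F : Set Edg} {A y0 X Y : ℤ} {T a m : ℕ} (ha : 1 ≤ a) (ham : a ≤ m)
    (hL : BaseL A y0 X Y T a m F) {V : Finset Edg} {p q : ℤ} (hpq : p < q)
    (hp : X + 8 * a ≤ p) (hq : q ≤ X + 56 * m) (hV : V ⊆ Bl X Y m)
    (hV1 : ∀ x y, ((x, y, false) : Edg) ∈ V → Y - 8 * a ≤ y → y < Y - 4 * a → p ≤ x ∧ x ≤ q)
    (hV2 : ∀ x y, ((x, y, true) : Edg) ∈ V → Y - 8 * a < y → y < Y - 4 * a → p ≤ x ∧ x < q)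
    {w v : Vtx} (hw : w.2 ≤ Y - 8 * a) (hv : Y - 4 * a ≤ v.2) (hr : Reach (F ∩ ↑V) w v) :
    Reach (F ∩ ↑(Exm F (st0 A y0) T ∪ Bl X Y m)) (st0 A y0).1 v := by
  have ha' : (1 : ℤ) ≤ a := by exact_mod_cast ha
  have ham' : (a : ℤ) ≤ m := by exact_mod_cast ham
  obtain ⟨yb, yc, hyb, hyc, hR1, c, ⟨s, hs, rfl⟩, hR2⟩ := hL
  have e1 : Reach (F ∩ ↑(Bl X Y m)) w (X + 8 * a, yc) := by
    refine meet_gen (p := p) (q := q) (c := Y - 8 * a) (d := Y - 4 * a)
      hpq (by omega) (V := V) (Hh := LSm X Y a m) hV ?_ ?_ hV1 hV2 ?_ ?_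
      hr hw hv hR1 (by simp only; omega) (by simp only; omega)
    · rintro ⟨x, y, _ | _⟩ h
      · simp only [LSm, Bl, mem_RE_false, mem_LRE_false] at h ⊢; omega
      · simp only [LSm, Bl, mem_RE_true, mem_LRE_true] at h ⊢; omega
    · rintro ⟨x, y, _ | _⟩ h
      · simp only [Bl, mem_RE_false] at h ⊢; omega
      · simp only [Bl, mem_RE_true] at h ⊢; omega
    · intro x y h; simp only [LSm, mem_LRE_true] at h; omega
    · intro x y h; simp only [LSm, mem_LRE_false] at h; omega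
  have e2 : Reach (F ∩ ↑(Bl X Y m)) w v := hr.mono (by
    rintro e ⟨h0, h⟩
    exact ⟨h0, hV h⟩)
  have e4 := orb_reach (F := F) (W := ↑(Exm F (st0 A y0) T)) (σ := st0 A y0)
    (T := T) (fun s hs => by exact_mod_cast mem_Exm.mpr ⟨s, hs, rfl⟩) hs
  have e5 : Reach (F ∩ ↑(Bl X Y m)) (orb F (st0 A y0) s).1 v :=
    (hR2.symm.trans e1.symm).trans e2
  refine (e4.mono ?_).trans (e5.mono ?_)
  · rintro e ⟨h0, h⟩
    exact ⟨h0, by simp only [Finset.coe_union]; exact Or.inl h⟩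
  · rintro e ⟨h0, h⟩
    exact ⟨h0, by simp only [Finset.coe_union]; exact Or.inr h⟩

/-- the same for closed dual paths and the upper strip -/
theorem attU {F : Set Edg} {A y0 X Y : ℤ} {T a m : ℕ} (ha : 1 ≤ a) (ham : a ≤ m)
    (hU : BaseU A y0 X Y T a m F) {V : Finset Edg} {p q : ℤ} (hpq : p < q)
    (hp : X + 8 * a ≤ p) (hq : q ≤ X + 56 * m)
    (hV : V ⊆ RE (X - 59 * m) (X + 59 * m) (Y - 59 * m) (Y + 59 * m))
    (hV1 : ∀ x y, ((x, y, false) : Edg) ∈ V → Y + 4 * a ≤ y → y < Y + 8 * a → p ≤ x ∧ x ≤ q)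
    (hV2 : ∀ x y, ((x, y, true) : Edg) ∈ V → Y + 4 * a < y → y < Y + 8 * a → p ≤ x ∧ x < q)
    {v g : Vtx} (hv : v.2 ≤ Y + 4 * a) (hg : Y + 8 * a ≤ g.2) (hr : DReach (dE V \ F) v g) :
    DReach (↑(Exm F (st0 A y0) T ∪ Bl X Y m) \ F) (face (st0 A y0)) v := by
  have ha' : (1 : ℤ) ≤ a := by exact_mod_cast ha
  have ham' : (a : ℤ) ≤ m := by exact_mod_cast ham
  obtain ⟨yb, yc, hyb, hyc, hR1, c, ⟨s, hs, rfl⟩, hR2⟩ := hU
  set H : Set Edg := dl '' Fᶜ with hH
  have conv : ∀ V : Finset Edg, dl '' (dE V \ F) ⊆ H ∩ ↑V := by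
    rintro V _ ⟨e, ⟨he1, he2⟩, rfl⟩
    exact ⟨⟨e, he2, rfl⟩, he1⟩
  set S : Finset Edg := RE (X - 59 * m) (X + 59 * m) (Y - 59 * m) (Y + 59 * m) with hS
  have back : ∀ u w : Vtx, Reach (H ∩ ↑S) u w → DReach (↑(Bl X Y m) \ F) u w := by
    intro u w h
    rw [← reach_dl]
    refine h.mono ?_
    rintro _ ⟨⟨e, he, rfl⟩, he2⟩
    exact ⟨e, ⟨dE_sub (by omega) (Finset.Subset.refl _) he2, he⟩, rfl⟩
  have a1 : Reach (H ∩ ↑V) v g := (reach_dl.mpr hr).mono (conv _)
  have a2 : Reach (H ∩ ↑(USm X Y a m)) (X + 8 * a, yc) (X + 56 * m, yb) :=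
    (reach_dl.mpr hR1).mono (conv _)
  have e1 : Reach (H ∩ ↑S) v (X + 8 * a, yc) := by
    refine meet_gen (p := p) (q := q) (c := Y + 4 * a) (d := Y + 8 * a)
      hpq (by omega) (V := V) (Hh := USm X Y a m) hV ?_ ?_ hV1 hV2 ?_ ?_
      a1 hv hg a2 (by simp only; omega) (by simp only; omega)
    · rintro ⟨x, y, _ | _⟩ h
      · simp only [USm, hS, mem_RE_false, mem_LRE_false] at h ⊢; omega
      · simp only [USm, hS, mem_RE_true, mem_LRE_true] at h ⊢; omega
    · rintro ⟨x, y, _ | _⟩ h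
      · simp only [hS, mem_RE_false] at h ⊢; omega
      · simp only [hS, mem_RE_true] at h ⊢; omega
    · intro x y h; simp only [USm, mem_LRE_true] at h; omega
    · intro x y h; simp only [USm, mem_LRE_false] at h; omega
  have e4 := orb_dreach (F := F) (W := ↑(Exm F (st0 A y0) T)) (σ := st0 A y0)
    (T := T) (fun s hs => by exact_mod_cast mem_Exm.mpr ⟨s, hs, rfl⟩) hs
  have e5 : DReach (↑(Bl X Y m) \ F) (face (orb F (st0 A y0) s)) v :=
    hR2.symm.trans (back _ _ e1).symm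
  refine (e4.mono ?_).trans (e5.mono ?_)
  · rintro e ⟨h0, h⟩
    exact ⟨by simp only [Finset.coe_union]; exact Or.inl h0, h⟩
  · rintro e ⟨h0, h⟩
    exact ⟨by simp only [Finset.coe_union]; exact Or.inr h0, h⟩

/-- seen vertices are visited before the strand reaches the next line -/
theorem seen_exm {F : Set Edg} {A y0 X Y X' Y' : ℤ} {T T' m : ℕ}
    (hst' : Strand F A y0 X' Y' T') (hT : T ≤ T') (hX' : X + 60 * m < X')
    (hA : A + 60 * m ≤ X) {v : Vtx} (hv : A ≤ v.1 ∧ v.1 < X')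
    (h : Seen A y0 X Y T m F v) : ∃ t < T', ae (orb F (st0 A y0) t) = (v.1, v.2, true) := by
  obtain ⟨hv', hf, hS⟩ := side_exists hst'
  have hmono : Exm F (st0 A y0) T ⊆ Exm F (st0 A y0) T' := it_exm_mono hT
  have hWA : (↑(Exm F (st0 A y0) T ∪ Bl X Y m) : Set Edg) ⊆ Adm F A y0 X' Y' T' := by
    intro e he
    rw [Finset.mem_coe, Finset.mem_union] at he
    rcases he with he | he
    · have h1 := exm_loc hst' (hmono he)
      exact ⟨Or.inr (hmono he), fun h2 => by omega⟩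
    · have h1 : A ≤ e.1 ∧ e.1 < X' := by
        obtain ⟨x, y, _ | _⟩ := e
        · rw [Bl, mem_RE_false] at he; simp only; omega
        · rw [Bl, mem_RE_true] at he; simp only; omega
      exact ⟨Or.inl h1.1, fun h2 => by omega⟩
  have h0 := hS.strand 0 (Nat.zero_le _)
  rw [orb_zero] at h0
  have e1 := hv_reach hS hWA h.1
  have e2 := hf_reach hS hWA h.2
  have key : ((v.1, v.2, true) : Edg) ∈ Exm F (st0 A y0) T' := by
    by_contra hne
    have h3 := (hS.free (v.1, v.2, true) hne hv.1 (fun h4 => by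
      have := h4.1
      simp only at this
      omega)).2.2
    simp only [src_mk, dtgt_mk] at h3
    have e3 : ((v.1, v.2) : Vtx) = v := rfl
    rw [e3, ← e1, ← e2, h0.1, h0.2] at h3
    exact absurd h3 (by decide)
  rw [mem_Exm] at key
  exact key

/-- a state which examines the edge to the right of `v` is at `v` or at its right neighbour -/
theorem ae_at {σ : St} {v : Vtx} (h : ae σ = (v.1, v.2, true)) :
    (σ.1 = v ∧ face σ = v) ∨ (σ.1 = (v.1 + 1, v.2) ∧ face σ = (v.1, v.2 - 1)) := by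
  obtain ⟨⟨x, y⟩, q⟩ := σ
  obtain ⟨v1, v2⟩ := v
  cases q
  · left
    simp only [ae_ne, Prod.mk.injEq, and_true] at h
    obtain ⟨rfl, rfl⟩ := h
    exact ⟨rfl, rfl⟩
  · simp at h
  · right
    simp only [ae_sw, Prod.mk.injEq, and_true] at h
    obtain ⟨h1, rfl⟩ := h
    refine ⟨?_, ?_⟩
    · show (x, y) = (v1 + 1, y)
      rw [← h1]; simp
    · rw [face_sw, h1]
  · simp at h

end Pool.Agent.Y995.FS
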