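import Pool.Agent.Y995.FS.LowG

/-!
Every macroscopic piece of the exploration path in the bulk is good.
-/

set_option autoImplicit false

namespace Pool.Agent.Y995.FS

open H974 Finset H342P H984P H984N

/-- A piece of extent `R` which starts in the bulk and is not good. -/
def BBadG (g : (ℕ → Vtx) → ℕ → Prop) (D : Dm) (R D0 : ℤ) (F : Finset Edg) : Prop :=
  ∃ k l : ℕ, k ≤ l ∧ l ≤ D.len F ∧ D0 ≤ D.bd (D.walk F k).1 ∧
    Far (D.walk F k).1 R (D.walk F l).1 ∧ ¬ g (fun s => (D.walk F (k + s)).1) (l - k)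

theorem bulk_detG {g : (ℕ → Vtx) → ℕ → Prop} (hg : PGood g) {D : Dm} {R L : ℤ} (hR : 1 ≤ R)
    (hRL : 3 * R ≤ L) {F : Finset Edg} (h : BBadG g D R (4 * L) F) :
    ∃ i ∈ Finset.range (((D.r - D.l) / L).toNat + 1), ∃ j ∈ Finset.range ((D.h / L).toNat + 1),
      RE (D.l + i * L) (D.l + i * L + 4 * L) (j * L) (j * L + 4 * L) ⊆ D.edges ∧
        sqG g R L (D.l + i * L) (j * L) F := by
  classical
  obtain ⟨k, l0, hkl, hl0, hbd, hfar, hlM⟩ := h
  have hL : 0 < L := by omega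
  set v := (D.walk F k).1 with hv
  unfold Dm.bd at hbd
  rw [le_min_iff, le_min_iff, le_min_iff] at hbd
  obtain ⟨⟨b1, b2⟩, b3, b4⟩ := hbd
  -- the square
  obtain ⟨i, hi1, hi2, hi3⟩ : ∃ i : ℕ, i ∈ Finset.range (((D.r - D.l) / L).toNat + 1) ∧
      2 * L ≤ v.1 - (D.l + i * L) ∧ v.1 - (D.l + i * L) < 3 * L := by
    have q1 : L * ((v.1 - D.l) / L) ≤ v.1 - D.l := Int.mul_ediv_self_le hL.ne'
    have q2 : v.1 - D.l < L * ((v.1 - D.l) / L) + L := Int.lt_mul_ediv_self_add hL
    have q3 : 4 ≤ (v.1 - D.l) / L := by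
      rw [Int.le_ediv_iff_mul_le hL]
      omega
    have q4 : (v.1 - D.l) / L ≤ (D.r - D.l) / L := Int.ediv_le_ediv hL (by omega)
    refine ⟨((v.1 - D.l) / L - 2).toNat, ?_, ?_, ?_⟩
    · rw [Finset.mem_range]
      omega
    · have e : ((((v.1 - D.l) / L - 2).toNat : ℕ) : ℤ) = (v.1 - D.l) / L - 2 := by omega
      rw [e]
      have : ((v.1 - D.l) / L - 2) * L = L * ((v.1 - D.l) / L) - 2 * L := by ring
      rw [this]
      omega
    · have e : ((((v.1 - D.l) / L - 2).toNat : ℕ) : ℤ) = (v.1 - D.l) / L - 2 := by omega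
      rw [e]
      have : ((v.1 - D.l) / L - 2) * L = L * ((v.1 - D.l) / L) - 2 * L := by ring
      rw [this]
      omega
  obtain ⟨j, hj1, hj2, hj3⟩ : ∃ j : ℕ, j ∈ Finset.range ((D.h / L).toNat + 1) ∧
      2 * L ≤ v.2 - j * L ∧ v.2 - j * L < 3 * L := by
    have q1 : L * (v.2 / L) ≤ v.2 := Int.mul_ediv_self_le hL.ne'
    have q2 : v.2 < L * (v.2 / L) + L := Int.lt_mul_ediv_self_add hL
    have q3 : 4 ≤ v.2 / L := by
      rw [Int.le_ediv_iff_mul_le hL]
      omega
    have q4 : v.2 / L ≤ D.h / L := Int.ediv_le_ediv hL (by omega)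
    refine ⟨(v.2 / L - 2).toNat, ?_, ?_, ?_⟩
    · rw [Finset.mem_range]
      omega
    · have e : (((v.2 / L - 2).toNat : ℕ) : ℤ) = v.2 / L - 2 := by omega
      rw [e]
      have : (v.2 / L - 2) * L = L * (v.2 / L) - 2 * L := by ring
      rw [this]
      omega
    · have e : (((v.2 / L - 2).toNat : ℕ) : ℤ) = v.2 / L - 2 := by omega
      rw [e]
      have : (v.2 / L - 2) * L = L * (v.2 / L) - 2 * L := by ring
      rw [this]
      omega
  refine ⟨i, hi1, j, hj1, ?_, ?_⟩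
  · unfold Dm.edges
    have p1 : (0:ℤ) ≤ i * L := by positivity
    have p2 : (0:ℤ) ≤ j * L := by positivity
    exact RE_subset (by omega) (by omega) (by omega) (by omega)
  · set b := D.l + i * L with hb
    set c := (j:ℤ) * L with hc
    have hex : ∃ t, Far v R (orb (D.cfg F) (D.walk F k) t).1 := by
      refine ⟨l0 - k, ?_⟩
      rw [← bulk_walk, Nat.add_sub_cancel' hkl]
      exact hfar
    have ht0 : Nat.find hex ≤ l0 - k := by
      apply Nat.find_min' hex
      rw [← bulk_walk, Nat.add_sub_cancel' hkl]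
      exact hfar
    have hcong : ∀ s ≤ Nat.find hex, orb (↑(F ∩ RE b (b + 4 * L) c (c + 4 * L)) : Set Edg)
        (D.walk F k) s = orb (D.cfg F) (D.walk F k) s := by
      intro s0 hs0
      refine orb_congr (T := Nat.find hex) ?_ hs0
      intro e he
      rw [mem_Exm] at he
      obtain ⟨s, hs, rfl⟩ := he
      have hnf := Nat.find_min hex hs
      generalize orb (D.cfg F) (D.walk F k) s = w at hnf ⊢
      unfold Far at hnf
      push Not at hnf
      have hin : ae w ∈ RE b (b + 4 * L) c (c + 4 * L) := by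
        obtain ⟨⟨x, y⟩, q⟩ := w
        cases q
        · rw [ae_ne, mem_RE_true]; simp only at hnf; omega
        · rw [ae_nw, mem_RE_false]; simp only at hnf; omega
        · rw [ae_sw, mem_RE_true]; simp only at hnf; omega
        · rw [ae_se, mem_RE_false]; simp only at hnf; omega
      have hnw : ae w ∉ D.wir := by
        intro hw
        unfold Dm.wir at hw
        obtain ⟨⟨x, y⟩, q⟩ := w
        simp only at hnf
        cases q
        · rw [ae_ne] at hw
          rcases hw with ⟨-, h2, -⟩ | ⟨h1, -⟩ | ⟨-, h2, -⟩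
          · simp only at h2; omega
          · simp at h1
          · simp only at h2; omega
        · rw [ae_nw] at hw
          rcases hw with ⟨h1, -⟩ | ⟨-, h2, -⟩ | ⟨h1, -⟩
          · simp at h1
          · simp only at h2; omega
          · simp at h1
        · rw [ae_sw] at hw
          rcases hw with ⟨-, h2, -⟩ | ⟨h1, -⟩ | ⟨-, h2, -⟩
          · simp only at h2; omega
          · simp at h1
          · simp only at h2; omega
        · rw [ae_se] at hw
          rcases hw with ⟨h1, -⟩ | ⟨-, h2, -⟩ | ⟨h1, -⟩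
          · simp at h1
          · simp only at h2; omega
          · simp at h1
      unfold Dm.cfg
      rw [Finset.coe_inter]
      constructor
      · rintro (h | h)
        · exact ⟨h, hin⟩
        · exact absurd h hnw
      · rintro ⟨h, -⟩
        exact Or.inl h
    refine ⟨D.walk F k, Nat.find hex, ?_, ?_, ?_⟩
    · unfold inR
      rw [← hv]
      omega
    · rw [hcong _ le_rfl, ← hv]
      exact Nat.find_spec hex
    · intro hh
      apply hlM
      refine hg.mono _ 0 (Nat.find hex) (l0 - k) (by omega) ?_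
      refine hg.congr _ _ _ ?_ hh
      intro s hs
      rw [hcong s hs, ← bulk_walk]
      simp

theorem bulkG : ∃ C : ℝ, 0 < C ∧ ∀ (Q : TEv) (g : (ℕ → Vtx) → ℕ → Prop), PGood g →
    ∀ (D : Dm) (a K : ℕ) (δ : ℝ) (R L : ℤ), D.Ok → 5 ≤ a →
    1 ≤ K → δ ≤ 1 → LocQ a Q → DetQ Q a K g → 121 * a * K + a + 2 ≤ R → L = 3 * R + 60 * a →
    AllQ (4 * L).toNat a Q δ →
    P D.edges (fun F => BBadG g D R (4 * L) F) ≤
      C * (((D.r - D.l : ℤ) : ℝ) / L + 2) * ((D.h : ℝ) / L + 2) * ((L : ℝ) / a + 1) ^ 2 *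
        (1 - δ) ^ (K - 1) := by
  obtain ⟨C, hC, hlow⟩ := lowG
  refine ⟨16 * C, by positivity, ?_⟩
  intro Q g hg D a K δ R L hD ha hK hδ1 hQ hdet hR hL hok
  have hok2 : Ok (fun _ : Edg => (1/2:ℝ)) := okq (by norm_num) (by norm_num)
  have hR1 : 1 ≤ R := by
    have : (0:ℤ) ≤ 121 * a * K := by positivity
    omega
  have hL0 : 0 < L := by omega
  have hn : (((4 * L).toNat : ℕ) : ℤ) = 4 * L := by omega
  have hl := hlow Q g hg (4 * L).toNat a K δ R ha hK hδ1 hQ hdet hok hR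
  have hw : 0 ≤ (1 - δ) ^ (K - 1) := pow_nonneg (by linarith) _
  have ha0 : (0:ℝ) < a := by
    have : 0 < a := by omega
    exact_mod_cast this
  have hLr : (0:ℝ) < (L:ℝ) := by exact_mod_cast hL0
  have hnr : (((4 * L).toNat : ℕ) : ℝ) = 4 * (L:ℝ) := by exact_mod_cast hn
  set B := C * ((((4 * L).toNat : ℕ) : ℝ) / a + 1) ^ 2 * (1 - δ) ^ (K - 1) with hB
  have hB0 : 0 ≤ B := by positivity
  have hB1 : B ≤ 16 * C * ((L:ℝ) / a + 1) ^ 2 * (1 - δ) ^ (K - 1) := by
    rw [hB, hnr]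
    have h1 : 4 * (L:ℝ) / a + 1 ≤ 4 * ((L:ℝ) / a + 1) := by
      have : 4 * (L:ℝ) / a = 4 * ((L:ℝ) / a) := by ring
      rw [this]; linarith
    have h2 : (4 * (L:ℝ) / a + 1) ^ 2 ≤ (4 * ((L:ℝ) / a + 1)) ^ 2 :=
      pow_le_pow_left₀ (by positivity) h1 2
    have h3 : (4 * ((L:ℝ) / a + 1)) ^ 2 = 16 * ((L:ℝ) / a + 1) ^ 2 := by ring
    rw [h3] at h2
    calc C * (4 * (L:ℝ) / a + 1) ^ 2 * (1 - δ) ^ (K - 1)
        ≤ C * (16 * ((L:ℝ) / a + 1) ^ 2) * (1 - δ) ^ (K - 1) :=
          mul_le_mul_of_nonneg_right (mul_le_mul_of_nonneg_left h2 hC.le) hw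
      _ = _ := by ring
  have key : P D.edges (fun F => BBadG g D R (4 * L) F) ≤
      ((((D.r - D.l) / L).toNat + 1 : ℕ) : ℝ) * (((((D.h) / L).toNat + 1 : ℕ) : ℝ) * B) := by
    refine le_trans (Pr_mono hok2 (fun F _ h => bulk_detG hg hR1 (by omega) h)) ?_
    refine le_trans (Pr_exists_le hok2 _ _ _) ?_
    have h1 : ∀ i ∈ Finset.range (((D.r - D.l) / L).toNat + 1),
        Pr (fun _ => (1/2:ℝ)) D.edges (fun F => ∃ j ∈ Finset.range ((D.h / L).toNat + 1),
          RE (D.l + i * L) (D.l + i * L + 4 * L) (j * L) (j * L + 4 * L) ⊆ D.edges ∧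
          sqG g R L (D.l + i * L) (j * L) F) ≤ ((((D.h) / L).toNat + 1 : ℕ) : ℝ) * B := by
      intro i _
      refine le_trans (Pr_exists_le hok2 _ _ _) ?_
      have h2 : ∀ j ∈ Finset.range ((D.h / L).toNat + 1),
          Pr (fun _ => (1/2:ℝ)) D.edges (fun F =>
            RE (D.l + i * L) (D.l + i * L + 4 * L) (j * L) (j * L + 4 * L) ⊆ D.edges ∧
            sqG g R L (D.l + i * L) (j * L) F) ≤ B := by
        intro j _
        by_cases hS : RE (D.l + i * L) (D.l + i * L + 4 * L) (j * L) (j * L + 4 * L) ⊆ D.edges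
        · refine le_trans (Pr_mono hok2 (B := sqG g R L (D.l + i * L) (j * L))
            (fun F _ h => h.2)) ?_
          exact (sqG_pr hg hn hL hS).trans hl
        · have h0 : Pr (fun _ => (1/2:ℝ)) D.edges (fun F =>
              RE (D.l + i * L) (D.l + i * L + 4 * L) (j * L) (j * L + 4 * L) ⊆ D.edges ∧
              sqG g R L (D.l + i * L) (j * L) F) = 0 := by
            unfold Pr
            rw [Ex_congr (g := fun _ => 0) (fun F _ => ind_not_of (fun h => hS h.1)), Ex_const]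
          rw [h0]
          exact hB0
      refine le_trans (Finset.sum_le_card_nsmul _ _ _ h2) ?_
      rw [nsmul_eq_mul, Finset.card_range]
    refine le_trans (Finset.sum_le_card_nsmul _ _ _ h1) ?_
    rw [nsmul_eq_mul, Finset.card_range]
  have c1 := bulk_card (x := D.r - D.l) (L := L) (by have := hD.l_neg; have := hD.r_pos; omega) hL0
  have c2 := bulk_card (x := D.h) (L := L) hD.h_pos hL0
  have c3 : (0:ℝ) ≤ ((((D.h) / L).toNat + 1 : ℕ) : ℝ) := Nat.cast_nonneg _
  have c4 : (0:ℝ) ≤ (D.h : ℝ) / L + 2 := c3.trans c2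
  have c5 : (0:ℝ) ≤ ((D.r - D.l : ℤ) : ℝ) / L + 2 := le_trans (Nat.cast_nonneg _) c1
  refine key.trans ?_
  calc ((((D.r - D.l) / L).toNat + 1 : ℕ) : ℝ) * (((((D.h) / L).toNat + 1 : ℕ) : ℝ) * B)
      ≤ (((D.r - D.l : ℤ) : ℝ) / L + 2) * (((D.h : ℝ) / L + 2) *
          (16 * C * ((L:ℝ) / a + 1) ^ 2 * (1 - δ) ^ (K - 1))) := by
        apply mul_le_mul c1 _ (mul_nonneg c3 hB0) c5
        exact mul_le_mul c2 hB1 hB0 c4
    _ = _ := by ring

end Pool.Agent.Y995.FS
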