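import Pool.Agent.Y995.FS.FastDet
import Pool.Agent.TH992.L.Fast

/-!
Number of vertices with two arms in the tube: upper tail.
-/

set_option autoImplicit false

namespace Pool.Agent.Y995.FS

open H974 Finset H342P H984P H984N TH992.T

theorem two_zero (v f : Vtx) (F : Set Edg) : Two v f 0 F := by
  refine ⟨⟨v, ?_, Reach.refl _ _⟩, f, ?_, DReach.refl _ _⟩
  · unfold Far; omega
  · unfold FarF inF; omega

theorem two_congr {v f : Vtx} {m : ℤ} (hm : 0 ≤ m) {F G : Set Edg}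
    (h : ∀ e ∈ RE (v.1 - m) (v.1 + m) (v.2 - m) (v.2 + m), (e ∈ F ↔ e ∈ G)) :
    Two v f m F ↔ Two v f m G := by
  rcases eq_or_lt_of_le hm with h0 | h0
  · rw [← h0]
    exact ⟨fun _ => two_zero _ _ _, fun _ => two_zero _ _ _⟩
  · rw [two_local h0, two_local h0 G]
    have e : F ∩ ↑(RE (v.1 - m) (v.1 + m) (v.2 - m) (v.2 + m)) =
        G ∩ ↑(RE (v.1 - m) (v.1 + m) (v.2 - m) (v.2 + m)) := by
      ext e
      constructor
      · rintro ⟨h1, h2⟩; exact ⟨(h e (Finset.mem_coe.1 h2)).1 h1, h2⟩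
      · rintro ⟨h1, h2⟩; exact ⟨(h e (Finset.mem_coe.1 h2)).2 h1, h2⟩
    rw [e]

theorem xw_congr {S : Finset Edg} {s : ℕ} {v : Vtx} {F G : Set Edg}
    (h : ∀ e ∈ RE (v.1 - s) (v.1 + s) (v.2 - s) (v.2 + s), e ∈ S → (e ∈ F ↔ e ∈ G)) :
    xw S s v F = xw S s v G := by
  unfold xw
  split_ifs with hS
  · refine sum_congr rfl fun q _ => ?_
    exact ind_congr (two_congr (by positivity) (fun e he => h e he (hS he)))
  · rfl

/-- The family. -/
theorem xw_fam {C : ℝ} (hC : 0 < C) (hU : TwoUp C (1/4)) (S : Finset Edg) :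
    Fam (1/4) 4 (4 * C) (fun _ => (1/2:ℝ)) S (fun s v F => xw S s v ↑F) where
  ok := two_ok
  nonneg s v F := xw_nonneg _ _ _ _
  le s v F := by
    unfold xw
    split_ifs
    · have h : ∀ q ∈ (Finset.univ : Finset Q4), ind (Two v (face (v, q)) s (↑F : Set Edg)) ≤
        (1 : ℝ) := fun q _ => ind_le_one _
      refine (sum_le_sum h).trans ?_
      rw [sum_const, card_univ, Moments_card, nsmul_eq_mul]
      norm_num
    · norm_num
  anti s s' v F h := by
    unfold xw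
    have hz : (s' : ℤ) ≤ s := by exact_mod_cast h
    by_cases h1 : RE (v.1 - s) (v.1 + s) (v.2 - s) (v.2 + s) ⊆ S
    · have h2 : RE (v.1 - s') (v.1 + s') (v.2 - s') (v.2 + s') ⊆ S :=
        (RE_sub_RE (by omega) (by omega) (by omega) (by omega)).trans h1
      rw [if_pos h1, if_pos h2]
      exact sum_le_sum fun q _ => ind_mono (two_anti hz)
    · rw [if_neg h1]
      split_ifs
      · exact sum_nonneg fun q _ => ind_nonneg _
      · exact le_refl _
  loc s v F hF := by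
    refine xw_congr fun e he heS => ?_
    rw [Finset.mem_coe, Finset.mem_coe, mem_inter, mem_inter]
    exact ⟨fun h => ⟨h, he, heS⟩, fun h => h.1⟩
  mean s hs b c := by
    have hs0 : (0 : ℝ) < s := by exact_mod_cast hs
    have hsz : (0 : ℤ) < s := by exact_mod_cast hs
    have h1 : ∀ v ∈ Bq b c s, Ex (fun _ => (1/2:ℝ)) S (fun F => xw S s v (↑F : Set Edg)) ≤
        4 * C * (s : ℝ) ^ (-(1/4) : ℝ) := by
      intro v _
      unfold xw
      by_cases h1 : RE (v.1 - s) (v.1 + s) (v.2 - s) (v.2 + s) ⊆ S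
      · simp only [if_pos h1]
        rw [Ex_sum]
        have h2 : ∀ q ∈ (Finset.univ : Finset Q4), Ex (fun _ => (1/2:ℝ)) S
            (fun F => ind (Two v (face (v, q)) s (↑F : Set Edg))) ≤
            C * (s : ℝ) ^ (-(1/4) : ℝ) := by
          intro q _
          have h3 := pr_two (q := 1/2) (u := v) (f := face (v, q)) hsz h1
          have h4 := hU s v (face (v, q)) hsz (one_inc (v, q))
          unfold Pr at h3 h4
          rw [h3]
          refine h4.trans (le_of_eq ?_)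
          push_cast
          rfl
        refine (sum_le_sum h2).trans ?_
        rw [sum_const, card_univ, Moments_card, nsmul_eq_mul]
        push_cast
        linarith
      · simp only [if_neg h1]
        rw [Ex_const]
        positivity
    refine (sum_le_sum h1).trans ?_
    rw [sum_const, card_Bq, nsmul_eq_mul]
    have e3 : ((s * s : ℕ) : ℝ) * (4 * C * (s : ℝ) ^ (-(1/4) : ℝ)) =
        4 * C * (s : ℝ) ^ (2 - 1/4 : ℝ) := by
      have e4 : (s : ℝ) ^ (2 - 1/4 : ℝ) = (s : ℝ) * ((s : ℝ) * (s : ℝ) ^ (-(1/4) : ℝ)) := by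
        rw [show (2 - 1/4 : ℝ) = 1 + (1 + -(1/4)) by norm_num, Real.rpow_add hs0,
          Real.rpow_add hs0, Real.rpow_one]
      rw [e4]
      push_cast
      ring
    rw [e3]

/-- exponential moments of the number in a box -/
theorem mom_xw {C : ℝ} (hC : 0 < C) (hU : TwoUp C (1/4)) : ∃ M : ℝ, 1 ≤ M ∧
    ∀ (S : Finset Edg) (s : ℕ) (b c : ℤ), 1 ≤ s →
      Ex (fun _ => (1/2:ℝ)) S (fun F =>
        Real.exp (Yb (1/4) (fun s v F => xw S s v ↑F) s b c F / 2)) ≤ M := by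
  obtain ⟨u0, h0⟩ := tail0 (a := 1/4) (C0 := 4 * C) (by norm_num) (by norm_num) 4
    (by positivity)
  refine ⟨max (Real.exp (u0 + 1 / 2) * (1 - Real.exp (-(1/2)))⁻¹) 1, le_max_right _ _,
    fun S s b c hs => ?_⟩
  have hf := xw_fam hC hU S
  refine (expmom two_ok _ (fun F => Yb_nonneg hf s b c F) (u0 := u0)
    (fun u hu => h0 _ _ _ hf s b c u hs hu) ⌈4 * (s : ℝ) ^ (1/4 : ℝ)⌉₊
    (fun F _ => (Yb_le hf hs b c F).trans (Nat.le_ceil _))).trans (le_max_left _ _)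

theorem cn_congr {X Y : ℤ} {a m kk : ℕ} {F G : Set Edg}
    (h : ∀ e ∈ RB X Y m, (e ∈ F ↔ e ∈ G)) : Cn X Y a m kk F = Cn X Y a m kk G := by
  unfold Cn
  exact sum_congr rfl fun q _ => sum_congr rfl fun v _ => xw_congr fun e _ he => h e he

/-- The upper tail of the number in the tube. -/
theorem cn_pr {M : ℝ} (hM1 : 1 ≤ M) {C : ℝ} (hC : 0 < C) (hU : TwoUp C (1/4))
    (hM : ∀ (S : Finset Edg) (s : ℕ) (b c : ℤ), 1 ≤ s →
      Ex (fun _ => (1/2:ℝ)) S (fun F =>
        Real.exp (Yb (1/4) (fun s v F => xw S s v ↑F) s b c F / 2)) ≤ M)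
    {X Y : ℤ} {a m kk : ℕ} (ha : 1 ≤ a) {S : Finset Edg} (hS : RB X Y m ⊆ S) (t : ℝ) :
    Pr (fun _ => (1/2:ℝ)) S (fun F => 18 * t * (a : ℝ) ^ (7/4 : ℝ) ≤ Cn X Y a m kk ↑F) ≤
      9 * (Real.exp (-t) * M ^ (952 * kk)) := by
  obtain ⟨R, hR⟩ : ∃ R, R = RB X Y m := ⟨_, rfl⟩
  rw [← hR] at hS
  have e1 : Pr (fun _ => (1/2:ℝ)) S (fun F => 18 * t * (a : ℝ) ^ (7/4 : ℝ) ≤
      Cn X Y a m kk ↑F) =
      Pr (fun _ => (1/2:ℝ)) R (fun F => 18 * t * (a : ℝ) ^ (7/4 : ℝ) ≤ Cn X Y a m kk ↑F) := by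
    refine Pr_local hS fun F _ => ?_
    rw [cn_congr (G := (↑(F ∩ R) : Set Edg)) (fun e he => by
      rw [Finset.mem_coe, Finset.mem_coe, mem_inter, hR]
      exact ⟨fun h => ⟨h, he⟩, fun h => h.1⟩)]
  rw [e1]
  have hf := xw_fam hC hU R
  have ha0 : (0 : ℝ) < a := by exact_mod_cast ha
  have hpos : 0 < (a : ℝ) ^ (7/4 : ℝ) := Real.rpow_pos_of_pos ha0 _
  have h1 := TH992.L.chernG two_ok (S := R) (range (56 * kk) ×ˢ range 17)
    (fun q => Tb R a (X + 8 * a + q.1 * a) (Y - 8 * a + q.2 * a))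
    (fun q => inter_subset_right) (fun q q' hqq h1 h2 => Tb_disj ha hqq h1 h2)
    (fun q F => Yb (1/4) (fun s v F => xw R s v ↑F) a (X + 8 * a + q.1 * a)
      (Y - 8 * a + q.2 * a) F / 2)
    (fun q F hF => by
      simp only [Yb]
      rw [← Nb_local hf a _ _ F hF])
    hM1 (fun q => hM R a _ _ ha) t
  refine le_trans (Pr_mono two_ok fun F hF hx => ?_) (h1.trans ?_)
  · have e2 : Cn X Y a m kk ↑F = (2 * (a : ℝ) ^ (7/4 : ℝ)) *
        ∑ q ∈ range (56 * kk) ×ˢ range 17,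
        Yb (1/4) (fun s v F => xw R s v ↑F) a (X + 8 * a + q.1 * a) (Y - 8 * a + q.2 * a) F
          / 2 := by
      unfold Cn
      rw [← hR, mul_sum]
      refine sum_congr rfl fun q _ => ?_
      unfold Yb Nb
      have e2 : (2 - 1/4 : ℝ) = 7/4 := by norm_num
      rw [e2]
      field_simp
    rw [e2] at hx
    have h2 : (2 * (a : ℝ) ^ (7/4 : ℝ)) * (9 * t) ≤ (2 * (a : ℝ) ^ (7/4 : ℝ)) *
        ∑ q ∈ range (56 * kk) ×ˢ range 17,
        Yb (1/4) (fun s v F => xw R s v ↑F) a (X + 8 * a + q.1 * a) (Y - 8 * a + q.2 * a) F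
          / 2 := by linarith
    exact le_of_mul_le_mul_left h2 (by positivity)
  · refine mul_le_mul_of_nonneg_left (mul_le_mul_of_nonneg_left ?_ (Real.exp_pos _).le)
      (by norm_num)
    refine pow_le_pow_right₀ hM1 ?_
    rw [card_product, card_range, card_range]
    omega

end Pool.Agent.Y995.FS
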