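import Pool.Agent.Y995.FS.Attach

/-!
Confinement of an interface between an open and a closed dual crossing.
-/

set_option autoImplicit false

namespace Pool.Agent.Y995.FS

open H974 Finset H342P H984P H984N

theorem orb_reachB {F : Set Edg} {σ : St} {B : Vtx → Prop} {t : ℕ}
    (hB : ∀ s ≤ t, B (orb F σ s).1) :
    Reach (F ∩ {e | B (src e) ∧ B (tgt e)}) σ.1 (orb F σ t).1 := by
  induction t with
  | zero => exact Reach.refl _ _
  | succ t ih =>
    have ih' := ih (fun s hs => hB s (by omega))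
    have h0 := hB t (by omega)
    have h1 := hB (t + 1) le_rfl
    rw [orb_succ] at h1 ⊢
    by_cases h : ae (orb F σ t) ∈ F
    · rw [nxt_open h] at h1 ⊢
      refine ih'.trans (Adj.reach ⟨ae (orb F σ t), ⟨h, ?_⟩, p2_ends _⟩)
      rcases p2_ends (orb F σ t) with ⟨h2, h3⟩ | ⟨h2, h3⟩
      · exact ⟨by rw [h2]; exact h0, by rw [h3]; exact h1⟩
      · exact ⟨by rw [h2]; exact h1, by rw [h3]; exact h0⟩
    · rw [nxt_closed h, p2_rt_fst]
      exact ih'

theorem orb_dreachB {F : Set Edg} {σ : St} {B : Vtx → Prop} {t : ℕ}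
    (hB : ∀ s ≤ t, B (face (orb F σ s))) :
    DReach ({e | B (dsrc e) ∧ B (dtgt e)} \ F) (face σ) (face (orb F σ t)) := by
  induction t with
  | zero => exact DReach.refl _ _
  | succ t ih =>
    have ih' := ih (fun s hs => hB s (by omega))
    have h0 := hB t (by omega)
    have h1 := hB (t + 1) le_rfl
    rw [orb_succ] at h1 ⊢
    by_cases h : ae (orb F σ t) ∈ F
    · rw [nxt_open h, p2_face_mv]
      exact ih'
    · rw [nxt_closed h] at h1 ⊢
      refine ih'.trans (DAdj.reach ⟨ae (orb F σ t), ⟨?_, h⟩, p2_dends _⟩)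
      rcases p2_dends (orb F σ t) with ⟨h2, h3⟩ | ⟨h2, h3⟩
      · exact ⟨by rw [h2]; exact h0, by rw [h3]; exact h1⟩
      · exact ⟨by rw [h2]; exact h1, by rw [h3]; exact h0⟩

theorem face_col (σ : St) : σ.1.1 - 1 ≤ (face σ).1 ∧ (face σ).1 ≤ σ.1.1 ∧
    σ.1.2 - 1 ≤ (face σ).2 ∧ (face σ).2 ≤ σ.1.2 := by
  obtain ⟨⟨x, y⟩, c⟩ := σ
  cases c <;> simp

/-- The interface stays below a closed dual crossing. -/
theorem conf_up {F : Set Edg} {σ : St} {P Q c d yc yb : ℤ} {t : ℕ} (hPQ : P + 1 ≤ Q)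
    (hcd : c ≤ d) (hyc : c ≤ yc ∧ yc ≤ d)
    (hU : DReach (dE (LRE P Q c d) \ F) (P, yc) (Q, yb))
    (hcol : ∀ s ≤ t, P + 1 ≤ (orb F σ s).1.1 ∧ (orb F σ s).1.1 ≤ Q - 1)
    (h0 : σ.1.2 ≤ c) : (orb F σ t).1.2 ≤ d := by
  by_contra hcon
  have hr := orb_reachB (B := fun v => P + 1 ≤ v.1 ∧ v.1 ≤ Q - 1) hcol
  obtain ⟨x1, x2, hx1, hx2, h3, -⟩ := sub_TB (a := P + 1) (b := Q) (c := c) (d := d + 1)
    (by omega) (by
      rintro x y ⟨-, h⟩ _ _
      simp only [Set.mem_ofPred_eq, src_mk, tgt_false] at h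
      omega) (by
      rintro x y ⟨-, h⟩ _ _
      simp only [Set.mem_ofPred_eq, src_mk, tgt_true] at h
      omega) hr h0 (by omega)
  refine no_both_TB (F := F) (a := P + 1) (b := Q) (c := c) (d := d + 1) (y := yc) (y' := yb)
    hPQ hx2 (by omega) (h3.mono ?_) ?_
  · rintro e ⟨h, h'⟩
    exact ⟨h.1, h'⟩
  · have e1 : P + 1 - 1 = P := by ring
    rw [e1]
    refine hU.mono ?_
    rintro ⟨x, y, _ | _⟩ ⟨h, h'⟩
    · refine ⟨h', ?_⟩
      simp only [dE, Set.mem_ofPred_eq, dl_f, mem_LRE_true] at h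
      simp only [mem_coe, mem_TBE_false]
      omega
    · refine ⟨h', ?_⟩
      simp only [dE, Set.mem_ofPred_eq, dl_t, mem_LRE_false] at h
      simp only [mem_coe, mem_TBE_true]
      omega

/-- The interface stays above an open crossing. -/
theorem conf_low {F : Set Edg} {σ : St} {P Q c d yc yb : ℤ} {t : ℕ}
    (hcd : c ≤ d) (hyb : c ≤ yb ∧ yb ≤ d)
    (hL : Reach (F ∩ ↑(LRE P Q c d)) (P, yc) (Q, yb))
    (hcol : ∀ s ≤ t, P + 1 ≤ (orb F σ s).1.1 ∧ (orb F σ s).1.1 ≤ Q - 1)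
    (h0 : d ≤ (face σ).2) : c ≤ (orb F σ t).1.2 := by
  by_contra hcon
  have hf := face_col (orb F σ t)
  have hr := orb_dreachB (F := F) (σ := σ) (t := t) (B := fun v => P ≤ v.1 ∧ v.1 ≤ Q - 1)
    (fun s hs => by
      have h1 := hcol s hs
      have h2 := face_col (orb F σ s)
      omega)
  have hr' := reach_dl.2 hr.symm
  obtain ⟨x1, x2, hx1, hx2, h3, -⟩ := sub_TB (a := P) (b := Q - 1) (c := c - 1) (d := d)
    (by omega) (by
      rintro x y ⟨e, ⟨h, -⟩, he⟩ _ _
      have he' : e = dl.symm (x, y, false) := by rw [← he]; simp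
      rw [dls_f] at he'
      subst he'
      simp only [Set.mem_ofPred_eq, dsrc_true, dtgt_mk] at h
      omega) (by
      rintro x y ⟨e, ⟨h, -⟩, he⟩ _ _
      have he' : e = dl.symm (x, y, true) := by rw [← he]; simp
      rw [dls_t] at he'
      subst he'
      simp only [Set.mem_ofPred_eq, dsrc_false, dtgt_mk] at h
      omega) hr' (by omega) h0
  have h4 : DReach (Fᶜ ∩ ↑(LRE P Q c d)) (x1, c - 1) (x2, d) := by
    rw [← reach_dl]
    refine h3.mono ?_
    rintro e' ⟨⟨e, ⟨-, hF⟩, he⟩, h'⟩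
    refine ⟨e, ⟨hF, ?_⟩, he⟩
    rw [← he] at h'
    obtain ⟨x, y, _ | _⟩ := e
    · simp only [mem_coe, dl_f, mem_TBE_true] at h'
      simp only [mem_coe, mem_LRE_false]
      omega
    · simp only [mem_coe, dl_t, mem_TBE_false] at h'
      simp only [mem_coe, mem_LRE_true]
      omega
  exact no_both (F := F) hcd hyb (by omega) hL h4

theorem strand_inj' {F : Set Edg} {A y0 X Y : ℤ} {T : ℕ} (hst : Strand F A y0 X Y T) {i j : ℕ}
    (hi : i ≤ T) (hj : j ≤ T) (h : orb F (st0 A y0) i = orb F (st0 A y0) j) : i = j := by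
  have key : ∀ i j : ℕ, i < j → j ≤ T → orb F (st0 A y0) i = orb F (st0 A y0) j → False := by
    intro i j hij hj h
    have h1 : orb F (st0 A y0) (T - j + i) = orb F (st0 A y0) (T - j + j) := by
      rw [orb_add, orb_add, h]
    rw [Nat.sub_add_cancel hj, hst.tip] at h1
    have h2 := (hst.stay (T - j + i) (by omega)).2
    rw [h1] at h2
    simp only at h2
    omega
  rcases Nat.lt_trichotomy i j with h1 | h1 | h1
  · exact (key i j h1 hj h).elim
  · exact h1
  · exact (key j i h1 hi h.symm).elim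

end Pool.Agent.Y995.FS
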