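import Pool.Agent.H984R3.Per.LowSharp
import Pool.Agent.H984R3.Per.Trial
import Pool.Agent.H984R4.NP.Bulk
import Pool.Agent.TH992.T.Low1

/-!
Trials at the tip of a strand with a long tube: definitions.
-/

set_option autoImplicit false

namespace Pool.Agent.Y995.FS

open H974 Finset H342P H984P

/-- Open hook around the tip at scale `a`, with a lower strip of length `56 m`. -/
def HkL (X Y : ℤ) (a m : ℕ) (G : Finset Edg) : Prop :=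
  (LRc (X - 8 * a) (X + 56 * m) (Y - 8 * a) (Y - 4 * a) G ∧
    TBc (X - 8 * a) (X - 4 * a) (Y - 8 * a) (Y + 8 * a) G) ∧
  (LRc (X - 8 * a) (X + 8 * a) (Y + 4 * a) (Y + 8 * a) G ∧
    TBc (X + 4 * a) (X + 8 * a) (Y + 1) (Y + 8 * a) G)

/-- The same for the dual lattice. -/
def HkL' (X Y : ℤ) (a m : ℕ) (H : Finset Edg) : Prop :=
  (LRc (X - 8 * a) (X + 56 * m) (Y + 4 * a) (Y + 8 * a) H ∧
    TBc (X - 8 * a) (X - 4 * a) (Y - 8 * a) (Y + 8 * a) H) ∧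
  (LRc (X - 8 * a) (X + 8 * a) (Y - 8 * a) (Y - 4 * a) H ∧
    TBc (X + 4 * a) (X + 8 * a) (Y - 8 * a) (Y - 1) H)

/-- The edges of the hook. -/
noncomputable def HL (X Y : ℤ) (a m : ℕ) : Finset Edg :=
  (RE (X - 8 * a) (X + 56 * m) (Y - 8 * a) (Y - 4 * a) ∪
    RE (X - 8 * a) (X - 4 * a) (Y - 8 * a) (Y + 8 * a)) ∪
  (RE (X - 8 * a) (X + 8 * a) (Y + 4 * a) (Y + 8 * a) ∪
    RE (X + 4 * a) (X + 8 * a) (Y + 1) (Y + 8 * a))

/-- The edges of the dual hook (in the lattice of faces). -/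
noncomputable def HL' (X Y : ℤ) (a m : ℕ) : Finset Edg :=
  (RE (X - 8 * a) (X + 56 * m) (Y + 4 * a) (Y + 8 * a) ∪
    RE (X - 8 * a) (X - 4 * a) (Y - 8 * a) (Y + 8 * a)) ∪
  (RE (X - 8 * a) (X + 8 * a) (Y - 8 * a) (Y - 4 * a) ∪
    RE (X + 4 * a) (X + 8 * a) (Y - 8 * a) (Y - 1))

/-- The edges of the part of the lower strip which is to the right of the tip. -/
noncomputable def LSm (X Y : ℤ) (a m : ℕ) : Finset Edg :=
  LRE (X + 8 * a) (X + 56 * m) (Y - 8 * a) (Y - 4 * a)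

/-- The same for the upper strip, in the lattice of faces. -/
noncomputable def USm (X Y : ℤ) (a m : ℕ) : Finset Edg :=
  LRE (X + 8 * a) (X + 56 * m) (Y + 4 * a) (Y + 8 * a)

/-- An open crossing of the lower strip, connected in `Tp` to `L`. -/
def LEm (X Y : ℤ) (a m : ℕ) (L : Set Vtx) (Tp : Set Edg) (G : Set Edg) : Prop :=
  ∃ yb yc : ℤ, (Y - 8 * a ≤ yb ∧ yb ≤ Y - 4 * a) ∧ (Y - 8 * a ≤ yc ∧ yc ≤ Y - 4 * a) ∧
    Reach (G ∩ ↑(LSm X Y a m)) (X + 8 * a, yc) (X + 56 * m, yb) ∧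
    ∃ c ∈ L, Reach (G ∩ Tp) (X + 8 * a, yc) c

/-- A closed dual crossing of the upper strip, connected in `Tm` to `R`. -/
def UEm (X Y : ℤ) (a m : ℕ) (R : Set Vtx) (Tm : Set Edg) (G : Set Edg) : Prop :=
  ∃ yb yc : ℤ, (Y + 4 * a ≤ yb ∧ yb ≤ Y + 8 * a) ∧ (Y + 4 * a ≤ yc ∧ yc ≤ Y + 8 * a) ∧
    DReach (dE (USm X Y a m) \ G) (X + 8 * a, yc) (X + 56 * m, yb) ∧
    ∃ c ∈ R, DReach (Tm \ G) (X + 8 * a, yc) c

/-- Unexamined edges of the hook on the primal side. -/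
def TLm (F : Set Edg) (A y0 X Y : ℤ) (T a m : ℕ) (hv : Vtx → ZMod 2) : Set Edg :=
  {e | e ∈ HL X Y a m ∧ e ∉ Exm F (st0 A y0) T ∧ hv (src e) = 0 ∧ hv (tgt e) = 0}

/-- Unexamined edges of the dual hook on the dual side. -/
def TUm (F : Set Edg) (A y0 X Y : ℤ) (T a m : ℕ) (hf : Vtx → ZMod 2) : Set Edg :=
  {e | e ∈ dE (HL' X Y a m) ∧ e ∉ Exm F (st0 A y0) T ∧ hf (dsrc e) = 1 ∧ hf (dtgt e) = 1}

end Pool.Agent.Y995.FS
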