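import Pool.Agent.Y995.FS.Conf
import Pool.Agent.TH992.L.Slow3
import Pool.Agent.H984R4.NP.Det

/-!
Deterministic part of the fast trial.
-/

set_option autoImplicit false

namespace Pool.Agent.Y995.FS

open H974 Finset H342P H984P H984N TH992.T TH992.L

/-- Number of corners of `v` with two arms to distance `s`, for boxes inside of `S`. -/
noncomputable def xw (S : Finset Edg) (s : ℕ) (v : Vtx) (F : Set Edg) : ℝ :=
  if RE (v.1 - s) (v.1 + s) (v.2 - s) (v.2 + s) ⊆ S then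
    ∑ q : Q4, ind (Two v (face (v, q)) s F) else 0

theorem xw_nonneg (S : Finset Edg) (s : ℕ) (v : Vtx) (F : Set Edg) : 0 ≤ xw S s v F := by
  unfold xw
  split_ifs
  · exact sum_nonneg fun q _ => ind_nonneg _
  · exact le_refl _

/-- The edges in front of the tip. -/
noncomputable def RB (X Y : ℤ) (m : ℕ) : Finset Edg := RE X (X + 60 * m) (Y - 60 * m) (Y + 60 * m)

/-- The number of corners with two arms in the tube. -/
noncomputable def Cn (X Y : ℤ) (a m kk : ℕ) (F : Set Edg) : ℝ :=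
  ∑ q ∈ range (56 * kk) ×ˢ range 17,
    ∑ v ∈ Bq (X + 8 * a + q.1 * a) (Y - 8 * a + q.2 * a) a, xw (RB X Y m) a v F

theorem cn_ge {X Y : ℤ} {a m kk : ℕ} (ha : 1 ≤ a) (hmk : m ≤ a * kk) {F : Set Edg}
    {W : Finset Vtx} (hW : ∀ v ∈ W, (X + 8 * a ≤ v.1 ∧ v.1 ≤ X + 56 * m) ∧
      (Y - 8 * a ≤ v.2 ∧ v.2 ≤ Y + 8 * a)) :
    ∑ v ∈ W, xw (RB X Y m) a v F ≤ Cn X Y a m kk F := by
  have ha' : (1 : ℤ) ≤ a := by exact_mod_cast ha
  have hmk' : (m : ℤ) ≤ a * kk := by exact_mod_cast hmk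
  have e : ((56 * kk : ℕ) : ℤ) * a = 56 * (a * kk) := by push_cast; ring
  unfold Cn
  refine cover (f := fun v => xw (RB X Y m) a v F) (fun v => xw_nonneg _ _ _ _) ha
    (b0 := X + 8 * a) (c0 := Y - 8 * a) (n1 := 56 * kk) (n2 := 17) ?_
  intro v hv
  have h := hW v hv
  rw [e]
  push_cast
  omega

/-- The states of a strand have two arms. -/
theorem two_strand {F : Set Edg} {A y0 : ℤ} {a t : ℕ}
    (h : A + a ≤ (orb F (st0 A y0) t).1.1) :
    Two (orb F (st0 A y0) t).1 (face (orb F (st0 A y0) t)) a F := by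
  have h1 := orb_reach (F := F) (W := Set.univ) (σ := st0 A y0) (T := t)
    (fun _ _ => Set.mem_univ _) le_rfl
  have h2 := orb_dreach (F := F) (W := Set.univ) (σ := st0 A y0) (T := t)
    (fun _ _ => Set.mem_univ _) le_rfl
  rw [Set.inter_univ] at h1
  rw [← Set.compl_eq_univ_sdiff] at h2
  refine ⟨⟨(A, y0), ?_, h1.symm⟩, face (st0 A y0), ?_, h2.symm⟩
  · unfold Far
    simp only
    omega
  · unfold FarF inF
    rw [face_st0]
    simp only
    omega

theorem steps_count {F : Set Edg} {A y0 X Y X' Y' : ℤ} {T' a m kk t1 t2 : ℕ} (ha : 1 ≤ a)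
    (ham : a ≤ m) (hmk : m ≤ a * kk) (hst' : Strand F A y0 X' Y' T') (hA : A + 60 * m ≤ X)
    (ht2 : t2 ≤ T')
    (hin : ∀ t, t1 ≤ t → t < t2 → (X + 8 * a + 1 ≤ (orb F (st0 A y0) t).1.1 ∧
      (orb F (st0 A y0) t).1.1 ≤ X + 56 * m - 1) ∧
      (Y - 8 * a ≤ (orb F (st0 A y0) t).1.2 ∧ (orb F (st0 A y0) t).1.2 ≤ Y + 8 * a)) :
    ((t2 - t1 : ℕ) : ℝ) ≤ Cn X Y a m kk F := by
  classical
  have ha' : (1 : ℤ) ≤ a := by exact_mod_cast ha
  have ham' : (a : ℤ) ≤ m := by exact_mod_cast ham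
  obtain ⟨W, hW⟩ : ∃ W : Finset Vtx, W = Finset.Icc (X + 8 * a + 1) (X + 56 * m - 1) ×ˢ
    Finset.Icc (Y - 8 * a) (Y + 8 * a) := ⟨_, rfl⟩
  have hWm : ∀ v : Vtx, v ∈ W ↔ (X + 8 * a + 1 ≤ v.1 ∧ v.1 ≤ X + 56 * m - 1) ∧
      (Y - 8 * a ≤ v.2 ∧ v.2 ≤ Y + 8 * a) := by
    intro v
    rw [hW, mem_product, mem_Icc, mem_Icc]
  refine le_trans ?_ (cn_ge (Y := Y) (X := X) ha hmk (F := F) (W := W) (fun v hv => by
    have := (hWm v).1 hv
    omega))
  have h1 : ∀ v ∈ W, xw (RB X Y m) a v F = ∑ q : Q4, ind (Two v (face (v, q)) a F) := by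
    intro v hv
    have hv' := (hWm v).1 hv
    unfold xw
    rw [if_pos]
    unfold RB
    exact RE_sub_RE (by omega) (by omega) (by omega) (by omega)
  rw [sum_congr rfl h1]
  obtain ⟨P, hP⟩ : ∃ P : St → Prop, P = fun σ => Two σ.1 (face σ) a F := ⟨_, rfl⟩
  have h2 : ∑ v ∈ W, ∑ q : Q4, ind (Two v (face (v, q)) a F) =
      (((W ×ˢ (Finset.univ : Finset Q4)).filter P).card : ℝ) := by
    rw [← sum_product' (f := fun v q => ind (Two v (face (v, q)) a F)), card_filter]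
    push_cast
    refine sum_congr rfl fun σ _ => ?_
    rw [hP]
    obtain ⟨v, q⟩ := σ
    by_cases h : Two v (face (v, q)) a F
    · rw [ind_of h, if_pos h]
    · rw [ind_not_of h, if_neg h]
  rw [h2]
  have h3 : ((Finset.Ico t1 t2).image (fun t => orb F (st0 A y0) t)) ⊆
      (W ×ˢ (Finset.univ : Finset Q4)).filter P := by
    intro σ hσ
    rw [mem_image] at hσ
    obtain ⟨t, ht, rfl⟩ := hσ
    rw [mem_Ico] at ht
    have h4 := hin t ht.1 ht.2
    rw [mem_filter, mem_product, hWm, hP]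
    refine ⟨⟨h4, mem_univ _⟩, two_strand (by omega)⟩
  have h5 := Finset.card_le_card h3
  rw [Finset.card_image_of_injOn] at h5
  · rw [Nat.card_Ico] at h5
    exact_mod_cast h5
  · intro i hi j hj hij
    rw [Finset.coe_Ico, Set.mem_Ico] at hi hj
    exact strand_inj' hst' (by omega) (by omega) hij

/-- A successful fast trial. -/
theorem fast_det {F : Set Edg} {A y0 X Y X' Y' : ℤ} {T T' a m kk : ℕ} (ha : 1 ≤ a)
    (ham : a ≤ m) (hmk : m ≤ a * kk) (hst' : Strand F A y0 X' Y' T') (hT : T ≤ T')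
    (hX' : X + 60 * m < X') (hA : A + 60 * m ≤ X)
    (hL : BaseL A y0 X Y T a m F) (hU : BaseU A y0 X Y T a m F)
    (hR : ∃ v ∈ ctr (X + 32 * m, Y) a, RA v a F) :
    ∃ i j, i ≤ j ∧ j ≤ T' ∧
      20 * (m : ℤ) ≤ sd (orb F (st0 A y0) i).1 (orb F (st0 A y0) j).1 ∧
      ((j - i : ℕ) : ℝ) ≤ Cn X Y a m kk F := by
  have ha' : (1 : ℤ) ≤ a := by exact_mod_cast ha
  have ham' : (a : ℤ) ≤ m := by exact_mod_cast ham
  obtain ⟨v, hv, ⟨w, hw, hRw⟩, g, hg, hDg⟩ := hR
  have hvb : (X + 32 * m - a ≤ v.1 ∧ v.1 ≤ X + 32 * m + a) ∧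
      (Y - a ≤ v.2 ∧ v.2 ≤ Y + a) := by
    simp only [ctr, mem_product, mem_Icc] at hv
    omega
  have hseen : Seen A y0 X Y T m F v := by
    constructor
    · refine attL ha ham hL (V := PR v a) (p := X + 32 * m - 13 * a) (q := X + 32 * m + 13 * a)
        (by omega) (by omega) (by omega) ?_ ?_ ?_ (w := w) (v := v) (by omega) (by omega) hRw.symm
      · unfold PR Bl
        exact RE_sub_RE (by omega) (by omega) (by omega) (by omega)
      · intro x y h _ _; simp only [PR, mem_RE_false] at h; omega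
      · intro x y h _ _; simp only [PR, mem_RE_true] at h; omega
    · refine attU ha ham hU (V := DR v a) (p := X + 32 * m - 13 * a) (q := X + 32 * m + 13 * a)
        (by omega) (by omega) (by omega) ?_ ?_ ?_ (g := g) (by omega) (by omega) hDg
      · unfold DR
        exact RE_sub_RE (by omega) (by omega) (by omega) (by omega)
      · intro x y h _ _; simp only [DR, mem_RE_false] at h; omega
      · intro x y h _ _; simp only [DR, mem_RE_true] at h; omega
  obtain ⟨t1, ht1, hae⟩ := seen_exm hst' hT hX' hA (v := v) (by omega) hseen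
  obtain ⟨σ, hσ⟩ : ∃ σ, σ = orb F (st0 A y0) t1 := ⟨_, rfl⟩
  rw [← hσ] at hae
  have hσb : (X + 32 * m - a ≤ σ.1.1 ∧ σ.1.1 ≤ X + 32 * m + a + 1) ∧
      (Y - a ≤ σ.1.2 ∧ σ.1.2 ≤ Y + a) ∧ Y - a - 1 ≤ (face σ).2 := by
    rcases ae_at hae with ⟨h1, h2⟩ | ⟨h1, h2⟩
    · rw [h1, h2]; omega
    · rw [h1, h2]; simp only; omega
  have horb : ∀ s, orb F σ s = orb F (st0 A y0) (s + t1) := by
    intro s
    rw [orb_add, hσ]
  have hex : ∃ s, ¬ (X + 8 * a + 1 ≤ (orb F σ s).1.1 ∧ (orb F σ s).1.1 ≤ X + 56 * m - 1) := by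
    refine ⟨T' - t1, ?_⟩
    rw [horb, Nat.sub_add_cancel ht1.le, hst'.tip]
    simp only
    omega
  classical
  obtain ⟨t, ht⟩ : ∃ t, t = Nat.find hex := ⟨_, rfl⟩
  have htT : t + t1 ≤ T' := by
    have : t ≤ T' - t1 := by
      rw [ht]
      refine Nat.find_min' hex ?_
      rw [horb, Nat.sub_add_cancel ht1.le, hst'.tip]
      simp only
      omega
    omega
  have hcol : ∀ s < t, X + 8 * a + 1 ≤ (orb F σ s).1.1 ∧ (orb F σ s).1.1 ≤ X + 56 * m - 1 := by
    intro s hs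
    rw [ht] at hs
    exact not_not.1 (Nat.find_min hex hs)
  have hout : ¬ (X + 8 * a + 1 ≤ (orb F σ t).1.1 ∧ (orb F σ t).1.1 ≤ X + 56 * m - 1) := by
    rw [ht]; exact Nat.find_spec hex
  refine ⟨t1, t + t1, by omega, htT, ?_, ?_⟩
  · rw [← horb, ← hσ, det_sd_eq]
    omega
  · refine steps_count ha ham hmk hst' hA htT ?_
    intro t' h1 h2
    obtain ⟨s, rfl⟩ : ∃ s, t' = s + t1 := ⟨t' - t1, by omega⟩
    have hs : s < t := by omega
    rw [← horb]
    refine ⟨hcol s hs, ?_, ?_⟩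
    · obtain ⟨yb, yc, hyb, hyc, hR1, -⟩ := hL
      refine conf_low (P := X + 8 * a) (Q := X + 56 * m) (d := Y - 4 * a) (by omega) hyb hR1
        (fun s' hs' => ?_) (by omega)
      have := hcol s' (by omega)
      omega
    · obtain ⟨yb, yc, hyb, hyc, hR1, -⟩ := hU
      refine conf_up (P := X + 8 * a) (Q := X + 56 * m) (c := Y + 4 * a) (by omega) (by omega) hyc
        hR1 (fun s' hs' => ?_) (by omega)
      have := hcol s' (by omega)
      omega

end Pool.Agent.Y995.FS
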