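import Pool.Agent.Y995.FS.Defs

/-!
The hook with long strips is attached to the strand.
-/

set_option autoImplicit false

namespace Pool.Agent.Y995.FS

open H974 Finset H342P H984P



theorem hookm_det {X Y : ℤ} {a m : ℕ} (ha : 1 ≤ a) (ham : a ≤ m) {G : Finset Edg} (h : HkL X Y a m G) :
    ∃ yb yc x' : ℤ, (Y - 8 * a ≤ yb ∧ yb ≤ Y - 4 * a) ∧ (Y - 8 * a ≤ yc ∧ yc ≤ Y - 4 * a) ∧
      (X + 4 * a ≤ x' ∧ x' ≤ X + 8 * a) ∧
      Reach ((↑G : Set Edg) ∩ ↑(LSm X Y a m)) (X + 8 * a, yc) (X + 56 * m, yb) ∧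
      Reach ((↑G : Set Edg) ∩ ↑(HL X Y a m)) (X + 8 * a, yc) (x', Y + 1) := by
  have ha' : (1:ℤ) ≤ a := by exact_mod_cast ha
  have ham' : (a:ℤ) ≤ m := by exact_mod_cast ham
  obtain ⟨⟨⟨b, b', hb, hb', hB⟩, ⟨w, w', hw, hw', hW⟩⟩, ⟨⟨n, n', hn, hn', hN⟩,
    ⟨e, e', he, he', hE⟩⟩⟩ := h
  obtain ⟨yc, yb, k1, k2, k3, k4⟩ := sub_LR (a := X + 8 * a) (b := X + 56 * m) (c := Y - 8 * a)
    (d := Y - 4 * a) (by omega)
    (by rintro x y ⟨-, h⟩ _ _; simp only [mem_coe, mem_LRE_true] at h; omega)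
    (by rintro x y ⟨-, h⟩ _ _; simp only [mem_coe, mem_LRE_false] at h; omega) hB
    (by simp only; omega) le_rfl
  have t1 : (↑(LRE (X - 8 * a) (X + 56 * m) (Y - 8 * a) (Y - 4 * a)) : Set Edg) ⊆
      ↑(RE (X - 8 * a) (X + 56 * m) (Y - 8 * a) (Y - 4 * a)) := by exact_mod_cast LRE_subset_RE
  have t2 : (↑(TBE (X - 8 * a) (X - 4 * a) (Y - 8 * a) (Y + 8 * a)) : Set Edg) ⊆
      ↑(RE (X - 8 * a) (X - 4 * a) (Y - 8 * a) (Y + 8 * a)) := by exact_mod_cast TBE_subset_RE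
  have t3 : (↑(LRE (X - 8 * a) (X + 8 * a) (Y + 4 * a) (Y + 8 * a)) : Set Edg) ⊆
      ↑(RE (X - 8 * a) (X + 8 * a) (Y + 4 * a) (Y + 8 * a)) := by exact_mod_cast LRE_subset_RE
  have t4 : (↑(TBE (X + 4 * a) (X + 8 * a) (Y + 1) (Y + 8 * a)) : Set Edg) ⊆
      ↑(RE (X + 4 * a) (X + 8 * a) (Y + 1) (Y + 8 * a)) := by exact_mod_cast TBE_subset_RE
  have hH : ∀ e : Edg, e ∈ (↑(HL X Y a m) : Set Edg) ↔
      (e ∈ (↑(RE (X - 8 * a) (X + 56 * m) (Y - 8 * a) (Y - 4 * a)) : Set Edg) ∨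
        e ∈ (↑(RE (X - 8 * a) (X - 4 * a) (Y - 8 * a) (Y + 8 * a)) : Set Edg)) ∨
      (e ∈ (↑(RE (X - 8 * a) (X + 8 * a) (Y + 4 * a) (Y + 8 * a)) : Set Edg) ∨
        e ∈ (↑(RE (X + 4 * a) (X + 8 * a) (Y + 1) (Y + 8 * a)) : Set Edg)) := by
    intro e; simp only [HL, Finset.mem_coe, Finset.mem_union]
  set F : Set Edg := ↑G ∩ ↑(HL X Y a m) with hF
  have hB' : Reach (F ∩ ↑(RE (X - 8 * a) (X + 56 * m) (Y - 8 * a) (Y - 4 * a)))
      (X - 8 * a, b) (X + 56 * m, b') :=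
    hB.mono (by rintro e ⟨h1, h2⟩; exact ⟨⟨h1, (hH e).mpr (Or.inl (Or.inl (t1 h2)))⟩, t1 h2⟩)
  have hW' : Reach (F ∩ ↑(RE (X - 8 * a) (X - 4 * a) (Y - 8 * a) (Y + 8 * a)))
      (w, Y - 8 * a) (w', Y + 8 * a) :=
    hW.mono (by rintro e ⟨h1, h2⟩; exact ⟨⟨h1, (hH e).mpr (Or.inl (Or.inr (t2 h2)))⟩, t2 h2⟩)
  have hN' : Reach (F ∩ ↑(RE (X - 8 * a) (X + 8 * a) (Y + 4 * a) (Y + 8 * a)))
      (X - 8 * a, n) (X + 8 * a, n') :=
    hN.mono (by rintro e ⟨h1, h2⟩; exact ⟨⟨h1, (hH e).mpr (Or.inr (Or.inl (t3 h2)))⟩, t3 h2⟩)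
  have hE' : Reach (F ∩ ↑(RE (X + 4 * a) (X + 8 * a) (Y + 1) (Y + 8 * a)))
      (e, Y + 1) (e', Y + 8 * a) :=
    hE.mono (by rintro e ⟨h1, h2⟩; exact ⟨⟨h1, (hH e).mpr (Or.inr (Or.inr (t4 h2)))⟩, t4 h2⟩)
  have m1 : Reach F (X - 8 * a, b) (w, Y - 8 * a) :=
    (cross_meet (A := X - 8 * a) (B := X + 56 * m) (C := Y - 8 * a) (D := Y + 8 * a) le_rfl
      (by omega) (by omega) le_rfl (by omega) (by omega) hB' (by simp) (by simp only; omega)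
      hW' (by simp) (by simp only; omega)).mono Set.inter_subset_left
  have m2 : Reach F (X - 8 * a, n) (w, Y - 8 * a) :=
    (cross_meet (A := X - 8 * a) (B := X + 8 * a) (C := Y - 8 * a) (D := Y + 8 * a) le_rfl
      (by omega) (by omega) (by omega) (by omega) le_rfl hN' (by simp) (by simp only; omega)
      hW' (by simp only; omega) (by simp)).mono Set.inter_subset_left
  have m3 : Reach F (X - 8 * a, n) (e, Y + 1) :=
    (cross_meet (A := X - 8 * a) (B := X + 8 * a) (C := Y + 1) (D := Y + 8 * a) (by omega)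
      (by omega) le_rfl (by omega) (by omega) le_rfl hN' (by simp only; omega) (by simp)
      hE' (by simp only; omega) (by simp)).mono Set.inter_subset_left
  have m4 : Reach F (X - 8 * a, b) (X + 8 * a, yc) :=
    k4.mono (by rintro e ⟨h1, h2⟩; exact ⟨h1, (hH e).mpr (Or.inl (Or.inl (t1 h2)))⟩)
  refine ⟨yb, yc, e, k2, k1, he, k3.mono ?_, ?_⟩
  · rintro e ⟨⟨h1, -⟩, h2⟩; exact ⟨h1, h2⟩
  · exact m4.symm.trans (m1.trans (m2.symm.trans m3))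

theorem hookm_det' {X Y : ℤ} {a m : ℕ} (ha : 1 ≤ a) (ham : a ≤ m) {G : Finset Edg} (h : HkL' X Y a m G) :
    ∃ yb yc x' : ℤ, (Y + 4 * a ≤ yb ∧ yb ≤ Y + 8 * a) ∧ (Y + 4 * a ≤ yc ∧ yc ≤ Y + 8 * a) ∧
      (X + 4 * a ≤ x' ∧ x' ≤ X + 8 * a) ∧
      Reach ((↑G : Set Edg) ∩ ↑(USm X Y a m)) (X + 8 * a, yc) (X + 56 * m, yb) ∧
      Reach ((↑G : Set Edg) ∩ ↑(HL' X Y a m)) (X + 8 * a, yc) (x', Y - 1) := by
  have ha' : (1:ℤ) ≤ a := by exact_mod_cast ha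
  have ham' : (a:ℤ) ≤ m := by exact_mod_cast ham
  obtain ⟨⟨⟨b, b', hb, hb', hB⟩, ⟨w, w', hw, hw', hW⟩⟩, ⟨⟨n, n', hn, hn', hN⟩,
    ⟨e, e', he, he', hE⟩⟩⟩ := h
  obtain ⟨yc, yb, k1, k2, k3, k4⟩ := sub_LR (a := X + 8 * a) (b := X + 56 * m) (c := Y + 4 * a)
    (d := Y + 8 * a) (by omega)
    (by rintro x y ⟨-, h⟩ _ _; simp only [mem_coe, mem_LRE_true] at h; omega)
    (by rintro x y ⟨-, h⟩ _ _; simp only [mem_coe, mem_LRE_false] at h; omega) hB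
    (by simp only; omega) le_rfl
  have t1 : (↑(LRE (X - 8 * a) (X + 56 * m) (Y + 4 * a) (Y + 8 * a)) : Set Edg) ⊆
      ↑(RE (X - 8 * a) (X + 56 * m) (Y + 4 * a) (Y + 8 * a)) := by exact_mod_cast LRE_subset_RE
  have t2 : (↑(TBE (X - 8 * a) (X - 4 * a) (Y - 8 * a) (Y + 8 * a)) : Set Edg) ⊆
      ↑(RE (X - 8 * a) (X - 4 * a) (Y - 8 * a) (Y + 8 * a)) := by exact_mod_cast TBE_subset_RE
  have t3 : (↑(LRE (X - 8 * a) (X + 8 * a) (Y - 8 * a) (Y - 4 * a)) : Set Edg) ⊆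
      ↑(RE (X - 8 * a) (X + 8 * a) (Y - 8 * a) (Y - 4 * a)) := by exact_mod_cast LRE_subset_RE
  have t4 : (↑(TBE (X + 4 * a) (X + 8 * a) (Y - 8 * a) (Y - 1)) : Set Edg) ⊆
      ↑(RE (X + 4 * a) (X + 8 * a) (Y - 8 * a) (Y - 1)) := by exact_mod_cast TBE_subset_RE
  have hH : ∀ e : Edg, e ∈ (↑(HL' X Y a m) : Set Edg) ↔
      (e ∈ (↑(RE (X - 8 * a) (X + 56 * m) (Y + 4 * a) (Y + 8 * a)) : Set Edg) ∨
        e ∈ (↑(RE (X - 8 * a) (X - 4 * a) (Y - 8 * a) (Y + 8 * a)) : Set Edg)) ∨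
      (e ∈ (↑(RE (X - 8 * a) (X + 8 * a) (Y - 8 * a) (Y - 4 * a)) : Set Edg) ∨
        e ∈ (↑(RE (X + 4 * a) (X + 8 * a) (Y - 8 * a) (Y - 1)) : Set Edg)) := by
    intro e; simp only [HL', Finset.mem_coe, Finset.mem_union]
  set F : Set Edg := ↑G ∩ ↑(HL' X Y a m) with hF
  have hB' : Reach (F ∩ ↑(RE (X - 8 * a) (X + 56 * m) (Y + 4 * a) (Y + 8 * a)))
      (X - 8 * a, b) (X + 56 * m, b') :=
    hB.mono (by rintro e ⟨h1, h2⟩; exact ⟨⟨h1, (hH e).mpr (Or.inl (Or.inl (t1 h2)))⟩, t1 h2⟩)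
  have hW' : Reach (F ∩ ↑(RE (X - 8 * a) (X - 4 * a) (Y - 8 * a) (Y + 8 * a)))
      (w, Y - 8 * a) (w', Y + 8 * a) :=
    hW.mono (by rintro e ⟨h1, h2⟩; exact ⟨⟨h1, (hH e).mpr (Or.inl (Or.inr (t2 h2)))⟩, t2 h2⟩)
  have hN' : Reach (F ∩ ↑(RE (X - 8 * a) (X + 8 * a) (Y - 8 * a) (Y - 4 * a)))
      (X - 8 * a, n) (X + 8 * a, n') :=
    hN.mono (by rintro e ⟨h1, h2⟩; exact ⟨⟨h1, (hH e).mpr (Or.inr (Or.inl (t3 h2)))⟩, t3 h2⟩)
  have hE' : Reach (F ∩ ↑(RE (X + 4 * a) (X + 8 * a) (Y - 8 * a) (Y - 1)))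
      (e, Y - 8 * a) (e', Y - 1) :=
    hE.mono (by rintro e ⟨h1, h2⟩; exact ⟨⟨h1, (hH e).mpr (Or.inr (Or.inr (t4 h2)))⟩, t4 h2⟩)
  have m1 : Reach F (X - 8 * a, b) (w, Y - 8 * a) :=
    (cross_meet (A := X - 8 * a) (B := X + 56 * m) (C := Y - 8 * a) (D := Y + 8 * a) le_rfl
      (by omega) (by omega) (by omega) (by omega) le_rfl hB' (by simp) (by simp only; omega)
      hW' (by simp only; omega) (by simp)).mono Set.inter_subset_left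
  have m2 : Reach F (X - 8 * a, n) (w, Y - 8 * a) :=
    (cross_meet (A := X - 8 * a) (B := X + 8 * a) (C := Y - 8 * a) (D := Y + 8 * a) le_rfl
      (by omega) (by omega) le_rfl (by omega) (by omega) hN' (by simp) (by simp only; omega)
      hW' (by simp) (by simp only; omega)).mono Set.inter_subset_left
  have m3 : Reach F (X - 8 * a, n) (e, Y - 8 * a) :=
    (cross_meet (A := X - 8 * a) (B := X + 8 * a) (C := Y - 8 * a) (D := Y - 1) (by omega)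
      (by omega) le_rfl le_rfl (by omega) (by omega) hN' (by simp only; omega) (by simp)
      hE' (by simp) (by simp only; omega)).mono Set.inter_subset_left
  have m4 : Reach F (X - 8 * a, b) (X + 8 * a, yc) :=
    k4.mono (by rintro e ⟨h1, h2⟩; exact ⟨h1, (hH e).mpr (Or.inl (Or.inl (t1 h2)))⟩)
  refine ⟨yb, yc, e', k2, k1, he', k3.mono ?_, ?_⟩
  · rintro e ⟨⟨h1, -⟩, h2⟩; exact ⟨h1, h2⟩
  · exact m4.symm.trans (m1.trans (m2.symm.trans (m3.trans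
      (hE'.mono Set.inter_subset_left))))




theorem hkm_pos {A X Y : ℤ} {a m : ℕ} (ha : 1 ≤ a) (ham : a ≤ m) (hA : A ≤ X - 9 * a) {e : Edg}
    (he : e ∈ HL X Y a m) : A ≤ e.1 ∧ ¬ (X ≤ e.1 ∧ e.2.1 = Y) := by
  have ha' : (1 : ℤ) ≤ a := by exact_mod_cast ha
  have ham' : (a : ℤ) ≤ m := by exact_mod_cast ham
  unfold HL at he
  obtain ⟨x, y, _ | _⟩ := e
  · simp only [Finset.mem_union, mem_RE_false] at he ⊢
    omega
  · simp only [Finset.mem_union, mem_RE_true] at he ⊢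
    omega

theorem hkm_pos' {A X Y : ℤ} {a m : ℕ} (ha : 1 ≤ a) (ham : a ≤ m) (hA : A ≤ X - 9 * a) {e : Edg}
    (he : dl e ∈ HL' X Y a m) : A ≤ e.1 ∧ ¬ (X ≤ e.1 ∧ e.2.1 = Y) := by
  have ha' : (1 : ℤ) ≤ a := by exact_mod_cast ha
  have ham' : (a : ℤ) ≤ m := by exact_mod_cast ham
  unfold HL' at he
  obtain ⟨x, y, _ | _⟩ := e
  · simp only [dl_f, Finset.mem_union, mem_RE_true] at he ⊢
    omega
  · simp only [dl_t, Finset.mem_union, mem_RE_false] at he ⊢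
    omega

theorem lowm_side {F : Set Edg} {A y0 X Y : ℤ} {T a m : ℕ} {hv hf : Vtx → ZMod 2} (ha : 1 ≤ a) (ham : a ≤ m)
    (hst : Strand F A y0 X Y T) (hS : Side F A y0 X Y T hv hf) (hA : A ≤ X - 9 * a)
    {G : Finset Edg} (hG : HkL X Y a m G) :
    LEm X Y a m {v | ∃ s ≤ T, (orb F (st0 A y0) s).1 = v} (TLm F A y0 X Y T a m hv) ↑G := by
  have ha' : (1 : ℤ) ≤ a := by exact_mod_cast ha
  have ham' : (a : ℤ) ≤ m := by exact_mod_cast ham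
  obtain ⟨yb, yc, x', hyb, hyc, hx', h1, h2⟩ := hookm_det ha ham hG
  refine ⟨yb, yc, hyb, hyc, h1, ?_⟩
  obtain ⟨c, hc, hr⟩ := first_attach src tgt (G := (↑G : Set Edg) ∩ ↑(HL X Y a m))
    (Ex := (↑(Exm F (st0 A y0) T) : Set Edg)) (P := fun v => hv v = 0)
    (L := {v | ∃ s ≤ T, (orb F (st0 A y0) s).1 = v}) h2
    ((hS.rightv _ _ (by omega)).2 (by omega))
    (fun h => by have := (hS.rightv _ _ (by omega)).1 h; omega)
    (fun e he hex => by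
      have hp := hkm_pos ha ham hA (Finset.mem_coe.1 he.2)
      have := hS.free e (fun h => hex (Finset.mem_coe.2 h)) hp.1 hp.2
      simp only [this.1])
    (fun e he hex => hS.exv e (Finset.mem_coe.1 hex))
  refine ⟨c, hc, Reach.mono ?_ (reach_GR.2 hr)⟩
  rintro e ⟨he, hex, hp1, hp2⟩
  exact ⟨he.1, Finset.mem_coe.1 he.2, fun h => hex (Finset.mem_coe.2 h), hp1, hp2⟩

theorem upm_side {F : Set Edg} {A y0 X Y : ℤ} {T a m : ℕ} {hv hf : Vtx → ZMod 2} (ha : 1 ≤ a) (ham : a ≤ m)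
    (hst : Strand F A y0 X Y T) (hS : Side F A y0 X Y T hv hf) (hA : A ≤ X - 9 * a)
    {S G : Finset Edg} (hG : HkL' X Y a m (dmp (S \ G))) :
    UEm X Y a m {f | ∃ s ≤ T, face (orb F (st0 A y0) s) = f} (TUm F A y0 X Y T a m hf) ↑G := by
  have ha' : (1 : ℤ) ≤ a := by exact_mod_cast ha
  have ham' : (a : ℤ) ≤ m := by exact_mod_cast ham
  obtain ⟨yb, yc, x', hyb, hyc, hx', h1, h2⟩ := hookm_det' ha ham hG
  refine ⟨yb, yc, hyb, hyc, reach_dl.1 (h1.mono dmp_sub), ?_⟩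
  have h3 := reach_dl.1 (h2.mono dmp_sub)
  obtain ⟨c, hc, hr⟩ := first_attach dsrc dtgt (G := dE (HL' X Y a m) \ (↑G : Set Edg))
    (Ex := (↑(Exm F (st0 A y0) T) : Set Edg)) (P := fun v => hf v = 1)
    (L := {f | ∃ s ≤ T, face (orb F (st0 A y0) s) = f}) (dreach_GR.1 h3)
    ((hS.rightf _ _ (by omega)).2 (by omega))
    (fun h => by have := (hS.rightf _ _ (by omega)).1 h; omega)
    (fun e he hex => by
      have hp := hkm_pos' ha ham hA he.1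
      have := hS.free e (fun h => hex (Finset.mem_coe.2 h)) hp.1 hp.2
      simp only [this.2.1])
    (fun e he hex => hS.exf e (Finset.mem_coe.1 hex))
  refine ⟨c, hc, DReach.mono ?_ (dreach_GR.2 hr)⟩
  rintro e ⟨he, hex, hp1, hp2⟩
  exact ⟨⟨he.1, fun h => hex (Finset.mem_coe.2 h), hp1, hp2⟩, he.2⟩


end Pool.Agent.Y995.FS
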