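import Pool.Agent.Y995.FS.Defs

/-!
Probability of a hook with long strips.
-/

set_option autoImplicit false

namespace Pool.Agent.Y995.FS

open H974 Finset H342P H984P TH992.T

theorem four2 {κ κ' : ℝ} (hκ : 0 ≤ κ) (hκ' : 0 ≤ κ') {S : Finset Edg}
    {A B C D : Finset Edg → Prop}
    (iA : IncrE S A) (iB : IncrE S B) (iC : IncrE S C) (iD : IncrE S D)
    (hA : κ' ≤ Pr (fun _ => (1/2:ℝ)) S A) (hB : κ ≤ Pr (fun _ => (1/2:ℝ)) S B)
    (hC : κ ≤ Pr (fun _ => (1/2:ℝ)) S C) (hD : κ ≤ Pr (fun _ => (1/2:ℝ)) S D) :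
    κ' * κ ^ 3 ≤ Pr (fun _ => (1/2:ℝ)) S (fun F => (A F ∧ B F) ∧ (C F ∧ D F)) := by
  have ok : Ok (fun _ : Edg => (1/2:ℝ)) := okq (by norm_num) (by norm_num)
  have h1 := Pr_harris ok iA iB
  have h2 := Pr_harris ok iC iD
  have h3 := Pr_harris ok (A := fun F => A F ∧ B F) (B := fun F => C F ∧ D F)
    (fun F G h h' hF => ⟨iA F G h h' hF.1, iB F G h h' hF.2⟩)
    (fun F G h h' hF => ⟨iC F G h h' hF.1, iD F G h h' hF.2⟩)
  have h4 : κ' * κ ≤ Pr (fun _ => (1/2:ℝ)) S (fun F => A F ∧ B F) :=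
    (mul_le_mul hA hB hκ (hκ'.trans hA)).trans h1
  have h5 : κ * κ ≤ Pr (fun _ => (1/2:ℝ)) S (fun F => C F ∧ D F) :=
    (mul_le_mul hC hD hκ (hκ.trans hC)).trans h2
  have h6 : (κ' * κ) * (κ * κ) ≤ _ :=
    (mul_le_mul h4 h5 (mul_nonneg hκ hκ) ((mul_nonneg hκ' hκ).trans h4)).trans h3
  calc κ' * κ ^ 3 = (κ' * κ) * (κ * κ) := by ring
    _ ≤ _ := h6

theorem pr_hookm {X Y : ℤ} {a m n : ℕ} {S : Finset Edg} (ha : 1 ≤ a) (ham : a ≤ m)
    (hn : 2 * m ≤ a * (n + 1)) (hS : Bl X Y m ⊆ S) :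
    q0 ^ (2 * n + 4) ≤ Pr (fun _ => (1/2:ℝ)) S (HkL X Y a m) ∧
    q0 ^ (2 * n + 4) ≤ Pr (fun _ => (1/2:ℝ)) S (fun F => HkL' X Y a m (dmp (S \ F))) := by
  have h0 : (0:ℝ) ≤ 1/2 := by norm_num
  have h1 : (1/2:ℝ) ≤ 1 := by norm_num
  have ha' : (1:ℤ) ≤ a := by exact_mod_cast ha
  have ham' : (a:ℤ) ≤ m := by exact_mod_cast ham
  have hn' : 2 * (m:ℤ) ≤ a * (n + 1) := by exact_mod_cast hn
  have e0 : q0 ^ (2 * n + 4) = q0 ^ (2 * n + 1) * q0 ^ 3 := by rw [← pow_add]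
  rw [e0]
  have key : ∀ w h : ℤ, 0 < w → w ≤ 64 * a → 4 * a ≤ h → q0 ≤ hh (1/2) w h := by
    intro w h hw hw2 hh2
    refine (H12S.WH.main (h := 4 * (a:ℤ)) (by omega)).trans ?_
    exact hh_mono h0 h1 hw (by omega) hh2
  have keyL : q0 ^ (2 * n + 1) ≤ hh (1/2) (56 * m + 8 * a) (4 * a) := by
    refine hh_wide (by omega) (by omega) ?_
    have e1 : 8 * (4 * (a:ℤ)) * n + 8 * (4 * a) = 32 * (a * (n + 1)) := by ring
    rw [e1]
    omega
  have hS' : ∀ e, e ∈ Bl X Y m → e ∈ S := fun e he => hS he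
  have kLR : ∀ (U : Finset Edg) (p q r s : ℤ), LRE p q r s ⊆ U → 0 < q - p → q - p ≤ 64 * a →
      4 * a ≤ s - r → q0 ≤ Pr (fun _ => (1/2:ℝ)) U (LRc p q r s) := by
    intro U p q r s hU h2 h3 h4
    rw [pr_LRc _ hU]
    exact key _ _ h2 h3 h4
  have kLR' : ∀ (U : Finset Edg) (r s : ℤ), LRE (X - 8 * a) (X + 56 * m) r s ⊆ U →
      4 * a = s - r → q0 ^ (2 * n + 1) ≤
        Pr (fun _ => (1/2:ℝ)) U (LRc (X - 8 * a) (X + 56 * m) r s) := by
    intro U r s hU h4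
    rw [pr_LRc _ hU, ← h4]
    have e1 : X + 56 * (m:ℤ) - (X - 8 * a) = 56 * m + 8 * a := by ring
    rw [e1]
    exact keyL
  have kTB : ∀ (U : Finset Edg) (p q r s : ℤ), TBE p q r s ⊆ U → 0 < s - r → s - r ≤ 64 * a →
      4 * a ≤ q - p → q0 ≤ Pr (fun _ => (1/2:ℝ)) U (TBc p q r s) := by
    intro U p q r s hU h2 h3 h4
    rw [pr_TBc _ hU]
    exact key _ _ h2 h3 h4
  -- the edges of the rectangles belong to `S` and to `dmp S`
  have sLR : ∀ p q r s : ℤ, X - 8 * a ≤ p → q ≤ X + 56 * m → Y - 8 * a ≤ r → s ≤ Y + 8 * a →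
      LRE p q r s ⊆ S ∧ LRE p q r s ⊆ dmp S := by
    intro p q r s hp hq hr hs
    constructor
    · rintro ⟨x, y, _ | _⟩ he
      · rw [mem_LRE_false] at he
        exact hS' _ (by rw [Bl, mem_RE_false]; omega)
      · rw [mem_LRE_true] at he
        exact hS' _ (by rw [Bl, mem_RE_true]; omega)
    · rintro ⟨x, y, _ | _⟩ he
      · rw [mem_LRE_false] at he
        rw [mem_dmp, dls_f]
        exact hS' _ (by rw [Bl, mem_RE_true]; omega)
      · rw [mem_LRE_true] at he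
        rw [mem_dmp, dls_t]
        exact hS' _ (by rw [Bl, mem_RE_false]; omega)
  have sTB : ∀ p q r s : ℤ, X - 8 * a ≤ p → q ≤ X + 56 * m → Y - 8 * a ≤ r → s ≤ Y + 8 * a →
      TBE p q r s ⊆ S ∧ TBE p q r s ⊆ dmp S := by
    intro p q r s hp hq hr hs
    constructor
    · rintro ⟨x, y, _ | _⟩ he
      · rw [mem_TBE_false] at he
        exact hS' _ (by rw [Bl, mem_RE_false]; omega)
      · rw [mem_TBE_true] at he
        exact hS' _ (by rw [Bl, mem_RE_true]; omega)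
    · rintro ⟨x, y, _ | _⟩ he
      · rw [mem_TBE_false] at he
        rw [mem_dmp, dls_f]
        exact hS' _ (by rw [Bl, mem_RE_true]; omega)
      · rw [mem_TBE_true] at he
        rw [mem_dmp, dls_t]
        exact hS' _ (by rw [Bl, mem_RE_false]; omega)
  have hκ : (0:ℝ) ≤ q0 := q0_pos.le
  have hκ' : (0:ℝ) ≤ q0 ^ (2 * n + 1) := pow_nonneg hκ _
  constructor
  · exact four2 hκ hκ' (LRc_incr _ _ _ _ _) (TBc_incr _ _ _ _ _) (LRc_incr _ _ _ _ _)
      (TBc_incr _ _ _ _ _)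
      (kLR' S _ _ (sLR _ _ _ _ (by omega) (by omega) (by omega) (by omega)).1 (by omega))
      (kTB S _ _ _ _ (sTB _ _ _ _ (by omega) (by omega) (by omega) (by omega)).1 (by omega)
        (by omega) (by omega))
      (kLR S _ _ _ _ (sLR _ _ _ _ (by omega) (by omega) (by omega) (by omega)).1 (by omega)
        (by omega) (by omega))
      (kTB S _ _ _ _ (sTB _ _ _ _ (by omega) (by omega) (by omega) (by omega)).1 (by omega)
        (by omega) (by omega))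
  · have e := H12S.pr_dual (q := 1/2) S (HkL' X Y a m)
    have e1 : (1:ℝ) - 1/2 = 1/2 := by norm_num
    rw [e1] at e
    unfold H12S.PQ at e
    rw [e]
    exact four2 hκ hκ' (LRc_incr _ _ _ _ _) (TBc_incr _ _ _ _ _) (LRc_incr _ _ _ _ _)
      (TBc_incr _ _ _ _ _)
      (kLR' (dmp S) _ _ (sLR _ _ _ _ (by omega) (by omega) (by omega) (by omega)).2 (by omega))
      (kTB (dmp S) _ _ _ _ (sTB _ _ _ _ (by omega) (by omega) (by omega) (by omega)).2 (by omega)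
        (by omega) (by omega))
      (kLR (dmp S) _ _ _ _ (sLR _ _ _ _ (by omega) (by omega) (by omega) (by omega)).2 (by omega)
        (by omega) (by omega))
      (kTB (dmp S) _ _ _ _ (sTB _ _ _ _ (by omega) (by omega) (by omega) (by omega)).2 (by omega)
        (by omega) (by omega))

end Pool.Agent.Y995.FS
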