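import Pool.Agent.Y995.FS.TrialG

/-!
Iteration of general trials along a strand.
-/

set_option autoImplicit false

namespace Pool.Agent.Y995.FS

open H974 Finset H342P H984P

/-- A trial event: start `(A, y0)`, tip `(X, Y)`, time `T`, configuration. -/
abbrev TEv := ℤ → ℤ → ℤ → ℤ → ℕ → Set Edg → Prop

/-- The trial event depends on the examined edges and the block around the tip. -/
def LocQ (m : ℕ) (Q : TEv) : Prop :=
  ∀ (A y0 X Y : ℤ) (T : ℕ) (F G : Set Edg), (∀ e ∈ Exm F (st0 A y0) T, (e ∈ F ↔ e ∈ G)) →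
    (∀ e ∈ Bl X Y m, (e ∈ F ↔ e ∈ G)) → Q A y0 X Y T F → Q A y0 X Y T G

/-- Trials succeed with probability at least `δ`. -/
def TrQ (S : Finset Edg) (A y0 : ℤ) (m : ℕ) (Q : TEv) (δ : ℝ) : Prop :=
  ∀ (k F0 : Finset Edg) (X Y : ℤ) (T : ℕ),
    F0 ⊆ S → k ⊆ S → Strand (↑F0 : Set Edg) A y0 X Y T → A ≤ X - 9 * m →
    Bl X Y m ⊆ S → ((A - 1, y0, true) : Edg) ∈ k → Exm (↑F0) (st0 A y0) T ⊆ k →
    (∀ e ∈ k, e ∈ Bl X Y m → e ∈ Exm (↑F0) (st0 A y0) T) →
    δ ≤ Pr (fun _ => (1/2:ℝ)) (S \ k) (fun G => Q A y0 X Y T (↑((F0 ∩ k) ∪ G)))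

/-- the trial at the `i`-th tip fails -/
def FlQ (Q : TEv) (A y0 : ℤ) (m i : ℕ) (F : Set Edg) : Prop :=
  ¬ Q A y0 (A + 121 * m * i) (tY A y0 F (A + 121 * m * i)) (tT A y0 F (A + 121 * m * i)) F

/-- crossing of `i` slabs, the trials before fail -/
def EEQ (Q : TEv) (A y0 H : ℤ) (m i : ℕ) (F : Set Edg) : Prop :=
  CR A y0 H m i F ∧ ∀ j, 1 ≤ j → j < i → FlQ Q A y0 m j F

section

variable {S : Finset Edg} {A y0 H : ℤ} {m K : ℕ} {Q : TEv}

theorem fl_congr (hQ : LocQ m Q) {i : ℕ} {F G : Set Edg}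
    (e1 : tT A y0 G (A + 121 * m * i) = tT A y0 F (A + 121 * m * i))
    (e2 : tY A y0 G (A + 121 * m * i) = tY A y0 F (A + 121 * m * i))
    (h1 : ∀ e ∈ Exm F (st0 A y0) (tT A y0 F (A + 121 * m * i)), (e ∈ F ↔ e ∈ G))
    (h2 : ∀ e ∈ Bl (A + 121 * m * i) (tY A y0 F (A + 121 * m * i)) m, (e ∈ F ↔ e ∈ G)) :
    FlQ Q A y0 m i F ↔ FlQ Q A y0 m i G := by
  unfold FlQ
  rw [e1, e2]
  refine not_congr ⟨fun h => hQ _ _ _ _ _ _ _ h1 h2 h, fun h => ?_⟩
  refine hQ _ _ _ _ _ _ _ ?_ (fun e he => (h2 e he).symm) h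
  rw [Exm_congr h1]
  exact fun e he => (h1 e he).symm

theorem iq_EE_congr (hQ : LocQ m Q) (ha : 1 ≤ m) (hS : BB A y0 H m K ⊆ S) {i : ℕ} (hi : 1 ≤ i)
    (hiK : i ≤ K) {F G : Finset Edg} (hFG : F ∩ H984P.KK S A y0 H m i F = G ∩ H984P.KK S A y0 H m i F)
    (h : EEQ Q A y0 H m i (↑F : Set Edg)) : EEQ Q A y0 H m i (↑G : Set Edg) := by
  obtain ⟨hc, hf⟩ := h
  obtain ⟨g1, g2, g3⟩ := it_agree ha hS hi hiK hc hFG
  refine ⟨(it_same ha hi le_rfl hc (by exact_mod_cast g1)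
    (fun e he => by exact_mod_cast g2 e he)).2.2.1, ?_⟩
  intro j hj hji
  obtain ⟨s1, s2, _, s4⟩ := it_same ha hj hji.le hc (G := (↑G : Set Edg)) (by exact_mod_cast g1)
    (fun e he => by exact_mod_cast g2 e he)
  refine (fl_congr hQ s1 s2 ?_ ?_).1 (hf j hj hji)
  · intro e he
    have := g2 e (it_exm_mono (it_down ha hj hji.le hc).2 he)
    exact_mod_cast this
  · intro e he
    have := g3 j hj hji e he
    exact_mod_cast this

theorem iq_step (hQ : LocQ m Q) (ha : 1 ≤ m) (hS : BB A y0 H m K ⊆ S) {i : ℕ} {δ : ℝ}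
    (hi : 1 ≤ i) (hiK : i ≤ K) (htr : TrQ S A y0 m Q δ) :
    Pr (fun _ => (1/2:ℝ)) S (fun F => EEQ Q A y0 H m i (↑F) ∧ FlQ Q A y0 m i (↑F)) ≤
      (1 - δ) * Pr (fun _ => (1/2:ℝ)) S (fun F => EEQ Q A y0 H m i (↑F)) := by
  have hp : Ok (fun _ : Edg => (1/2:ℝ)) := fun _ => ⟨by norm_num, by norm_num⟩
  apply markov_gen hp (K := H984P.KK S A y0 H m i) (fun F _ => it_KK_sub F) (it_stop ha hS hi hiK)
  · intro F G _ _ hFG h
    exact iq_EE_congr hQ ha hS hi hiK hFG h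
  · intro F0 hF0 hE
    have hc := hE.1
    have hKS : H984P.KK S A y0 H m i F0 ⊆ S := it_KK_sub F0
    obtain ⟨b1, b2, b3⟩ := it_box ha hi hiK hc
    have ha' : (1:ℤ) ≤ m := by exact_mod_cast ha
    have hi' : (1:ℤ) ≤ i := by exact_mod_cast hi
    have hai : (m:ℤ) ≤ m * i := by nlinarith
    have hKK : H984P.KK S A y0 H m i F0 = (insert (A - 1, y0, true)
        (Exm (↑F0 : Set Edg) (st0 A y0) (tT A y0 ↑F0 (A + 121 * m * i)) ∪
        (Finset.Ico 1 i).biUnion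
          (fun j => Bl (A + 121 * m * j) (tY A y0 ↑F0 (A + 121 * m * j)) m))) ∩ S := by
      unfold H984P.KK
      rw [if_pos hc]
    have htr' := htr (H984P.KK S A y0 H m i F0) F0 _ _ _ hF0 hKS hc.1 (by nlinarith) (b3.trans hS)
      (by
        rw [hKK, Finset.mem_inter]
        exact ⟨Finset.mem_insert_self _ _, hS b1⟩)
      (by
        intro e he
        rw [hKK, Finset.mem_inter]
        exact ⟨Finset.mem_insert_of_mem (Finset.mem_union_left _ he), hS (b2 he)⟩)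
      (by
        intro e he heB
        rw [hKK, Finset.mem_inter, Finset.mem_insert, Finset.mem_union] at he
        rcases he.1 with he | he | he
        · exfalso
          rw [he] at heB
          unfold Bl at heB
          rw [mem_RE_true] at heB
          nlinarith [heB.1]
        · exact he
        · exfalso
          rw [Finset.mem_biUnion] at he
          obtain ⟨j, hj, he⟩ := he
          rw [Finset.mem_Ico] at hj
          have hji : (j:ℤ) + 1 ≤ i := by exact_mod_cast hj.2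
          have h6 : (m:ℤ) * j + m ≤ m * i := by nlinarith
          obtain ⟨x, y, b⟩ := e
          unfold Bl at he heB
          cases b
          · rw [mem_RE_false] at he heB
            have q1 := he.2.1
            have q2 := heB.1
            nlinarith
          · rw [mem_RE_true] at he heB
            have q1 := he.2.1
            have q2 := heB.1
            nlinarith)
    have hev : ∀ G, G ⊆ S \ H984P.KK S A y0 H m i F0 →
        (FlQ Q A y0 m i (↑((F0 ∩ H984P.KK S A y0 H m i F0) ∪ G)) ↔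
          ¬ (Q A y0 (A + 121 * m * i) (tY A y0 ↑F0 (A + 121 * m * i))
            (tT A y0 ↑F0 (A + 121 * m * i)) (↑((F0 ∩ H984P.KK S A y0 H m i F0) ∪ G)))) := by
      intro G hG
      have hFG : F0 ∩ H984P.KK S A y0 H m i F0 =
          ((F0 ∩ H984P.KK S A y0 H m i F0) ∪ G) ∩ H984P.KK S A y0 H m i F0 := by
        ext e
        simp only [Finset.mem_inter, Finset.mem_union]
        constructor
        · rintro ⟨h1, h2⟩; exact ⟨Or.inl ⟨h1, h2⟩, h2⟩
        · rintro ⟨h1 | h1, h2⟩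
          · exact h1
          · exact absurd h2 (Finset.mem_sdiff.mp (hG h1)).2
      obtain ⟨g1, g2, _⟩ := it_agree ha hS hi hiK hc hFG
      obtain ⟨s1, s2, _, s4⟩ := it_same ha hi le_rfl hc
        (G := (↑((F0 ∩ H984P.KK S A y0 H m i F0) ∪ G) : Set Edg)) (Finset.mem_coe.mpr g1)
        (fun e he => by rw [Finset.mem_coe, Finset.mem_coe]; exact g2 e he)
      unfold FlQ
      rw [s1, s2]
    rw [Pr_congr hev, Pr_not]
    linarith

theorem EEQ_bound (hQ : LocQ m Q) (ha : 1 ≤ m) {δ : ℝ} (hδ1 : δ ≤ 1) (hS : BB A y0 H m K ⊆ S)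
    (htr : TrQ S A y0 m Q δ) : ∀ i : ℕ, i + 1 ≤ K →
      Pr (fun _ => (1/2:ℝ)) S (fun F => EEQ Q A y0 H m (i+1) (↑F)) ≤
        (1 - δ) ^ i * Pr (fun _ => (1/2:ℝ)) S (fun F => Long' A y0 H m 1 (↑F)) := by
  have hp : Ok (fun _ : Edg => (1/2:ℝ)) := fun _ => ⟨by norm_num, by norm_num⟩
  intro i
  induction i with
  | zero =>
    intro _
    rw [pow_zero, one_mul]
    apply Pr_mono hp
    intro F _ hE
    exact ⟨_, _, by simpa using hE.1.1, by simpa using hE.1.2⟩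
  | succ i ih =>
    intro h1
    have h3 : 0 ≤ 1 - δ := by linarith
    have h4 : Pr (fun _ => (1/2:ℝ)) S (fun F => EEQ Q A y0 H m (i+1+1) (↑F)) ≤
        Pr (fun _ => (1/2:ℝ)) S
          (fun F => EEQ Q A y0 H m (i+1) (↑F) ∧ FlQ Q A y0 m (i+1) (↑F)) := by
      refine Pr_mono hp fun F _ hE => ?_
      exact ⟨⟨(it_down ha (by omega) (by omega) hE.1).1, fun j hj hji => hE.2 j hj (by omega)⟩,
        hE.2 (i+1) (by omega) (by omega)⟩
    refine h4.trans ((iq_step hQ ha hS (by omega) (by omega) htr).trans ?_)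
    calc (1 - δ) * _ ≤ (1 - δ) * ((1 - δ) ^ i *
          Pr (fun _ => (1/2:ℝ)) S (fun F => Long' A y0 H m 1 (↑F))) :=
          mul_le_mul_of_nonneg_left (ih (by omega)) h3
      _ = _ := by ring

/-- A strand over `K` slabs whose trials all fail. -/
def Fail (Q : TEv) (A y0 H : ℤ) (m K : ℕ) (F : Set Edg) : Prop :=
  ∃ (Y : ℤ) (T : ℕ), Strand F A y0 (A + 121 * m * K) Y T ∧
    (∀ s ≤ T, |(orb F (st0 A y0) s).1.2 - y0| ≤ H) ∧
    ∀ (j : ℕ) (Yj : ℤ) (Tj : ℕ), 1 ≤ j → j < K → Strand F A y0 (A + 121 * m * j) Yj Tj → Tj ≤ T →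
      ¬ Q A y0 (A + 121 * m * j) Yj Tj F

theorem iterQ (hQ : LocQ m Q) (ha : 1 ≤ m) (hK : 1 ≤ K) {δ : ℝ} (hδ1 : δ ≤ 1)
    (hS : RE (A - 60 * m) (A + 121 * m * K + 60 * m) (y0 - H - 60 * m) (y0 + H + 60 * m) ⊆ S)
    (htr : TrQ S A y0 m Q δ) :
    Pr (fun _ => (1/2:ℝ)) S (fun F => Fail Q A y0 H m K (↑F)) ≤
      (1 - δ) ^ (K - 1) * Pr (fun _ => (1/2:ℝ)) S (fun F => Long' A y0 H m 1 (↑F)) := by
  have hp : Ok (fun _ : Edg => (1/2:ℝ)) := fun _ => ⟨by norm_num, by norm_num⟩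
  have hS' : BB A y0 H m K ⊆ S := hS
  obtain ⟨K', rfl⟩ : ∃ K', K = K' + 1 := ⟨K - 1, by omega⟩
  rw [Nat.add_sub_cancel]
  refine le_trans (Pr_mono hp fun F _ hF => ?_) (EEQ_bound hQ ha hδ1 hS' htr K' le_rfl)
  obtain ⟨Y, T, hst, hcf, hall⟩ := hF
  have hc := it_long (i := K' + 1) ⟨Y, T, hst, hcf⟩
  refine ⟨hc, fun j hj hji => ?_⟩
  obtain ⟨hcj, hTj⟩ := it_down ha hj hji.le hc
  obtain ⟨e1, e2⟩ := it_of_strand hst
  unfold FlQ
  refine hall j _ _ hj hji hcj.1 ?_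
  rw [← e1]
  exact hTj

end

end Pool.Agent.Y995.FS
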