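import Pool.Agent.Y995.FS.LimF2

/-!
Passage to the limit: slow pieces.
-/

set_option autoImplicit false
set_option linter.unusedVariables false

namespace Pool.Agent.Y995.FS

open H974 Finset H342P H984P H984N MeasureTheory Filter Topology

/-- `1` for `x ≤ 1`, `0` for `2 ≤ x`, linear between. -/
noncomputable def tent (x : ℝ) : ℝ := max 0 (min 1 (2 - x))

theorem tent_cont : Continuous tent := by unfold tent; fun_prop

theorem tent_nonneg (x : ℝ) : 0 ≤ tent x := le_max_left _ _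

theorem tent_le (x : ℝ) : tent x ≤ 1 := max_le (by norm_num) (min_le_left _ _)

theorem tent_one {x : ℝ} (h : x ≤ 1) : tent x = 1 := by
  unfold tent
  rw [min_eq_left (by linarith), max_eq_right (by norm_num)]

theorem tent_zero {x : ℝ} (h : 2 ≤ x) : tent x = 0 := by
  unfold tent
  rw [max_eq_left]
  exact (min_le_right _ _).trans (by linarith)

/-- Smoothed occupation time. -/
noncomputable def Jo (w : ℝ) (s t : unitInterval) (f : C(unitInterval, ℂ)) (z : ℂ) : ℝ :=
  ∫ u in Set.Icc s t, tent (dist (f u) z / w)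

theorem Jo_int (w : ℝ) (s t : unitInterval) (f : C(unitInterval, ℂ)) (z : ℂ) (S : Set unitInterval) :
    Integrable (fun u => tent (dist (f u) z / w)) (volume.restrict S) := by
  have h1 : Continuous (fun u : unitInterval => tent (dist (f u) z / w)) :=
    tent_cont.comp ((f.continuous.dist continuous_const).div_const _)
  refine Integrable.of_bound (C := 1) h1.aestronglyMeasurable ?_
  filter_upwards with u
  rw [Real.norm_eq_abs, abs_of_nonneg (tent_nonneg _)]
  exact tent_le _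

theorem Jo_cont {Y : Type*} [TopologicalSpace Y] [FirstCountableTopology Y] (w : ℝ)
    (s t : unitInterval) {F : Y → C(unitInterval, ℂ)} (hF : Continuous F) {Z : Y → ℂ}
    (hZ : Continuous Z) : Continuous (fun y => Jo w s t (F y) (Z y)) := by
  unfold Jo
  refine continuous_of_dominated (bound := fun _ => 1) (fun y => (Jo_int w s t _ _ _).1) ?_ ?_ ?_
  · intro y
    filter_upwards with u
    rw [Real.norm_eq_abs, abs_of_nonneg (tent_nonneg _)]
    exact tent_le _
  · exact integrable_const _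
  · filter_upwards with u
    have h1 : Continuous (fun y => F y u) := by fun_prop
    exact tent_cont.comp ((h1.dist hZ).div_const _)

theorem Jo_le {w : ℝ} (hw : 0 < w) (s t : unitInterval) (f : C(unitInterval, ℂ)) (z : ℂ) :
    Jo w s t f z ≤ (volume {u : unitInterval | (s ≤ u ∧ u ≤ t) ∧ dist (f u) z ≤ 2 * w}).toReal := by
  obtain ⟨V, hV⟩ : ∃ V : Set unitInterval, V = {u | dist (f u) z ≤ 2 * w} := ⟨_, rfl⟩
  have hVm : MeasurableSet V := by
    rw [hV]
    exact (isClosed_le (f.continuous.dist continuous_const) continuous_const).measurableSet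
  have e : {u : unitInterval | (s ≤ u ∧ u ≤ t) ∧ dist (f u) z ≤ 2 * w} = Set.Icc s t ∩ V := by
    rw [hV]; rfl
  have h1 : Jo w s t f z ≤ ∫ u in Set.Icc s t, V.indicator (fun _ => (1:ℝ)) u := by
    unfold Jo
    refine integral_mono (Jo_int w s t f z _) ?_ ?_
    · exact (integrable_const (1:ℝ)).indicator hVm
    · intro u
      simp only
      by_cases hu : u ∈ V
      · rw [Set.indicator_of_mem hu]; exact tent_le _
      · rw [Set.indicator_of_notMem hu, tent_zero]
        rw [hV] at hu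
        simp only [Set.mem_ofPred_eq, not_le] at hu
        rw [le_div_iff₀ hw]
        exact hu.le
  refine h1.trans (le_of_eq ?_)
  rw [setIntegral_indicator hVm, e]
  simp [Measure.real]

theorem volW {n k : ℕ} (hk : k + 1 ≤ n) :
    volume {u : unitInterval | (k : ℝ) ≤ u * n ∧ (u : ℝ) * n < k + 1} =
      ENNReal.ofReal (1 / n) := by
  have hn : 0 < n := by omega
  have hn' : (0 : ℝ) < n := by exact_mod_cast hn
  have e : {u : unitInterval | (k : ℝ) ≤ u * n ∧ (u : ℝ) * n < k + 1} =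
      Set.Ico (nodeT n k (by omega)) (nodeT n (k + 1) hk) := by
    ext u
    rw [Set.mem_Ico]
    change _ ↔ ((k : ℝ) / n ≤ (u : ℝ)) ∧ ((u : ℝ) < ((k + 1 : ℕ) : ℝ) / n)
    rw [div_le_iff₀ hn', lt_div_iff₀ hn']
    push_cast
    rfl
  rw [e, unitInterval.volume_Ico]
  congr 1
  change ((k + 1 : ℕ) : ℝ) / n - (k : ℝ) / n = 1 / n
  push_cast
  ring

theorem Jo_ge {w η : ℝ} (hw : 0 < w) (hη : 0 ≤ η) {n : ℕ} {p : ℕ → ℂ} (hn : 0 < n)
    (hstep : ∀ k < n, dist (p k) (p (k + 1)) ≤ η) {s t : unitInterval} {k l : ℕ}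
    (hs : (s : ℝ) * n ≤ k) (ht : (l : ℝ) ≤ t * n) (hl : l ≤ n) {z : ℂ} {G : Finset ℕ}
    (hG : ∀ i ∈ G, k + i < l ∧ dist (p (k + i)) z + η ≤ w) :
    (G.card : ℝ) / n ≤ Jo w s t (pl n p) z := by
  classical
  have hn' : (0 : ℝ) < n := by exact_mod_cast hn
  obtain ⟨W, hW⟩ : ∃ W : ℕ → Set unitInterval, W = fun i =>
    {u : unitInterval | ((k + i : ℕ) : ℝ) ≤ u * n ∧ (u : ℝ) * n < ((k + i : ℕ) : ℝ) + 1} :=
    ⟨_, rfl⟩
  have hWm : ∀ i, MeasurableSet (W i) := by
    intro i
    rw [hW]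
    have h1 : Continuous (fun u : unitInterval => (u : ℝ) * n) := by fun_prop
    exact (isClosed_le continuous_const h1).measurableSet.inter
      (isOpen_lt h1 continuous_const).measurableSet
  have hWd : ∀ i j, i < j → Disjoint (W i) (W j) := by
    intro i j hij
    rw [Set.disjoint_left]
    intro u hi hj
    rw [hW] at hi hj
    simp only [Set.mem_ofPred_eq] at hi hj
    have h1 : ((k + i : ℕ) : ℝ) + 1 ≤ ((k + j : ℕ) : ℝ) := by
      have : k + i + 1 ≤ k + j := by omega
      exact_mod_cast this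
    linarith [hi.2, hj.1]
  obtain ⟨U, hU⟩ : ∃ U : Set unitInterval, U = ⋃ i ∈ G, W i := ⟨_, rfl⟩
  have hvol : volume U = G.card * ENNReal.ofReal (1 / n) := by
    rw [hU, measure_biUnion_finset]
    · rw [← nsmul_eq_mul, ← Finset.sum_const]
      refine Finset.sum_congr rfl fun i hi => ?_
      rw [hW]
      exact volW (by have := (hG i hi).1; omega)
    · intro i _ j _ hij
      rcases lt_or_gt_of_ne hij with h | h
      · exact hWd i j h
      · exact (hWd j i h).symm
    · exact fun i _ => hWm i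
  have hUm : MeasurableSet U := by
    rw [hU]
    exact Finset.measurableSet_biUnion _ fun i _ => hWm i
  have hUs : U ⊆ Set.Icc s t := by
    intro u hu
    rw [hU, Set.mem_iUnion₂] at hu
    obtain ⟨i, hi, h1⟩ := hu
    rw [hW] at h1
    obtain ⟨h2, h3⟩ := h1
    have h4 := (hG i hi).1
    constructor
    · change (s : ℝ) ≤ u
      have h5 : (k : ℝ) ≤ ((k + i : ℕ) : ℝ) := by exact_mod_cast Nat.le_add_right k i
      have h6 : (s : ℝ) * n ≤ u * n := by linarith
      exact le_of_mul_le_mul_right h6 hn'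
    · change (u : ℝ) ≤ t
      have h5 : ((k + i : ℕ) : ℝ) + 1 ≤ (l : ℝ) := by exact_mod_cast h4
      have h6 : (u : ℝ) * n ≤ t * n := by linarith
      exact le_of_mul_le_mul_right h6 hn'
  have hone : ∀ u ∈ U, tent (dist (pl n p u) z / w) = 1 := by
    intro u hu
    rw [hU, Set.mem_iUnion₂] at hu
    obtain ⟨i, hi, h1⟩ := hu
    rw [hW] at h1
    obtain ⟨h2, h3⟩ := h1
    obtain ⟨h4, h5⟩ := hG i hi
    refine tent_one ?_
    rw [div_le_one hw]
    refine le_trans ?_ h5
    have h6 : k + i < n := by omega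
    have h7 : dist (pl n p u) (p (k + i)) ≤ η := by
      rw [pl_seg h6 h2 h3.le, dist_eq_norm]
      have e : p (k + i) + (((u : ℝ) * n - ((k + i : ℕ) : ℝ) : ℝ) : ℂ) * (p (k + i + 1) - p (k + i)) -
          p (k + i) = (((u : ℝ) * n - ((k + i : ℕ) : ℝ) : ℝ) : ℂ) * (p (k + i + 1) - p (k + i)) := by
        ring
      rw [e, norm_mul, Complex.norm_real, Real.norm_eq_abs, abs_of_nonneg (by linarith),
        ← dist_eq_norm, dist_comm]
      have h8 : ((u : ℝ) * n - ((k + i : ℕ) : ℝ)) * dist (p (k + i)) (p (k + i + 1)) ≤ 1 * η :=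
        mul_le_mul (by linarith) (hstep _ h6) dist_nonneg (by norm_num)
      linarith
    have h8 := dist_triangle (pl n p u) (p (k + i)) z
    linarith
  have h1 : ∫ u in U, tent (dist (pl n p u) z / w) = (G.card : ℝ) / n := by
    rw [setIntegral_congr_fun hUm hone]
    simp only [integral_const, smul_eq_mul, mul_one, Measure.real, Measure.restrict_apply,
      MeasurableSet.univ, Set.univ_inter]
    rw [hvol, ENNReal.toReal_mul, ENNReal.toReal_ofReal (by positivity)]
    simp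
    rfl
  rw [← h1]
  unfold Jo
  refine setIntegral_mono_set (Jo_int w s t _ z _) ?_ ?_
  · filter_upwards with u using tent_nonneg _
  · exact hUs.eventuallyLE

/-- a ball which contains the rectangle -/
noncomputable def rad (R : Rect) : ℝ := R.A + R.B + R.H + 1

theorem norm_D {R : Rect} {z : ℂ} (h : z ∈ R.D) : ‖z‖ ≤ R.A + R.B + R.H := by
  obtain ⟨h1, h2, h3, h4⟩ := h
  have a1 := R.hA
  have a2 := R.hB
  have b1 : |z.re| ≤ R.A + R.B := by rw [abs_le]; constructor <;> linarith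
  have b2 : |z.im| ≤ R.H := by rw [abs_le]; constructor <;> linarith
  exact (Complex.norm_le_abs_re_add_abs_im z).trans (by linarith)

/-- Curves with a piece in the bulk which is not slow. -/
def BadO (R : Rect) (ρ w τ : ℝ) : Set X :=
  {p | ∃ s t : unitInterval, s < t ∧ 5 * ρ < dep R (p.1 s) ∧ ρ < dist (p.1 s) (p.1 t) ∧
    ∀ z : ℂ, ‖z‖ ≤ rad R → p.2 * Jo w s t p.1 z < τ}

theorem badO_open (R : Rect) (ρ w τ : ℝ) : IsOpen (BadO R ρ w τ) := by
  obtain ⟨BB, hBB⟩ : ∃ BB : Set ℂ, BB = Metric.closedBall 0 (rad R) := ⟨_, rfl⟩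
  have hBc : IsCompact BB := by rw [hBB]; exact isCompact_closedBall _ _
  have : CompactSpace BB := isCompact_iff_compactSpace.1 hBc
  have hmem : ∀ z : ℂ, z ∈ BB ↔ ‖z‖ ≤ rad R := by
    intro z; rw [hBB, mem_closedBall_zero_iff]
  have e : BadO R ρ w τ = ⋃ s : unitInterval, ⋃ t : unitInterval, ⋃ _ : s < t,
      (({p : X | 5 * ρ < dep R (p.1 s)} ∩ {p : X | ρ < dist (p.1 s) (p.1 t)}) ∩
        (Prod.fst '' {x : X × BB | τ ≤ x.1.2 * Jo w s t x.1.1 x.2})ᶜ) := by
    ext p
    simp only [BadO, Set.mem_ofPred_eq, Set.mem_iUnion, Set.mem_inter_iff, Set.mem_compl_iff,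
      Set.mem_image, exists_prop]
    constructor
    · rintro ⟨s, t, h1, h2, h3, h4⟩
      refine ⟨s, t, h1, ⟨h2, h3⟩, ?_⟩
      rintro ⟨⟨p', z, hz⟩, a1, rfl⟩
      exact absurd a1 (not_le.2 (h4 z ((hmem z).1 hz)))
    · rintro ⟨s, t, h1, ⟨h2, h3⟩, h4⟩
      refine ⟨s, t, h1, h2, h3, fun z hz => ?_⟩
      by_contra hcon
      push Not at hcon
      exact h4 ⟨(p, ⟨z, (hmem z).2 hz⟩), hcon, rfl⟩
  rw [e]
  refine isOpen_iUnion fun s => isOpen_iUnion fun t => isOpen_iUnion fun _ => ?_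
  refine IsOpen.inter (IsOpen.inter ?_ ?_) ?_
  · have c0 : Continuous (fun p : X => p.1 s) := by fun_prop
    exact isOpen_lt continuous_const ((dep_cont R).comp c0)
  · have c0 : Continuous (fun p : X => p.1 s) := by fun_prop
    have c1 : Continuous (fun p : X => p.1 t) := by fun_prop
    exact isOpen_lt continuous_const (c0.dist c1)
  · rw [isOpen_compl_iff]
    refine isClosedMap_fst_of_compactSpace _ ?_
    have c0 : Continuous (fun x : X × BB => x.1.2) := by fun_prop
    have c1 : Continuous (fun x : X × BB => Jo w s t x.1.1 x.2) :=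
      Jo_cont w s t (by fun_prop) (by fun_prop)
    exact isClosed_le continuous_const (c0.mul c1)

/-- Bad curves at mesh `δ` come from bad pieces of the path. -/
theorem badO_mesh {R : Rect} {δ ρ w τ M : ℝ} {m : ℕ} (hδ : 0 < δ) (hρ : δ ≤ ρ) (hδ2 : δ ≤ 1/2)
    (hw2 : w ≤ 1/2) (hm : 2 ≤ m) (hw : 11 * (m * δ) ≤ w) (hM : 1 < M)
    (hτ : τ ≤ (M - 1) * δ ^ (7/4 : ℝ)) {F : Finset Edg} (hok : (R.dm δ).Ok)
    (hF : F ⊆ (R.dm δ).edges)
    (h : (R.curve δ F, R.time δ F) ∈ BadO R ρ w τ) : GBad (gS (5 * m) M) R δ ρ F := by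
  classical
  obtain ⟨s, t, hst, h1, h2, h3⟩ := h
  obtain ⟨n, hn⟩ : ∃ n, n = (R.dm δ).len F := ⟨_, rfl⟩
  obtain ⟨p, hp⟩ : ∃ p : ℕ → ℂ, p = fun k => pos δ ((R.dm δ).walk F k) := ⟨_, rfl⟩
  have hc : R.curve δ F = pl n p := by unfold Rect.curve; rw [hn, hp]
  simp only [hc] at h1 h2 h3
  have hstep : ∀ k < n, dist (p k) (p (k + 1)) ≤ δ / 2 := fun k _ => by
    have := pos_nxt hδ.le ((R.dm δ).cfg F) ((R.dm δ).walk F k)
    rw [hp]
    rwa [← walk_succ] at this
  obtain ⟨hn0, k, l, hkl, hl, hsk, hlt, d1, d2⟩ := nodes (by positivity) hstep hst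
    (by linarith)
  have hn' : (0 : ℝ) < n := by exact_mod_cast hn0
  have hm' : (2 : ℝ) ≤ m := by exact_mod_cast hm
  have hw0 : 0 < w := by nlinarith
  refine ⟨k, l, hkl, by rw [← hn]; exact hl, ?_, ?_, ?_⟩
  · have h4 := dep_lip R (pl n p s) (p k)
    have h5 : p k = pos δ ((R.dm δ).walk F k) := by rw [hp]
    rw [← h5]
    linarith
  · have h4 : dist (pl n p s) (pl n p t) ≤ dist (pl n p s) (p k) + dist (p k) (p l) +
        dist (p l) (pl n p t) := dist_triangle4 _ _ _ _
    rw [dist_comm (p l)] at h4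
    have h5 : p k = pos δ ((R.dm δ).walk F k) := by rw [hp]
    have h6 : p l = pos δ ((R.dm δ).walk F l) := by rw [hp]
    rw [← h5, ← h6]
    linarith
  · rintro ⟨z, hz⟩
    obtain ⟨G0, hG0⟩ : ∃ G0 : Finset ℕ, G0 = (Finset.range (l - k + 1)).filter
      (fun s => sd z ((R.dm δ).walk F (k + s)).1 ≤ 5 * m) := ⟨_, rfl⟩
    have hz' : M ≤ (G0.card : ℝ) := by rw [hG0]; exact hz
    obtain ⟨G, hG⟩ : ∃ G : Finset ℕ, G = G0.erase (l - k) := ⟨_, rfl⟩
    have hcard : (G0.card : ℝ) - 1 ≤ (G.card : ℝ) := by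
      have h4 : G0.card - 1 ≤ G.card := by rw [hG]; exact Finset.pred_card_le_card_erase
      have h5 : G0.card ≤ G.card + 1 := by omega
      have h6 : (G0.card : ℝ) ≤ (G.card : ℝ) + 1 := by exact_mod_cast h5
      linarith
    obtain ⟨z', hz'2⟩ : ∃ z' : ℂ, z' = pos δ (z, Q4.ne) := ⟨_, rfl⟩
    have hGG : ∀ i ∈ G, k + i < l ∧ dist (p (k + i)) z' + δ / 2 ≤ w := by
      intro i hi
      rw [hG, mem_erase, hG0, mem_filter, mem_range] at hi
      refine ⟨by omega, ?_⟩
      have h4 := dist_pos_le hδ.le (z, Q4.ne) ((R.dm δ).walk F (k + i))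
      rw [dist_comm, ← hz'2] at h4
      have h5 : ((sd (z, Q4.ne).1 ((R.dm δ).walk F (k + i)).1 : ℤ) : ℝ) ≤ ((5 * m : ℤ) : ℝ) := by
        exact_mod_cast hi.2.2
      push_cast at h5
      have h6 : p (k + i) = pos δ ((R.dm δ).walk F (k + i)) := by rw [hp]
      rw [h6]
      have h7 : δ * (2 * ((sd (z, Q4.ne).1 ((R.dm δ).walk F (k + i)).1 : ℤ) : ℝ) + 1) ≤
          δ * (2 * (5 * m) + 1) := mul_le_mul_of_nonneg_left (by linarith) hδ.le
      nlinarith
    have hne : G.Nonempty := by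
      rw [← Finset.card_pos]
      have : (0 : ℝ) < G.card := by linarith
      exact_mod_cast this
    obtain ⟨i0, hi0⟩ := hne
    have hzball : ‖z'‖ ≤ rad R := by
      obtain ⟨-, h4⟩ := hGG i0 hi0
      obtain ⟨y, hy, hy2⟩ := R.pos_near hδ (walk_in hok hF (k + i0))
      have h5 : p (k + i0) = pos δ ((R.dm δ).walk F (k + i0)) := by rw [hp]
      rw [← h5] at hy2
      have h6 := norm_D hy
      have h7 : ‖z'‖ ≤ dist (p (k + i0)) z' + (dist (p (k + i0)) y + ‖y‖) := by
        have e1 : ‖z'‖ = dist z' 0 := (dist_zero_right z').symm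
        have e2 : ‖y‖ = dist y 0 := (dist_zero_right y).symm
        rw [e1, e2]
        have a1 := dist_triangle z' (p (k + i0)) 0
        have a2 := dist_triangle (p (k + i0)) y 0
        rw [dist_comm z' (p (k + i0))] at a1
        linarith
      unfold rad
      linarith
    have h8 := h3 z' hzball
    have h9 := Jo_ge hw0 (by positivity) hn0 hstep hsk hlt hl hGG
    have h10 : R.time δ F = δ ^ (7/4 : ℝ) * n := by unfold Rect.time; rw [hn]
    rw [h10] at h8
    have hδ7 : 0 < δ ^ (7/4 : ℝ) := Real.rpow_pos_of_pos hδ _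
    have h11 : δ ^ (7/4 : ℝ) * (G.card : ℝ) ≤ δ ^ (7/4 : ℝ) * n * Jo w s t (pl n p) z' := by
      have h12 : (G.card : ℝ) ≤ n * Jo w s t (pl n p) z' := by
        rw [div_le_iff₀ hn'] at h9
        linarith
      rw [mul_assoc]
      exact mul_le_mul_of_nonneg_left h12 hδ7.le
    have h12 : (M - 1) * δ ^ (7/4 : ℝ) ≤ δ ^ (7/4 : ℝ) * (G.card : ℝ) := by
      rw [mul_comm]
      exact mul_le_mul_of_nonneg_left (by linarith) hδ7.le
    linarith

end Pool.Agent.Y995.FS
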