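import Pool.Agent.Y995.FS.SlowDet
import Pool.Agent.TH992.T.Low3
import Pool.Agent.TH992.L.Slow3

/-!
The comb: edge sets, monotonicity, correlation inequality.
-/

set_option autoImplicit false
set_option linter.unusedVariables false

namespace Pool.Agent.Y995.FS

open H974 Finset H342P H984P H984N TH992.T

/-- the edges of the open part of the comb -/
noncomputable def EC1 (X Y : ℤ) (m b I : ℕ) : Finset Edg :=
  (range I).biUnion (fun i => LRE (X + 20 * m) (X + 38 * m) (yt Y m b i) (yt Y m b i + 4 * b)) ∪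
    TBE (X + 20 * m) (X + 24 * m) (Y - 12 * m) (Y + 3 * m)

/-- the edges of the dual part of the comb -/
noncomputable def EC2 (X Y : ℤ) (m b I : ℕ) : Finset Edg :=
  ((range I).biUnion (fun i => LRE (X + 26 * m) (X + 44 * m) (yt Y m b i + 16 * b)
    (yt Y m b i + 16 * b + 4 * b)) ∪
    TBE (X + 40 * m) (X + 44 * m) (Y - 3 * m) (Y + 12 * m)).map dl.symm.toEmbedding

theorem mem_EC1 {X Y : ℤ} {m b I : ℕ} {e : Edg} : e ∈ EC1 X Y m b I ↔
    (∃ i < I, e ∈ LRE (X + 20 * m) (X + 38 * m) (yt Y m b i) (yt Y m b i + 4 * b)) ∨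
      e ∈ TBE (X + 20 * m) (X + 24 * m) (Y - 12 * m) (Y + 3 * m) := by
  unfold EC1
  simp only [mem_union, mem_biUnion, mem_range]

theorem mem_EC2 {X Y : ℤ} {m b I : ℕ} {e : Edg} : e ∈ EC2 X Y m b I ↔
    (∃ i < I, dl e ∈ LRE (X + 26 * m) (X + 44 * m) (yt Y m b i + 16 * b)
      (yt Y m b i + 16 * b + 4 * b)) ∨
      dl e ∈ TBE (X + 40 * m) (X + 44 * m) (Y - 3 * m) (Y + 12 * m) := by
  unfold EC2
  rw [mem_map]
  constructor
  · rintro ⟨e', he', rfl⟩
    rw [Equiv.coe_toEmbedding, Equiv.apply_symm_apply]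
    simpa only [mem_union, mem_biUnion, mem_range] using he'
  · intro h
    refine ⟨dl e, ?_, by simp⟩
    simpa only [mem_union, mem_biUnion, mem_range] using h

theorem yt_lt {Y : ℤ} {m b i j : ℕ} (h : i < j) : yt Y m b i + 40 * b ≤ yt Y m b j := by
  unfold yt
  have h1 : 40 * b * (i + 1) ≤ 40 * b * j := Nat.mul_le_mul_left _ h
  have h2 : 40 * b * (i + 1) = 40 * b * i + 40 * b := by ring
  omega

theorem yt_le {Y : ℤ} {m b i j : ℕ} (h : i ≤ j) : yt Y m b i ≤ yt Y m b j := by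
  unfold yt
  have h1 : 40 * b * i ≤ 40 * b * j := Nat.mul_le_mul_left _ h
  omega

theorem EC1_sub {X Y : ℤ} {m b I : ℕ} (hb : 1 ≤ b) (hbm : 12 * b ≤ m) (hH : HgtC m b I) :
    EC1 X Y m b I ⊆ RB X Y m := by
  intro e he
  rw [mem_EC1] at he
  unfold RB
  rcases he with ⟨i, hi, he⟩ | he
  · obtain ⟨h1, h2⟩ := yt_bd (Y := Y) hH hi
    obtain ⟨x, y, _ | _⟩ := e
    · rw [mem_LRE_false] at he
      rw [mem_RE_false]; omega
    · rw [mem_LRE_true] at he
      rw [mem_RE_true]; omega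
  · obtain ⟨x, y, _ | _⟩ := e
    · rw [mem_TBE_false] at he
      rw [mem_RE_false]; omega
    · rw [mem_TBE_true] at he
      rw [mem_RE_true]; omega

theorem EC2_sub {X Y : ℤ} {m b I : ℕ} (hb : 1 ≤ b) (hbm : 12 * b ≤ m) (hH : HgtC m b I) :
    EC2 X Y m b I ⊆ RB X Y m := by
  intro e he
  rw [mem_EC2] at he
  unfold RB
  rcases he with ⟨i, hi, he⟩ | he
  · obtain ⟨h1, h2⟩ := yt_bd (Y := Y) hH hi
    obtain ⟨x, y, _ | _⟩ := e
    · rw [dl_f, mem_LRE_true] at he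
      rw [mem_RE_false]; omega
    · rw [dl_t, mem_LRE_false] at he
      rw [mem_RE_true]; omega
  · obtain ⟨x, y, _ | _⟩ := e
    · rw [dl_f, mem_TBE_true] at he
      rw [mem_RE_false]; omega
    · rw [dl_t, mem_TBE_false] at he
      rw [mem_RE_true]; omega

theorem EC_disj {X Y : ℤ} {m b I : ℕ} (hb : 1 ≤ b) (hbm : 12 * b ≤ m) (hH : HgtC m b I) :
    Disjoint (EC1 X Y m b I) (EC2 X Y m b I) := by
  rw [disjoint_left]
  intro e h1 h2
  rw [mem_EC1] at h1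
  rw [mem_EC2] at h2
  rcases h1 with ⟨i, hi, he⟩ | he
  · rcases h2 with ⟨j, hj, he'⟩ | he'
    · rcases Nat.lt_or_ge j i with h | h
      · have h3 := yt_lt (Y := Y) (m := m) (b := b) h
        obtain ⟨x, y, _ | _⟩ := e
        · rw [mem_LRE_false] at he
          rw [dl_f, mem_LRE_true] at he'
          omega
        · rw [mem_LRE_true] at he
          rw [dl_t, mem_LRE_false] at he'
          omega
      · have h3 := yt_le (Y := Y) (m := m) (b := b) h
        obtain ⟨x, y, _ | _⟩ := e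
        · rw [mem_LRE_false] at he
          rw [dl_f, mem_LRE_true] at he'
          omega
        · rw [mem_LRE_true] at he
          rw [dl_t, mem_LRE_false] at he'
          omega
    · obtain ⟨x, y, _ | _⟩ := e
      · rw [mem_LRE_false] at he
        rw [dl_f, mem_TBE_true] at he'
        omega
      · rw [mem_LRE_true] at he
        rw [dl_t, mem_TBE_false] at he'
        omega
  · rcases h2 with ⟨j, hj, he'⟩ | he'
    · obtain ⟨x, y, _ | _⟩ := e
      · rw [mem_TBE_false] at he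
        rw [dl_f, mem_LRE_true] at he'
        omega
      · rw [mem_TBE_true] at he
        rw [dl_t, mem_LRE_false] at he'
        omega
    · obtain ⟨x, y, _ | _⟩ := e
      · rw [mem_TBE_false] at he
        rw [dl_f, mem_TBE_true] at he'
        omega
      · rw [mem_TBE_true] at he
        rw [dl_t, mem_TBE_false] at he'
        omega

theorem LRc_mono' {a b c d : ℤ} {F G : Finset Edg} (h : ∀ e ∈ LRE a b c d, e ∈ F → e ∈ G)
    (hF : LRc a b c d F) : LRc a b c d G := by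
  obtain ⟨y, y', h1, h2, h3⟩ := hF
  refine ⟨y, y', h1, h2, h3.mono ?_⟩
  rintro e ⟨he, he'⟩
  exact ⟨Finset.mem_coe.2 (h e (Finset.mem_coe.1 he') (Finset.mem_coe.1 he)), he'⟩

theorem TBc_mono' {a b c d : ℤ} {F G : Finset Edg} (h : ∀ e ∈ TBE a b c d, e ∈ F → e ∈ G)
    (hF : TBc a b c d F) : TBc a b c d G := by
  obtain ⟨y, y', h1, h2, h3⟩ := hF
  refine ⟨y, y', h1, h2, h3.mono ?_⟩
  rintro e ⟨he, he'⟩
  exact ⟨Finset.mem_coe.2 (h e (Finset.mem_coe.1 he') (Finset.mem_coe.1 he)), he'⟩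

theorem CA_mono' {X Y : ℤ} {m b I : ℕ} {F G : Finset Edg}
    (h : ∀ e ∈ EC1 X Y m b I, e ∈ F → e ∈ G) (hF : CA X Y m b I F) : CA X Y m b I G :=
  ⟨fun i hi => LRc_mono' (fun e he => h e (mem_EC1.2 (Or.inl ⟨i, hi, he⟩))) (hF.1 i hi),
    TBc_mono' (fun e he => h e (mem_EC1.2 (Or.inr he))) hF.2⟩

theorem CB_mono' {X Y : ℤ} {m b I : ℕ} {F G : Finset Edg}
    (h : ∀ e ∈ EC2 X Y m b I, e ∈ G → e ∈ F) (hF : CB X Y m b I F) : CB X Y m b I G := by
  refine ⟨fun i hi => LRc_mono' (fun e he he' => ?_) (hF.1 i hi),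
    TBc_mono' (fun e he he' => ?_) hF.2⟩
  · rw [mem_dmp, mem_sdiff] at he' ⊢
    refine ⟨he'.1, fun h' => he'.2 (h _ (mem_EC2.2 (Or.inl ⟨i, hi, ?_⟩)) h')⟩
    rw [Equiv.apply_symm_apply]; exact he
  · rw [mem_dmp, mem_sdiff] at he' ⊢
    refine ⟨he'.1, fun h' => he'.2 (h _ (mem_EC2.2 (Or.inr ?_)) h')⟩
    rw [Equiv.apply_symm_apply]; exact he

theorem mid_PR_EC2 {X Y : ℤ} {m b I : ℕ} (hb : 1 ≤ b) (hbm : 12 * b ≤ m) (hH : HgtC m b I)
    {v : Vtx} (hv : MidC X Y m b I v) {e : Edg} (he : e ∈ PR v b) (he' : e ∈ EC2 X Y m b I) :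
    False := by
  obtain ⟨⟨hv1, hv2⟩, i, hi, hr1, hr2⟩ := hv
  unfold PR at he
  rw [mem_EC2] at he'
  rcases he' with ⟨j, hj, he'⟩ | he'
  · rcases Nat.lt_or_ge j i with h | h
    · have h3 := yt_lt (Y := Y) (m := m) (b := b) h
      obtain ⟨x, y, _ | _⟩ := e
      · rw [mem_RE_false] at he
        rw [dl_f, mem_LRE_true] at he'
        omega
      · rw [mem_RE_true] at he
        rw [dl_t, mem_LRE_false] at he'
        omega
    · have h3 := yt_le (Y := Y) (m := m) (b := b) h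
      obtain ⟨x, y, _ | _⟩ := e
      · rw [mem_RE_false] at he
        rw [dl_f, mem_LRE_true] at he'
        omega
      · rw [mem_RE_true] at he
        rw [dl_t, mem_LRE_false] at he'
        omega
  · obtain ⟨x, y, _ | _⟩ := e
    · rw [mem_RE_false] at he
      rw [dl_f, mem_TBE_true] at he'
      omega
    · rw [mem_RE_true] at he
      rw [dl_t, mem_TBE_false] at he'
      omega

theorem mid_DR_EC1 {X Y : ℤ} {m b I : ℕ} (hb : 1 ≤ b) (hbm : 12 * b ≤ m) (hH : HgtC m b I)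
    {v : Vtx} (hv : MidC X Y m b I v) {e : Edg} (he : dl e ∈ DR v b)
    (he' : e ∈ EC1 X Y m b I) : False := by
  obtain ⟨⟨hv1, hv2⟩, i, hi, hr1, hr2⟩ := hv
  unfold DR at he
  rw [mem_EC1] at he'
  rcases he' with ⟨j, hj, he'⟩ | he'
  · rcases Nat.lt_or_ge i j with h | h
    · have h3 := yt_lt (Y := Y) (m := m) (b := b) h
      obtain ⟨x, y, _ | _⟩ := e
      · rw [dl_f, mem_RE_true] at he
        rw [mem_LRE_false] at he'
        omega
      · rw [dl_t, mem_RE_false] at he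
        rw [mem_LRE_true] at he'
        omega
    · have h3 := yt_le (Y := Y) (m := m) (b := b) h
      obtain ⟨x, y, _ | _⟩ := e
      · rw [dl_f, mem_RE_true] at he
        rw [mem_LRE_false] at he'
        omega
      · rw [dl_t, mem_RE_false] at he
        rw [mem_LRE_true] at he'
        omega
  · obtain ⟨x, y, _ | _⟩ := e
    · rw [dl_f, mem_RE_true] at he
      rw [mem_TBE_false] at he'
      omega
    · rw [dl_t, mem_RE_false] at he
      rw [mem_TBE_true] at he'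
      omega

/-- correlation inequality -/
theorem comb_harris {X Y : ℤ} {m b I : ℕ} (hb : 1 ≤ b) (hbm : 12 * b ≤ m) (hH : HgtC m b I)
    {v : Vtx} (hv : MidC X Y m b I v) :
    Pr (fun _ => (1/2:ℝ)) (RB X Y m) (fun F => RA v b (↑F)) *
      (Pr (fun _ => (1/2:ℝ)) (RB X Y m) (CA X Y m b I) *
        Pr (fun _ => (1/2:ℝ)) (RB X Y m) (CB X Y m b I)) ≤
      Pr (fun _ => (1/2:ℝ)) (RB X Y m) (fun F => RA v b (↑F) ∧ (CA X Y m b I F ∧
        CB X Y m b I F)) := by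
  refine harris_signed two_ok (EC1_sub hb hbm hH) (EC2_sub hb hbm hH) (EC_disj hb hbm hH)
    (fun F _ => ⟨CA_mono' (fun e he h => mem_inter.2 ⟨h, he⟩),
      CA_mono' (fun e _ h => (mem_inter.1 h).1)⟩)
    (fun F G h hF => CA_mono' (fun e _ h' => h h') hF)
    (fun F _ => ⟨CB_mono' (fun e _ h => (mem_inter.1 h).1),
      CB_mono' (fun e he h => mem_inter.2 ⟨h, he⟩)⟩)
    (fun F G h hG => CB_mono' (fun e _ h' => h h') hG) (fun F G _ _ h0 h1 h2 h => ?_)
  refine RA_mono' ?_ ?_ h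
  · intro e he heF
    have hc2 : e ∉ EC2 X Y m b I := fun h => mid_PR_EC2 hb hbm hH hv he h
    by_cases hc1 : e ∈ EC1 X Y m b I
    · exact Finset.mem_coe.2 (mem_inter.1 (h1 (mem_inter.2 ⟨Finset.mem_coe.1 heF, hc1⟩))).1
    · have h5 : e ∈ F \ (EC1 X Y m b I ∪ EC2 X Y m b I) := by
        rw [mem_sdiff, mem_union]
        exact ⟨Finset.mem_coe.1 heF, fun hc => hc.elim hc1 hc2⟩
      rw [h0] at h5
      exact Finset.mem_coe.2 (mem_sdiff.1 h5).1
  · intro e he heG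
    have hc1 : e ∉ EC1 X Y m b I := fun h => mid_DR_EC1 hb hbm hH hv he h
    by_cases hc2 : e ∈ EC2 X Y m b I
    · exact Finset.mem_coe.2 (mem_inter.1 (h2 (mem_inter.2 ⟨Finset.mem_coe.1 heG, hc2⟩))).1
    · have h5 : e ∈ G \ (EC1 X Y m b I ∪ EC2 X Y m b I) := by
        rw [mem_sdiff, mem_union]
        exact ⟨Finset.mem_coe.1 heG, fun hc => hc.elim hc1 hc2⟩
      rw [← h0] at h5
      exact Finset.mem_coe.2 (mem_sdiff.1 h5).1

theorem comb_indep {X Y : ℤ} {m b I : ℕ} (hb : 1 ≤ b) (hbm : 12 * b ≤ m) (hH : HgtC m b I) :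
    Pr (fun _ => (1/2:ℝ)) (RB X Y m) (fun F => CA X Y m b I F ∧ CB X Y m b I F) =
      Pr (fun _ => (1/2:ℝ)) (RB X Y m) (CA X Y m b I) *
        Pr (fun _ => (1/2:ℝ)) (RB X Y m) (CB X Y m b I) :=
  Pr_indep (EC1_sub hb hbm hH) (EC2_sub hb hbm hH) (EC_disj hb hbm hH)
    (fun F _ => ⟨CA_mono' (fun e he h => mem_inter.2 ⟨h, he⟩),
      CA_mono' (fun e _ h => (mem_inter.1 h).1)⟩)
    (fun F _ => ⟨CB_mono' (fun e _ h => (mem_inter.1 h).1),
      CB_mono' (fun e he h => mem_inter.2 ⟨h, he⟩)⟩)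

/-- probability of the open part -/
theorem pr_CA {X Y : ℤ} {m b I n : ℕ} (hb : 1 ≤ b) (hbm : 12 * b ≤ m) (hH : HgtC m b I)
    (hn : 18 * m ≤ 32 * b * (n + 1)) {S : Finset Edg} (hS : EC1 X Y m b I ⊆ S) :
    q0 ^ ((2 * n + 1) * I + 1) ≤ Pr (fun _ => (1/2:ℝ)) S (CA X Y m b I) := by
  have ok : Ok (fun _ : Edg => (1/2:ℝ)) := okq (by norm_num) (by norm_num)
  have hb' : (1 : ℤ) ≤ b := by exact_mod_cast hb
  have hbm' : 12 * (b : ℤ) ≤ m := by exact_mod_cast hbm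
  have hn' : 18 * (m : ℤ) ≤ 8 * (4 * b) * n + 8 * (4 * b) := by
    have : ((18 * m : ℕ) : ℤ) ≤ ((32 * b * (n + 1) : ℕ) : ℤ) := by exact_mod_cast hn
    push_cast at this
    linarith
  have s1 := strips (S := S) (l := X + 20 * m) (r := X + 38 * m) (h := 4 * b) (m := n)
    (by omega) (by omega) (by linarith) (yt Y m b) I (fun i hi e he =>
      hS (mem_EC1.2 (Or.inl ⟨i, hi, he⟩)))
  have s2 : q0 ≤ Pr (fun _ => (1/2:ℝ)) S
      (TBc (X + 20 * m) (X + 24 * m) (Y - 12 * m) (Y + 3 * m)) := by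
    rw [pr_TBc _ (fun e he => hS (mem_EC1.2 (Or.inr he)))]
    have e1 : Y + 3 * (m : ℤ) - (Y - 12 * m) = 15 * m := by ring
    have e2 : X + 24 * (m : ℤ) - (X + 20 * m) = 4 * m := by ring
    rw [e1, e2]
    exact (H12S.WH.main (h := 4 * m) (by omega)).trans
      (hh_mono (by norm_num) (by norm_num) (by omega) (by omega) le_rfl)
  have h2 := Pr_harris ok (S := S)
    (A := fun F => ∀ i < I, LRc (X + 20 * m) (X + 38 * m) (yt Y m b i) (yt Y m b i + 4 * b) F)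
    (B := TBc (X + 20 * m) (X + 24 * m) (Y - 12 * m) (Y + 3 * m))
    (fun F G h h' hF i hi => LRc_incr S _ _ _ _ F G h h' (hF i hi)) (TBc_incr S _ _ _ _)
  rw [pow_succ]
  exact (mul_le_mul s1 s2 q0_pos.le ((pow_nonneg q0_pos.le _).trans s1)).trans h2

/-- probability of the dual part -/
theorem pr_CB {X Y : ℤ} {m b I n : ℕ} (hb : 1 ≤ b) (hbm : 12 * b ≤ m) (hH : HgtC m b I)
    (hn : 18 * m ≤ 32 * b * (n + 1)) :
    q0 ^ ((2 * n + 1) * I + 1) ≤ Pr (fun _ => (1/2:ℝ)) (RB X Y m) (CB X Y m b I) := by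
  have ok : Ok (fun _ : Edg => (1/2:ℝ)) := okq (by norm_num) (by norm_num)
  have hb' : (1 : ℤ) ≤ b := by exact_mod_cast hb
  have hbm' : 12 * (b : ℤ) ≤ m := by exact_mod_cast hbm
  have hn' : 18 * (m : ℤ) ≤ 8 * (4 * b) * n + 8 * (4 * b) := by
    have : ((18 * m : ℕ) : ℤ) ≤ ((32 * b * (n + 1) : ℕ) : ℤ) := by exact_mod_cast hn
    push_cast at this
    linarith
  obtain ⟨S, hS⟩ : ∃ S : Finset Edg, S = dmp (RB X Y m) := ⟨_, rfl⟩
  have hsub : ∀ e, dl.symm e ∈ EC2 X Y m b I → e ∈ S := by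
    intro e he
    rw [hS, mem_dmp]
    exact EC2_sub hb hbm hH he
  have e := H12S.pr_dual (q := 1/2) (RB X Y m) (fun F =>
    (∀ i < I, LRc (X + 26 * m) (X + 44 * m) (yt Y m b i + 16 * b) (yt Y m b i + 16 * b + 4 * b)
      F) ∧ TBc (X + 40 * m) (X + 44 * m) (Y - 3 * m) (Y + 12 * m) F)
  have e1 : (1:ℝ) - 1/2 = 1/2 := by norm_num
  rw [e1] at e
  unfold H12S.PQ at e
  have e2 : Pr (fun _ => (1/2:ℝ)) (RB X Y m) (CB X Y m b I) = Pr (fun _ => (1/2:ℝ)) S
    (fun F => (∀ i < I, LRc (X + 26 * m) (X + 44 * m) (yt Y m b i + 16 * b)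
      (yt Y m b i + 16 * b + 4 * b) F) ∧ TBc (X + 40 * m) (X + 44 * m) (Y - 3 * m)
      (Y + 12 * m) F) := by
    rw [hS, ← e]
    rfl
  rw [e2]
  have s1 := strips (S := S) (l := X + 26 * m) (r := X + 44 * m) (h := 4 * b) (m := n)
    (by omega) (by omega) (by linarith) (fun i => yt Y m b i + 16 * b) I (fun i hi e he =>
      hsub e (mem_EC2.2 (Or.inl ⟨i, hi, by rw [Equiv.apply_symm_apply]; exact he⟩)))
  have s2 : q0 ≤ Pr (fun _ => (1/2:ℝ)) S
      (TBc (X + 40 * m) (X + 44 * m) (Y - 3 * m) (Y + 12 * m)) := by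
    rw [pr_TBc _ (fun e he => hsub e (mem_EC2.2 (Or.inr (by
      rw [Equiv.apply_symm_apply]; exact he))))]
    have e1 : Y + 12 * (m : ℤ) - (Y - 3 * m) = 15 * m := by ring
    have e2 : X + 44 * (m : ℤ) - (X + 40 * m) = 4 * m := by ring
    rw [e1, e2]
    exact (H12S.WH.main (h := 4 * m) (by omega)).trans
      (hh_mono (by norm_num) (by norm_num) (by omega) (by omega) le_rfl)
  have h2 := Pr_harris ok (S := S)
    (A := fun F => ∀ i < I, LRc (X + 26 * m) (X + 44 * m) (yt Y m b i + 16 * b)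
      (yt Y m b i + 16 * b + 4 * b) F)
    (B := TBc (X + 40 * m) (X + 44 * m) (Y - 3 * m) (Y + 12 * m))
    (fun F G h h' hF i hi => LRc_incr S _ _ _ _ F G h h' (hF i hi)) (TBc_incr S _ _ _ _)
  rw [pow_succ]
  exact (mul_le_mul s1 s2 q0_pos.le ((pow_nonneg q0_pos.le _).trans s1)).trans h2

end Pool.Agent.Y995.FS
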