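import Pool.Agent.Y995.FS.SlowEv

/-!
The comb: moments and probability of the slow trial.
-/

set_option autoImplicit false
set_option linter.unusedVariables false

namespace Pool.Agent.Y995.FS

open H974 Finset H342P H984P H984N TH992.T

open Classical in
/-- the vertices in the middle of the periods -/
noncomputable def Wc (X Y : ℤ) (m b I : ℕ) : Finset Vtx := (Wv X Y m).filter (MidC X Y m b I)

/-- number of mid vertices with arms -/
noncomputable def Zc (X Y : ℤ) (m b I : ℕ) (F : Finset Edg) : ℝ :=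
  ∑ v ∈ Wc X Y m b I, ind (RA v b (↑F))

theorem mem_Wc {X Y : ℤ} {m b I : ℕ} {v : Vtx} : v ∈ Wc X Y m b I ↔
    v ∈ Wv X Y m ∧ MidC X Y m b I v := by
  classical
  unfold Wc
  rw [mem_filter]

theorem card_Wc {X Y : ℤ} {m b I : ℕ} (hb : 1 ≤ b) (hH : HgtC m b I) :
    (8 * m) * (I * (4 * b)) ≤ (Wc X Y m b I).card := by
  classical
  have h2 : (range (8 * m) ×ˢ (range I ×ˢ range (4 * b))).card = (8 * m) * (I * (4 * b)) := by
    rw [card_product, card_product, card_range, card_range, card_range]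
  rw [← h2]
  refine card_le_card_of_injOn (fun q => ((X + 28 * m + q.1, yt Y m b q.2.1 + 8 * b + q.2.2) : Vtx))
    ?_ ?_
  · rintro ⟨k, i, j⟩ hq
    simp only [coe_product, coe_range, Set.mem_prod, Set.mem_Iio] at hq
    obtain ⟨hk, hi, hj⟩ := hq
    obtain ⟨h3, h4⟩ := yt_bd (Y := Y) hH hi
    rw [mem_coe, mem_Wc]
    unfold Wv MidC
    rw [mem_product, mem_Icc, mem_Icc]
    refine ⟨⟨⟨?_, ?_⟩, ?_, ?_⟩, ⟨?_, ?_⟩, i, hi, ?_, ?_⟩
    all_goals simp only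
    all_goals omega
  · rintro ⟨k, i, j⟩ hq ⟨k', i', j'⟩ hq' h
    simp only [coe_product, coe_range, Set.mem_prod, Set.mem_Iio] at hq hq'
    simp only [Prod.mk.injEq] at h
    obtain ⟨hk, hy⟩ := h
    have hij : i = i' := by
      rcases lt_trichotomy i i' with h | h | h
      · have := yt_lt (Y := Y) (m := m) (b := b) h; omega
      · exact h
      · have := yt_lt (Y := Y) (m := m) (b := b) h; omega
    subst hij
    simp only [Prod.mk.injEq, true_and]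
    omega

/-- the two-arm event in the middle of a period -/
theorem ra_geC {c : ℝ} (hL : LowA c (1/4)) {X Y : ℤ} {m b I : ℕ} (hb : 1 ≤ b)
    (hbm : 12 * b ≤ m) (hH : HgtC m b I) {v : Vtx} (hv : MidC X Y m b I v) :
    c * (b:ℝ) ^ (-(1/4) : ℝ) ≤ Pr (fun _ => (1/2:ℝ)) (RB X Y m) (fun F => RA v b (↑F)) := by
  obtain ⟨⟨hv1, hv2⟩, i, hi, hr1, hr2⟩ := hv
  obtain ⟨h3, h4⟩ := yt_bd (Y := Y) hH hi
  have hb' : (1 : ℤ) ≤ b := by exact_mod_cast hb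
  have hB : BA v b ⊆ RB X Y m := by
    unfold BA RB
    exact RE_sub_RE (by omega) (by omega) (by omega) (by omega)
  have hv' : v ∈ ctr v b := by rw [mem_ctr]; omega
  have e := pr_ra_ge hL hb hv'
  rw [pr_ra_local (BA_sub_NB hb hv')] at e
  rw [pr_ra_local hB]
  exact e

theorem Zc_ex {c : ℝ} (hc : 0 < c) (hL : LowA c (1/4)) {X Y : ℤ} {m b I : ℕ} (hb : 1 ≤ b)
    (hbm : 12 * b ≤ m) (hH : HgtC m b I) :
    ((Wc X Y m b I).card : ℝ) * (c * (b:ℝ) ^ (-(1/4) : ℝ)) *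
      (Pr (fun _ => (1/2:ℝ)) (RB X Y m) (CA X Y m b I) *
        Pr (fun _ => (1/2:ℝ)) (RB X Y m) (CB X Y m b I)) ≤
      Ex (fun _ => (1/2:ℝ)) (RB X Y m) (fun F => Zc X Y m b I F *
        ind (CA X Y m b I F ∧ CB X Y m b I F)) := by
  classical
  have e : Ex (fun _ => (1/2:ℝ)) (RB X Y m) (fun F => Zc X Y m b I F *
        ind (CA X Y m b I F ∧ CB X Y m b I F)) = ∑ v ∈ Wc X Y m b I,
        Pr (fun _ => (1/2:ℝ)) (RB X Y m) (fun F => RA v b (↑F) ∧ (CA X Y m b I F ∧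
          CB X Y m b I F)) := by
    unfold Pr
    rw [← Ex_sum]
    refine Ex_congr fun F _ => ?_
    unfold Zc
    rw [sum_mul]
    refine sum_congr rfl fun v _ => ?_
    by_cases h1 : RA v b (↑F)
    · by_cases h2 : CA X Y m b I F ∧ CB X Y m b I F
      · rw [ind_of h1, ind_of h2, ind_of ⟨h1, h2⟩, one_mul]
      · rw [ind_of h1, ind_not_of h2, ind_not_of (fun h => h2 h.2), mul_zero]
    · rw [ind_not_of h1, zero_mul]
      exact (ind_not_of (fun h => h1 h.1)).symm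
  rw [e, mul_assoc, ← nsmul_eq_mul, ← sum_const]
  refine sum_le_sum fun v hv => ?_
  rw [mem_Wc] at hv
  refine le_trans ?_ (comb_harris hb hbm hH hv.2)
  exact mul_le_mul_of_nonneg_right (ra_geC hL hb hbm hH hv.2)
    (mul_nonneg (Pr_nonneg two_ok _ _) (Pr_nonneg two_ok _ _))

theorem Zc_le {X Y : ℤ} {m b kk I : ℕ} (hb : 1 ≤ b) (hbm : 12 * b ≤ m) (hm : m ≤ 2 * b * kk)
    (hH : HgtC m b I) (F : Finset Edg) :
    Zc X Y m b I F ≤ ∑ q ∈ range (18 * kk) ×ˢ range (18 * kk),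
      ∑ v ∈ Bq (X + 28 * m + q.1 * b) (Y - 3 * m + q.2 * b) b, xw (RB X Y m) b v (↑F) := by
  classical
  have hb' : (1 : ℤ) ≤ b := by exact_mod_cast hb
  have hmz : (m : ℤ) ≤ 2 * (b * kk) := by
    have : ((m : ℕ) : ℤ) ≤ ((2 * b * kk : ℕ) : ℤ) := by exact_mod_cast hm
    push_cast at this
    linarith
  have h1 : Zc X Y m b I F ≤ ∑ v ∈ Wc X Y m b I, xw (RB X Y m) b v (↑F) := by
    unfold Zc
    refine sum_le_sum fun v hv => ?_
    rw [mem_Wc] at hv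
    obtain ⟨-, ⟨hv1, hv2⟩, i, hi, hr1, hr2⟩ := hv
    obtain ⟨h3, h4⟩ := yt_bd (Y := Y) hH hi
    have hsub : RE (v.1 - b) (v.1 + b) (v.2 - b) (v.2 + b) ⊆ RB X Y m := by
      unfold RB
      exact RE_sub_RE (by omega) (by omega) (by omega) (by omega)
    unfold xw
    rw [if_pos hsub]
    have h5 : ind (RA v b (↑F : Set Edg)) ≤ ind (Two v (face (v, Q4.ne)) b (↑F : Set Edg)) := by
      refine ind_mono fun h => ?_
      rw [face_ne]
      exact two_of_ra (by omega) h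
    refine h5.trans ?_
    exact single_le_sum (f := fun q : Q4 => ind (Two v (face (v, q)) b (↑F : Set Edg)))
      (fun q _ => ind_nonneg _) (mem_univ Q4.ne)
  refine h1.trans (TH992.L.cover (fun v => xw_nonneg _ _ _ _) hb ?_)
  intro v hv
  rw [mem_Wc] at hv
  have h2 := hv.1
  unfold Wv at h2
  rw [mem_product, mem_Icc, mem_Icc] at h2
  push_cast
  have hm0 : (0 : ℤ) < m := by omega
  have e1 : 18 * (kk : ℤ) * b = 18 * (b * kk) := by ring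
  rw [e1]
  refine ⟨⟨h2.1.1, by linarith⟩, h2.2.1, by linarith⟩

theorem sq_exp8 {y : ℝ} (hy : 0 ≤ y) : y ^ 2 ≤ 8 * Real.exp (y / 2) := by
  have h := Real.quadratic_le_exp_of_nonneg (show 0 ≤ y / 2 by linarith)
  nlinarith

/-- second moment -/
theorem Zc_sq {M : ℝ} (hM1 : 1 ≤ M) {C : ℝ} (hC : 0 < C) (hU : TwoUp C (1/4))
    (hM : ∀ (S : Finset Edg) (s : ℕ) (b c : ℤ), 1 ≤ s →
      Ex (fun _ => (1/2:ℝ)) S (fun F =>
        Real.exp (Yb (1/4) (fun s v F => xw S s v ↑F) s b c F / 2)) ≤ M)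
    {X Y : ℤ} {m b kk I : ℕ} (hb : 1 ≤ b) (hbm : 12 * b ≤ m) (hm : m ≤ 2 * b * kk)
    (hH : HgtC m b I) :
    Ex (fun _ => (1/2:ℝ)) (RB X Y m) (fun F => (Zc X Y m b I F) ^ 2) ≤
      (324 * (kk:ℝ) ^ 2) ^ 2 * (8 * M) * (b : ℝ) ^ (7/2 : ℝ) := by
  classical
  obtain ⟨R, hR⟩ : ∃ R, R = RB X Y m := ⟨_, rfl⟩
  have hf := xw_fam hC hU R
  have hb0 : (0 : ℝ) < b := by exact_mod_cast hb
  obtain ⟨y, hy⟩ : ∃ y : ℕ × ℕ → Finset Edg → ℝ, y = fun q F =>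
    Yb (1/4) (fun s v F => xw R s v ↑F) b (X + 28 * m + q.1 * b) (Y - 3 * m + q.2 * b) F :=
    ⟨_, rfl⟩
  have hy0 : ∀ q F, 0 ≤ y q F := by intro q F; rw [hy]; exact Yb_nonneg hf _ _ _ _
  obtain ⟨QQ, hQQ⟩ : ∃ QQ : Finset (ℕ × ℕ), QQ = range (18 * kk) ×ˢ range (18 * kk) := ⟨_, rfl⟩
  have hcard : (QQ.card : ℝ) = 324 * (kk:ℝ) ^ 2 := by
    rw [hQQ, card_product, card_range]; push_cast; ring
  have e0 : (2 - 1/4 : ℝ) = 7/4 := by norm_num
  have h1 : ∀ F, Zc X Y m b I F ≤ (b : ℝ) ^ (7/4 : ℝ) * ∑ q ∈ QQ, y q F := by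
    intro F
    refine (Zc_le hb hbm hm hH F).trans (le_of_eq ?_)
    rw [hQQ, hy, mul_sum]
    refine sum_congr rfl fun q _ => ?_
    unfold Yb Nb
    rw [e0, ← hR]
    have := Real.rpow_pos_of_pos hb0 (7/4 : ℝ)
    field_simp
  have h2 : ∀ F, (Zc X Y m b I F) ^ 2 ≤ (b : ℝ) ^ (7/2 : ℝ) *
      ((QQ.card : ℝ) * ∑ q ∈ QQ, y q F ^ 2) := by
    intro F
    have hz : 0 ≤ Zc X Y m b I F := sum_nonneg fun _ _ => ind_nonneg _
    have h3 := pow_le_pow_left₀ hz (h1 F) 2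
    refine h3.trans ?_
    rw [mul_pow]
    have e1 : ((b : ℝ) ^ (7/4 : ℝ)) ^ 2 = (b : ℝ) ^ (7/2 : ℝ) := by
      rw [← Real.rpow_natCast, ← Real.rpow_mul hb0.le]; norm_num
    rw [e1]
    refine mul_le_mul_of_nonneg_left ?_ (Real.rpow_nonneg hb0.le _)
    exact sq_sum_le_card_mul_sum_sq
  have h3 : Ex (fun _ => (1/2:ℝ)) (RB X Y m) (fun F => (Zc X Y m b I F) ^ 2) ≤
      (b : ℝ) ^ (7/2 : ℝ) * ((QQ.card : ℝ) * ((QQ.card : ℝ) * (8 * M))) := by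
    refine (Ex_mono two_ok (fun F _ => h2 F)).trans ?_
    rw [← hR, Ex_mul_left, Ex_mul_left, Ex_sum]
    refine mul_le_mul_of_nonneg_left ?_ (Real.rpow_nonneg hb0.le _)
    refine mul_le_mul_of_nonneg_left ?_ (Nat.cast_nonneg _)
    rw [← nsmul_eq_mul, ← sum_const]
    refine sum_le_sum fun q _ => ?_
    have h4 : Ex (fun _ => (1/2:ℝ)) R (fun F => y q F ^ 2) ≤
        Ex (fun _ => (1/2:ℝ)) R (fun F => 8 * Real.exp (y q F / 2)) :=
      Ex_mono two_ok (fun F _ => sq_exp8 (hy0 q F))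
    refine h4.trans ?_
    rw [Ex_mul_left]
    refine mul_le_mul_of_nonneg_left ?_ (by norm_num)
    rw [hy]
    exact hM R b _ _ hb
  refine h3.trans (le_of_eq ?_)
  rw [hcard]
  ring

/-- Paley–Zygmund -/
theorem pz_comb {X Y : ℤ} {m b I : ℕ} {μ Q M2 : ℝ} (hμ : 0 ≤ μ) (hQ : 0 ≤ Q)
    (hT : Pr (fun _ => (1/2:ℝ)) (RB X Y m) (fun F => CA X Y m b I F ∧ CB X Y m b I F) = Q)
    (h1 : μ * Q ≤ Ex (fun _ => (1/2:ℝ)) (RB X Y m) (fun F => Zc X Y m b I F *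
        ind (CA X Y m b I F ∧ CB X Y m b I F)))
    (hM : Ex (fun _ => (1/2:ℝ)) (RB X Y m) (fun F => (Zc X Y m b I F) ^ 2) ≤ M2) :
    (μ / 2 * Q) ^ 2 ≤ M2 * Pr (fun _ => (1/2:ℝ)) (RB X Y m) (fun F =>
      (CA X Y m b I F ∧ CB X Y m b I F) ∧ μ / 2 ≤ Zc X Y m b I F) := by
  obtain ⟨Bv, hBv⟩ : ∃ Bv : Finset Edg → Prop, Bv = fun F =>
      (CA X Y m b I F ∧ CB X Y m b I F) ∧ μ / 2 ≤ Zc X Y m b I F := ⟨_, rfl⟩
  rw [← hBv]
  have h2 : Ex (fun _ => (1/2:ℝ)) (RB X Y m) (fun F => Zc X Y m b I F *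
        ind (CA X Y m b I F ∧ CB X Y m b I F)) ≤ μ / 2 * Q +
      Ex (fun _ => (1/2:ℝ)) (RB X Y m) (fun F => Zc X Y m b I F * ind (Bv F)) := by
    rw [← hT]
    unfold Pr
    rw [← Ex_mul_left, ← Ex_add]
    refine Ex_mono two_ok fun F hF => ?_
    have hz : 0 ≤ Zc X Y m b I F := sum_nonneg fun _ _ => ind_nonneg _
    by_cases hT : CA X Y m b I F ∧ CB X Y m b I F
    · rw [ind_of hT, mul_one, mul_one]
      by_cases hB : μ / 2 ≤ Zc X Y m b I F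
      · rw [ind_of (show Bv F by rw [hBv]; exact ⟨hT, hB⟩)]; linarith
      · rw [ind_not_of (show ¬ Bv F by rw [hBv]; exact fun h => hB h.2)]; linarith
    · rw [ind_not_of hT, ind_not_of (show ¬ Bv F by rw [hBv]; exact fun h => hT h.1)]
      simp
  have h3 : μ / 2 * Q ≤
      Ex (fun _ => (1/2:ℝ)) (RB X Y m) (fun F => Zc X Y m b I F * ind (Bv F)) := by linarith
  have h4 := Ex_cs two_ok (RB X Y m) (fun F => Zc X Y m b I F) (fun F => ind (Bv F))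
  have h5 : Ex (fun _ => (1/2:ℝ)) (RB X Y m) (fun F => (ind (Bv F)) ^ 2) =
      Pr (fun _ => (1/2:ℝ)) (RB X Y m) Bv := by
    unfold Pr
    refine Ex_congr fun F _ => ?_
    rw [sq, ind_sq]
  rw [h5] at h4
  calc (μ / 2 * Q) ^ 2 ≤ (Ex (fun _ => (1/2:ℝ)) (RB X Y m)
        (fun F => Zc X Y m b I F * ind (Bv F))) ^ 2 := by
        apply pow_le_pow_left₀ (by positivity) h3
    _ ≤ _ := h4
    _ ≤ _ := mul_le_mul_of_nonneg_right hM (Pr_nonneg two_ok _ _)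

end Pool.Agent.Y995.FS
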